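import Pool.Agent.Lib.MP_8f66f0_al_CC.Geo.Sub

/-!
# Theorem CC, geometry: the action on the subdivision, its dimension and its stabilizers
-/

set_option autoImplicit false

namespace Pool.Agent.CC

open scoped Pointwise

namespace Med

variable {V : Type} {X : Med V}

/-! ### dimension -/

/-- Half spaces of the subdivision with a common cube, over disjoint half spaces. -/
theorem sbd_cross_aux {k j : Set V} (hk : k ∈ X.H) (hj : j ∈ X.H) {h' j' : Set X.Cub}
    (h1 : h' = A k ∨ h' = B k) (h2 : j' = A j ∨ j' = B j) (hc : Crs h' j')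
    (hd : k ∩ j = ∅) : False := by
  have hkB : h' ⊆ B k := by
    rcases h1 with rfl | rfl
    · exact A_sub_B k
    · exact subset_rfl
  have hjB : j' ⊆ B j := by
    rcases h2 with rfl | rfl
    · exact A_sub_B j
    · exact subset_rfl
  obtain ⟨c, hc1, hc2⟩ := hc.1
  have m1 : (c.1 ∩ k).Nonempty := hkB hc1
  have m2 : (c.1 ∩ j).Nonempty := hjB hc2
  have s1 : k ⊆ jᶜ := Set.disjoint_left.1 (Set.disjoint_iff_inter_eq_empty.2 hd)
  have s2 : j ⊆ kᶜ := fun x hx hx' => s1 hx' hx
  have m3 : (c.1 ∩ jᶜ).Nonempty := m1.mono (Set.inter_subset_inter_right c.1 s1)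
  have m4 : (c.1 ∩ kᶜ).Nonempty := m2.mono (Set.inter_subset_inter_right c.1 s2)
  have hne : k ≠ j := by
    rintro rfl
    obtain ⟨x, hx⟩ := X.ne k hk
    exact s1 hx hx
  by_cases hkj : k = jᶜ
  · subst hkj
    have e1 : h' = B jᶜ := by
      rcases h1 with rfl | rfl
      · exfalso
        obtain ⟨x, hx, hx'⟩ := m2
        exact hc1 hx hx'
      · rfl
    have e2 : j' = B j := by
      rcases h2 with rfl | rfl
      · exfalso
        obtain ⟨x, hx, hx'⟩ := m4
        simp only [compl_compl] at hx'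
        obtain ⟨y, hy, hy'⟩ := m3
        exact hy' (hc2 hy)
      · rfl
    subst e1
    subst e2
    obtain ⟨c', hc1', hc2'⟩ := hc.2.2.2
    rw [B_compl, compl_compl] at hc1'
    exact hc2' (A_sub_B j hc1')
  · have h5 := c.2.cross hk hj m1 m4 m2 m3 hne hkj
    obtain ⟨x, hx⟩ := h5.1
    rw [hd] at hx
    exact hx

theorem sbd_cross {k j : Set V} (hk : k ∈ X.H) (hj : j ∈ X.H) {h' j' : Set X.Cub}
    (h1 : h' = A k ∨ h' = B k) (h2 : j' = A j ∨ j' = B j) (hc : Crs h' j') : Crs k j := by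
  have h1' : h'ᶜ = A kᶜ ∨ h'ᶜ = B kᶜ := by
    rcases h1 with rfl | rfl
    · exact Or.inr (A_compl k)
    · exact Or.inl (B_compl k)
  have h2' : j'ᶜ = A jᶜ ∨ j'ᶜ = B jᶜ := by
    rcases h2 with rfl | rfl
    · exact Or.inr (A_compl j)
    · exact Or.inl (B_compl j)
  have hk' := X.compl k hk
  have hj' := X.compl j hj
  refine ⟨?_, ?_, ?_, ?_⟩
  · by_contra h
    exact sbd_cross_aux hk hj h1 h2 hc (Set.not_nonempty_iff_eq_empty.1 h)
  · by_contra h
    exact sbd_cross_aux hk hj' h1 h2' hc.compl_right (Set.not_nonempty_iff_eq_empty.1 h)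
  · by_contra h
    exact sbd_cross_aux hk' hj h1' h2 hc.compl_left (Set.not_nonempty_iff_eq_empty.1 h)
  · by_contra h
    exact sbd_cross_aux hk' hj' h1' h2' hc.compl_left.compl_right
      (Set.not_nonempty_iff_eq_empty.1 h)

theorem Dim.sbd {N : ℕ} (hN : X.Dim N) : X.sbd.Dim N := by
  classical
  intro F hF hFc
  have hch : ∀ h' : Set X.Cub, h' ∈ X.sbd.H → ∃ k, k ∈ X.H ∧ (h' = A k ∨ h' = B k) :=
    fun h' h => h
  choose! f hf1 hf2 using hch
  have key : ∀ h' ∈ F, ∀ j' ∈ F, h' ≠ j' → Crs (f h') (f j') := fun h' hh j' hj hne =>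
    sbd_cross (hf1 h' (hF h' hh)) (hf1 j' (hF j' hj)) (hf2 h' (hF h' hh)) (hf2 j' (hF j' hj))
      (hFc h' hh j' hj hne)
  have hinj : Set.InjOn f (F : Set (Set X.Cub)) := by
    intro h' hh j' hj he
    by_contra hne
    exact (key h' hh j' hj hne).ne he
  rw [← Finset.card_image_of_injOn hinj]
  refine hN _ ?_ ?_
  · intro k hk
    obtain ⟨h', hh, rfl⟩ := Finset.mem_image.1 hk
    exact hf1 h' (hF h' hh)
  · intro k hk j hj hne
    obtain ⟨h', hh, rfl⟩ := Finset.mem_image.1 hk
    obtain ⟨j', hj', rfl⟩ := Finset.mem_image.1 hj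
    exact key h' hh j' hj' fun h => hne (by rw [h])

/-! ### the action -/

variable {G : Type} [Group G] [MulAction G V]

theorem Inv.cube_smul (hG : X.Inv G) (g : G) (v : V) (F : Set (Set V)) :
    g • X.cube v F = X.cube (g • v) (g • F) := by
  ext w
  rw [Set.mem_smul_set_iff_inv_smul_mem]
  constructor
  · intro h k hk hv hw
    rw [Set.mem_smul_set_iff_inv_smul_mem]
    refine h _ (hG g⁻¹ k hk) ?_ ?_
    · rwa [Set.mem_inv_smul_set_iff]
    · rwa [Set.smul_mem_smul_set_iff]
  · intro h k hk hv hw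
    have := h (g • k) (hG g k hk) (Set.smul_mem_smul_set hv) (fun h' => hw (by
      rwa [Set.mem_smul_set_iff_inv_smul_mem] at h'))
    rwa [Set.smul_mem_smul_set_iff] at this

theorem Inv.isCube_smul (hG : X.Inv G) (g : G) {c : Set V} (hc : X.IsCube c) :
    X.IsCube (g • c) := by
  obtain ⟨v, F, hf, hm, hF, rfl⟩ := hc
  refine ⟨g • v, g • F, hf.smul_set, ?_, ?_, hG.cube_smul g v F⟩
  · rintro _ ⟨h, hh, rfl⟩
    exact hG.mn_smul g (hm h hh)
  · rintro _ ⟨h, hh, rfl⟩ _ ⟨k, hk, rfl⟩ hne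
    exact (hF h hh k hk fun h' => hne (by rw [h'])).smul g

/-- The action on the cubes. -/
@[reducible] def Inv.act (hG : X.Inv G) : MulAction G X.Cub where
  smul g c := ⟨g • c.1, hG.isCube_smul g c.2⟩
  one_smul c := Subtype.ext (one_smul G c.1)
  mul_smul g h c := Subtype.ext (mul_smul g h c.1)

theorem Inv.A_smul (hG : X.Inv G) (g : G) (k : Set V) :
    letI := hG.act
    g • (A k : Set X.Cub) = A (g • k) := by
  let := hG.act
  ext c
  rw [Set.mem_smul_set_iff_inv_smul_mem]
  change g⁻¹ • c.1 ⊆ k ↔ c.1 ⊆ g • k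
  exact Set.subset_smul_set_iff.symm

theorem Inv.B_smul (hG : X.Inv G) (g : G) (k : Set V) :
    letI := hG.act
    g • (B k : Set X.Cub) = B (g • k) := by
  let := hG.act
  have h1 := hG.A_smul g kᶜ
  have h2 : (B k : Set X.Cub) = (A kᶜ)ᶜ := by rw [A_compl, compl_compl]
  rw [h2, Set.smul_set_compl, h1, A_compl, Set.smul_set_compl, compl_compl]

/-- Every action on `X` gives an action without inversions on the subdivision. -/
def Inv.actSub (hG : X.Inv G) : @Act G X.Cub _ hG.act X.sbd :=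
  letI := hG.act
  { smul_mem := by
      rintro g h ⟨k, hk, rfl | rfl⟩
      · exact ⟨g • k, hG g k hk, Or.inl (hG.A_smul g k)⟩
      · exact ⟨g • k, hG g k hk, Or.inr (hG.B_smul g k)⟩
    pos := {h | ∃ k ∈ X.H, h = A k}
    pos_sub := by
      rintro h ⟨k, hk, rfl⟩
      exact ⟨k, hk, Or.inl rfl⟩
    pos_smul := by
      rintro g h ⟨k, hk, rfl⟩
      exact ⟨g • k, hG g k hk, hG.A_smul g k⟩
    pos_or := by
      rintro h ⟨k, hk, h1⟩
      constructor
      · rintro ⟨j, hj, rfl⟩ ⟨i, hi, h2⟩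
        rw [A_compl] at h2
        exact A_ne_B hi h2.symm
      · intro h2
        rcases h1 with rfl | rfl
        · exact ⟨k, hk, rfl⟩
        · exact absurd ⟨kᶜ, X.compl k hk, B_compl k⟩ h2 }

theorem Inv.stab_cube (hG : X.Inv G) (c : X.Cub) :
    letI := hG.act
    MulAction.stabilizer G c = MulAction.stabilizer G c.1 := by
  let := hG.act
  ext g
  rw [MulAction.mem_stabilizer_iff, MulAction.mem_stabilizer_iff]
  exact Subtype.ext_iff

/-- The pointwise stabilizer of a cube has finite index in the stabilizer. -/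
theorem exists_fixes {c : Set V} (hc : X.IsCube c) :
    ∃ n, 0 < n ∧ ∀ g ∈ MulAction.stabilizer G c, ∀ v ∈ c, g ^ n • v = v := by
  classical
  have hfin : Finite c := hc.finite
  have : Fintype c := Fintype.ofFinite c
  refine ⟨Fintype.card (Equiv.Perm c), Fintype.card_pos, fun g hg v hv => ?_⟩
  have h1 : ((⟨g, hg⟩ : MulAction.stabilizer G c) ^ Fintype.card (Equiv.Perm c)) •
      (⟨v, hv⟩ : c) = ⟨v, hv⟩ := by
    have h2 : MulAction.toPermHom (MulAction.stabilizer G c) c
        ((⟨g, hg⟩ : MulAction.stabilizer G c) ^ Fintype.card (Equiv.Perm c)) = 1 := by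
      rw [map_pow, pow_card_eq_one]
    have h3 := congrArg (fun σ : Equiv.Perm c => σ ⟨v, hv⟩) h2
    exact h3
  exact congrArg Subtype.val h1

/-- The stabilizer of a cube contains the pointwise stabilizer with finite index. -/
theorem finiteIndex {c : Set V} (hc : X.IsCube c) {v : V} (hv : v ∈ c) :
    ((MulAction.stabilizer G v).subgroupOf (MulAction.stabilizer G c)).FiniteIndex := by
  have hfin : Finite c := hc.finite
  have h1 : (MulAction.stabilizer G v).subgroupOf (MulAction.stabilizer G c) =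
      MulAction.stabilizer (MulAction.stabilizer G c) (⟨v, hv⟩ : c) := by
    ext g
    rw [Subgroup.mem_subgroupOf, MulAction.mem_stabilizer_iff, MulAction.mem_stabilizer_iff]
    exact ⟨fun h => Subtype.ext h, fun h => congrArg Subtype.val h⟩
  rw [h1]
  exact ⟨MulAction.index_stabilizer (MulAction.stabilizer G c) (⟨v, hv⟩ : c) ▸
    (Set.ncard_pos (Set.toFinite _)).2 (MulAction.nonempty_orbit _) |>.ne'⟩

end Med

end Pool.Agent.CC
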