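import Pool.Agent.Lib.MP_8f66f0_al_CC.Geo.GraphAct
import Pool.Agent.Lib.MP_8f66f0_al_CC.Geo.SubAct

/-!
# Theorem CC, geometry: the graph form

The cubes of the median structure of a median graph `G` are cubes of `G`. So a statement about actions
without inversions on median structures of finite dimension, with conditions on the vertex
stabilizers, gives a statement about groups of automorphisms of median graphs which contain no
cube of dimension `N + 1`, with conditions on the stabilizers of the cubes.
-/

set_option autoImplicit false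

namespace Pool.Agent.CC

open scoped Pointwise

namespace Med

variable {V : Type} {X : Med V}

/-- The vertices of a cube. -/
theorem IsCube.exists_map {c : Set V} (hc : X.IsCube c) :
    ∃ (n : ℕ) (f : (Fin n → Bool) → V), Function.Injective f ∧
      (∀ (x : Fin n → Bool) (i : Fin n), ∃ h, X.Opp h (f x) (f (Function.update x i (!x i)))) ∧
      c = Set.range f := by
  classical
  obtain ⟨v, F0, hF0, hm, hcr, rfl⟩ := hc
  obtain ⟨F, rfl⟩ := hF0.exists_finset_coe
  have hv : ∀ h ∈ F, X.Mn v h := fun h hh => hm h hh
  have hcF : ∀ h ∈ F, ∀ k ∈ F, h ≠ k → Crs h k := fun h hh k hk => hcr h hh k hk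
  obtain ⟨n, hn⟩ : ∃ n, F.card = n := ⟨_, rfl⟩
  have e : Fin n ≃ F := (F.equivFinOfCardEq hn).symm
  have hS : ∀ x : Fin n → Bool,
      (Finset.univ.filter fun i => x i = true).image (fun i => (e i : Set V)) ⊆ F := by
    intro x k hk
    obtain ⟨i, -, rfl⟩ := Finset.mem_image.1 hk
    exact (e i).2
  choose f hf1 hf2 using fun x : Fin n → Bool => exists_flip' F hv hcF _ (hS x)
  have hmem : ∀ (x : Fin n → Bool) (i : Fin n), (e i : Set V) ∈
      (Finset.univ.filter fun i => x i = true).image (fun i => (e i : Set V)) ↔ x i = true := by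
    intro x i
    constructor
    · intro h
      obtain ⟨j, hj, hji⟩ := Finset.mem_image.1 h
      have : j = i := e.injective (Subtype.ext hji)
      subst this
      exact (Finset.mem_filter.1 hj).2
    · intro h
      exact Finset.mem_image.2 ⟨i, Finset.mem_filter.2 ⟨Finset.mem_univ i, h⟩, rfl⟩
  have hside : ∀ (x : Fin n → Bool) (i : Fin n), f x ∈ (e i : Set V) ↔ x i = false := by
    intro x i
    rcases Bool.eq_false_or_eq_true (x i) with h | h
    · have h1 := ((hf1 x _ (e i).2).1 ((hmem x i).2 h)).2.1
      rw [h]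
      exact ⟨fun h' => absurd h' h1, fun h' => absurd h' (by decide)⟩
    · have h1 := ((hf1 x _ (e i).2).2 (fun h' => by
        rw [(hmem x i).1 h'] at h
        exact absurd h (by decide))).2.1
      exact ⟨fun _ => h, fun _ => h1⟩
  have hrest : ∀ (x : Fin n → Bool), ∀ k ∈ X.H, k ∉ F → kᶜ ∉ F → (f x ∈ k ↔ v ∈ k) :=
    fun x k hk h1 h2 => hf2 x k hk (fun h => h1 (hS x h)) (fun h => h2 (hS x h))
  refine ⟨n, f, fun x y hxy => ?_, fun x i => ⟨e i, (hv _ (e i).2).1, ?_, ?_⟩, ?_⟩
  · funext i
    have h1 := hside x i
    have h2 := hside y i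
    rw [hxy] at h1
    have h3 := h1.symm.trans h2
    rcases Bool.eq_false_or_eq_true (x i) with h | h
    · rcases Bool.eq_false_or_eq_true (y i) with h' | h'
      · rw [h, h']
      · rw [h3.2 h'] at h
        exact absurd h (by decide)
    · rw [h, h3.1 h]
  · rw [hside, hside, Function.update_self]
    cases x i <;> decide
  · intro k hk h1 h2
    by_cases h3 : k ∈ F
    · obtain ⟨j, hj⟩ := e.surjective ⟨k, h3⟩
      have hj' : (e j : Set V) = k := by rw [hj]
      have hij : j ≠ i := by
        rintro rfl
        exact h1 hj'.symm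
      rw [← hj', hside, hside, Function.update_of_ne hij]
    · by_cases h4 : kᶜ ∈ F
      · obtain ⟨j, hj⟩ := e.surjective ⟨kᶜ, h4⟩
        have hj' : (e j : Set V) = kᶜ := by rw [hj]
        have hij : j ≠ i := by
          rintro rfl
          refine h2 ?_
          rw [hj', compl_compl]
        have h5 : ∀ w : V, w ∈ k ↔ ¬ w ∈ (e j : Set V) := by
          intro w
          rw [hj', Set.mem_compl_iff, not_not]
        rw [h5, h5, hside, hside, Function.update_of_ne hij]
      · rw [hrest x k hk h3 h4, hrest _ k hk h3 h4]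
  · apply Set.Subset.antisymm
    · intro w hw
      refine ⟨fun i => if w ∈ (e i : Set V) then false else true, X.sep _ _ fun k hk => ?_⟩
      have key : ∀ j, (f (fun i => if w ∈ (e i : Set V) then false else true) ∈ (e j : Set V) ↔
          w ∈ (e j : Set V)) := by
        intro j
        rw [hside]
        by_cases h : w ∈ (e j : Set V)
        · simp [h]
        · simp [h]
      by_cases h3 : k ∈ F
      · obtain ⟨j, hj⟩ := e.surjective ⟨k, h3⟩
        have hj' : (e j : Set V) = k := by rw [hj]
        rw [← hj']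
        exact key j
      · by_cases h4 : kᶜ ∈ F
        · obtain ⟨j, hj⟩ := e.surjective ⟨kᶜ, h4⟩
          have hj' : (e j : Set V) = kᶜ := by rw [hj]
          have h5 : ∀ u : V, u ∈ k ↔ ¬ u ∈ (e j : Set V) := by
            intro u
            rw [hj', Set.mem_compl_iff, not_not]
          rw [h5, h5 w]
          exact not_congr (key j)
        · rw [hrest _ k hk h3 h4]
          constructor
          · intro h
            by_contra h'
            exact h3 (hw k hk h h')
          · intro h
            by_contra h'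
            exact h4 (hw kᶜ (X.compl k hk) h' (fun h'' => h'' h))
    · rintro _ ⟨x, rfl⟩ k hk h1 h2
      by_contra h3
      by_cases h4 : kᶜ ∈ F
      · exact (hv _ h4).2.1 h1
      · exact h2 ((hrest x k hk h3 h4).2 h1)

end Med

namespace IsMedian

variable {V : Type} {G : SimpleGraph V} (hG : IsMedian G)

include hG

theorem isGCube {c : Set V} (hc : hG.toMed.IsCube c) : IsGCube G c := by
  obtain ⟨n, f, h1, h2, h3⟩ := hc.exists_map
  refine ⟨n, f, h1, fun x i => ?_, h3⟩
  obtain ⟨h, hh⟩ := h2 x i
  exact hG.adj_of_opp hh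

end IsMedian

/-- From actions without inversions on median structures to automorphisms of median graphs. -/
theorem graph_of_med {P : (G : Type) → [Group G] → Prop}
    (H : ∀ (Γ V : Type) [Group Γ] [MulAction Γ V] [Nonempty V] (X : Med V) (_ : Act Γ X) (N : ℕ),
      X.Dim N → (∀ v : V, P (MulAction.stabilizer Γ v)) → P Γ)
    {Γ V : Type} [Group Γ] [MulAction Γ V] (G : SimpleGraph V) (hG : IsMedian G)
    (hA : ∀ (g : Γ) (a b : V), G.Adj a b → G.Adj (g • a) (g • b)) {N : ℕ}
    (hN : NoCube G (N + 1)) (hc : ∀ c : Set V, IsGCube G c → P (MulAction.stabilizer Γ c)) :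
    P Γ := by
  have hI := hG.inv hA
  let := hI.act
  have hne : Nonempty hG.toMed.Cub :=
    ⟨⟨_, hG.toMed.isCube_single hG.conn.nonempty.some⟩⟩
  refine H Γ hG.toMed.Cub hG.toMed.sbd hI.actSub N (hG.dim hN).sbd fun c => ?_
  rw [hI.stab_cube c]
  exact hc c.1 (hG.isGCube c.2)

/-- Finite stabilizers of vertices give finite stabilizers of cubes. -/
theorem IsGCube.finite_stab {V : Type} {G : SimpleGraph V} {c : Set V} (hc : IsGCube G c)
    {Γ : Type} [Group Γ] [MulAction Γ V] (hf : ∀ v : V, Finite (MulAction.stabilizer Γ v)) :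
    Finite (MulAction.stabilizer Γ c) := by
  classical
  obtain ⟨n, f, -, -, rfl⟩ := hc
  have hv : f (fun _ => false) ∈ Set.range f := ⟨_, rfl⟩
  have h1 : (MulAction.stabilizer Γ (f fun _ => false)).subgroupOf
      (MulAction.stabilizer Γ (Set.range f)) = MulAction.stabilizer
        (MulAction.stabilizer Γ (Set.range f)) (⟨f fun _ => false, hv⟩ : Set.range f) := by
    ext g
    rw [Subgroup.mem_subgroupOf, MulAction.mem_stabilizer_iff, MulAction.mem_stabilizer_iff]
    exact ⟨fun h => Subtype.ext h, fun h => congrArg Subtype.val h⟩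
  have h2 : (MulAction.stabilizer (MulAction.stabilizer Γ (Set.range f))
      (⟨f fun _ => false, hv⟩ : Set.range f)).FiniteIndex :=
    ⟨MulAction.index_stabilizer (MulAction.stabilizer Γ (Set.range f))
      (⟨f fun _ => false, hv⟩ : Set.range f) ▸
      (Set.ncard_pos (Set.toFinite _)).2 (MulAction.nonempty_orbit _) |>.ne'⟩
  have h3 : Finite (MulAction.stabilizer (MulAction.stabilizer Γ (Set.range f))
      (⟨f fun _ => false, hv⟩ : Set.range f)) := by
    rw [← h1]
    have := hf (f fun _ => false)
    refine Finite.of_injective (fun g => (⟨g.1.1, g.2⟩ :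
      MulAction.stabilizer Γ (f fun _ => false))) ?_
    intro g g' h
    have h4 := congrArg (fun t : MulAction.stabilizer Γ (f fun _ => false) => (t : Γ)) h
    exact Subtype.ext (Subtype.ext h4)
  exact (Subgroup.finite_iff_finite_and_finiteIndex _).2 ⟨h3, h2⟩

/-- Torsion free groups which act properly. -/
theorem graph_free {P : (G : Type) → [Group G] → Prop}
    (H : ∀ (Γ V : Type) [Group Γ] [MulAction Γ V] [Nonempty V] (X : Med V) (_ : Act Γ X) (N : ℕ),
      X.Dim N → (∀ v : V, P (MulAction.stabilizer Γ v)) → P Γ)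
    (h1 : ∀ (G : Type) [Group G] [Subsingleton G], P G)
    {Γ V : Type} [Group Γ] [MulAction Γ V] (G : SimpleGraph V) (hG : IsMedian G)
    (hA : ∀ (g : Γ) (a b : V), G.Adj a b → G.Adj (g • a) (g • b)) {N : ℕ}
    (hN : NoCube G (N + 1)) (hf : ∀ v : V, Finite (MulAction.stabilizer Γ v))
    (ht : ∀ g : Γ, ∀ n : ℕ, 0 < n → g ^ n = 1 → g = 1) : P Γ := by
  refine graph_of_med H G hG hA hN fun c hc => ?_
  have h2 := hc.finite_stab hf
  have h3 : Subsingleton (MulAction.stabilizer Γ c) := by
    refine ⟨fun a b => ?_⟩
    have key : ∀ a : MulAction.stabilizer Γ c, a = 1 := by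
      intro a
      have h4 := pow_card_eq_one' (x := a)
      refine Subtype.ext (ht a.1 (Nat.card (MulAction.stabilizer Γ c)) Nat.card_pos ?_)
      exact congrArg Subtype.val h4
    rw [key a, key b]
  exact h1 _

end Pool.Agent.CC
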