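import Pool.Agent.Lib.MP_8f66f0_al_CC.Geo.Smul
import Pool.Agent.Lib.MP_8f66f0_al_Q.Defs

/-!
# Theorem CC, geometry: finite powers, with twisted actions

`Q` is finite. The half spaces of `Q → V` are the sets `cyl q h = {w | w q ∈ h}`. If `Γ` acts on `Q` and
`D` is a cocycle with values in `G` then `Γ` acts on `PowT D V = (Q → V)`.
-/

set_option autoImplicit false

namespace Pool.Agent.CC

open scoped Pointwise
open Pool.Agent.QT

/-- The half spaces of the power. -/
def cyl {Q V : Type} (q : Q) (h : Set V) : Set (Q → V) := {w | w q ∈ h}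

section Cyl

variable {Q V : Type}

theorem mem_cyl {q : Q} {h : Set V} {w : Q → V} : w ∈ cyl q h ↔ w q ∈ h := Iff.rfl

theorem cyl_compl (q : Q) (h : Set V) : (cyl q h)ᶜ = cyl q hᶜ := rfl

theorem cyl_inter (q : Q) (h k : Set V) : cyl q h ∩ cyl q k = cyl q (h ∩ k) := rfl

theorem cyl_ne {q : Q} {h : Set V} : (cyl q h).Nonempty ↔ h.Nonempty :=
  ⟨fun ⟨w, hw⟩ => ⟨w q, hw⟩, fun ⟨v, hv⟩ => ⟨fun _ => v, hv⟩⟩

theorem cyl_crs {q : Q} {h k : Set V} : Crs (cyl q h) (cyl q k) ↔ Crs h k := by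
  unfold Crs
  rw [cyl_compl, cyl_compl, cyl_inter, cyl_inter, cyl_inter, cyl_inter, cyl_ne, cyl_ne, cyl_ne,
    cyl_ne]

theorem cyl_inj_right {q : Q} {h k : Set V} (he : cyl q h = cyl q k) : h = k := by
  ext v
  have h1 : (fun _ : Q => v) ∈ cyl q h ↔ (fun _ : Q => v) ∈ cyl q k := by rw [he]
  exact h1

theorem cyl_inj {q r : Q} {h k : Set V} (h1 : h.Nonempty) (h2 : kᶜ.Nonempty)
    (he : cyl q h = cyl r k) : q = r ∧ h = k := by
  classical
  have hqr : q = r := by
    by_contra hne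
    obtain ⟨v, hv⟩ := h1
    obtain ⟨u, hu⟩ := h2
    have h3 : (fun s : Q => if s = q then v else u) ∈ cyl q h := by
      rw [mem_cyl, if_pos rfl]
      exact hv
    rw [he, mem_cyl, if_neg (Ne.symm hne)] at h3
    exact hu h3
  subst hqr
  exact ⟨rfl, cyl_inj_right he⟩

end Cyl

/-- The median structure on a finite power. -/
def Med.pow {V : Type} (X : Med V) (Q : Type) [Finite Q] : Med (Q → V) where
  H := {k | ∃ (q : Q) (h : Set V), h ∈ X.H ∧ k = cyl q h}
  compl := by
    rintro _ ⟨q, h, hh, rfl⟩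
    exact ⟨q, hᶜ, X.compl h hh, rfl⟩
  ne := by
    rintro _ ⟨q, h, hh, rfl⟩
    exact cyl_ne.2 (X.ne h hh)
  fin := by
    intro u v
    have h1 : (⋃ q : Q, cyl q '' {h | h ∈ X.H ∧ u q ∉ h ∧ v q ∈ h}).Finite :=
      Set.finite_iUnion fun q => (X.fin (u q) (v q)).image _
    refine h1.subset ?_
    rintro _ ⟨⟨q, h, hh, rfl⟩, h2, h3⟩
    exact Set.mem_iUnion.2 ⟨q, h, ⟨hh, h2, h3⟩, rfl⟩
  sep := by
    intro u v h
    funext q
    exact X.sep _ _ fun k hk => h (cyl q k) ⟨q, k, hk, rfl⟩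
  med := by
    intro u v w
    choose m hm using fun q => X.med (u q) (v q) (w q)
    refine ⟨m, ?_⟩
    rintro _ ⟨q, h, hh, rfl⟩
    exact hm q h hh

theorem Med.mem_pow {V : Type} {X : Med V} {Q : Type} [Finite Q] {k : Set (Q → V)} :
    k ∈ (X.pow Q).H ↔ ∃ (q : Q) (h : Set V), h ∈ X.H ∧ k = cyl q h := Iff.rfl

/-- The dimension of a power. -/
theorem Med.pow_dim {V : Type} {X : Med V} {N : ℕ} (hN : X.Dim N) (Q : Type) [Finite Q] :
    (X.pow Q).Dim (N * Nat.card Q) := by
  classical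
  intro F hF hc
  have := Fintype.ofFinite Q
  by_cases hQ : Nonempty Q
  · choose! q h hh he using hF
    have h1 : ∀ a ∈ F.image q, (F.filter fun x => q x = a).card ≤ N := by
      intro a _
      have h2 : ((F.filter fun x => q x = a).image h).card = (F.filter fun x => q x = a).card := by
        refine Finset.card_image_of_injOn fun x hx y hy hxy => ?_
        rw [Finset.mem_coe, Finset.mem_filter] at hx hy
        rw [he x hx.1, he y hy.1, hx.2, hy.2, hxy]
      rw [← h2]
      refine hN _ (fun k hk => ?_) fun k hk l hl hkl => ?_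
      · obtain ⟨x, hx, rfl⟩ := Finset.mem_image.1 hk
        exact hh x (Finset.mem_filter.1 hx).1
      · obtain ⟨x, hx, rfl⟩ := Finset.mem_image.1 hk
        obtain ⟨y, hy, rfl⟩ := Finset.mem_image.1 hl
        rw [Finset.mem_filter] at hx hy
        have h3 := hc x hx.1 y hy.1 fun h' => hkl (by rw [h'])
        rw [he x hx.1, he y hy.1, hx.2, hy.2] at h3
        exact cyl_crs.1 h3
    refine (Finset.card_le_mul_card_image F N h1).trans (Nat.mul_le_mul_left _ ?_)
    rw [Nat.card_eq_fintype_card]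
    exact Finset.card_le_univ _
  · have : F = ∅ := by
      refine Finset.eq_empty_of_forall_notMem fun x hx => ?_
      obtain ⟨q, _⟩ := hF x hx
      exact hQ ⟨q⟩
    rw [this, Finset.card_empty]
    exact Nat.zero_le _

theorem Med.Dim.pow {V : Type} {X : Med V} {N : ℕ} (hN : X.Dim N) (Q : Type) [Finite Q] :
    (X.pow Q).Dim (N * Nat.card Q) := Med.pow_dim hN Q

section Gen

variable {Λ G Q V : Type} [Group Λ] [Group G] [MulAction Λ Q] [MulAction G V]
  [MulAction Λ (Q → V)] (c : Λ → Q → G)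
  (hc : ∀ (g : Λ) (w : Q → V) (q : Q), (g • w) (g • q) = c g q • w q)

include hc

theorem smul_cyl_gen (g : Λ) (q : Q) (h : Set V) : g • cyl q h = cyl (g • q) (c g q • h) := by
  ext w
  rw [Set.mem_smul_set]
  constructor
  · rintro ⟨x, hx, rfl⟩
    rw [mem_cyl, hc]
    exact Set.smul_mem_smul_set hx
  · intro hw
    refine ⟨g⁻¹ • w, ?_, smul_inv_smul g w⟩
    have h1 : w (g • q) = c g q • (g⁻¹ • w) q := by
      rw [← hc, smul_inv_smul]
    rw [mem_cyl, h1, Set.smul_mem_smul_set_iff] at hw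
    exact hw

/-- The half spaces of the power are permuted. -/
theorem Med.Inv.pow [Finite Q] {X : Med V} (hG : X.Inv G) : (X.pow Q).Inv Λ := by
  rintro g _ ⟨q, h, hh, rfl⟩
  exact ⟨g • q, c g q • h, hG _ h hh, smul_cyl_gen c hc g q h⟩

/-- The action on the power is without inversions. -/
def Act.pow [Finite Q] {X : Med V} (A : Act G X) : Act Λ (X.pow Q) where
  smul_mem := Med.Inv.pow c hc A.inv
  pos := {k | ∃ (q : Q) (h : Set V), h ∈ A.pos ∧ k = cyl q h}
  pos_sub := by
    rintro _ ⟨q, h, hh, rfl⟩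
    exact ⟨q, h, A.pos_sub h hh, rfl⟩
  pos_smul := by
    rintro g _ ⟨q, h, hh, rfl⟩
    exact ⟨g • q, c g q • h, A.pos_smul _ h hh, smul_cyl_gen c hc g q h⟩
  pos_or := by
    rintro _ ⟨q, h, hh, rfl⟩
    have key : ∀ k ∈ X.H, (cyl q k ∈ {k | ∃ (q : Q) (h : Set V), h ∈ A.pos ∧ k = cyl q h}) ↔
        k ∈ A.pos := by
      intro k hk
      constructor
      · rintro ⟨r, l, hl, he⟩
        obtain ⟨_, h2⟩ := cyl_inj (X.ne k hk) (X.ne _ (X.compl l (A.pos_sub l hl))) he
        rw [h2]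
        exact hl
      · exact fun h' => ⟨q, k, h', rfl⟩
    have h1 := A.pos_or h hh
    rw [← key h hh, ← key hᶜ (X.compl h hh)] at h1
    exact h1

end Gen

/-- The power with the twisted action. -/
def PowT {Γ G Q : Type} [Group Γ] [Group G] [MulAction Γ Q] (_ : Coc Γ G Q) (V : Type) : Type :=
  Q → V

section Tw

variable {Γ G Q V : Type} [Group Γ] [Group G] [MulAction Γ Q] {D : Coc Γ G Q} [MulAction G V]

instance : MulAction Γ (PowT D V) where
  smul g x := fun q => D.c g (g⁻¹ • q) • x (g⁻¹ • q)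
  one_smul x := by
    funext q
    change D.c 1 ((1 : Γ)⁻¹ • q) • x ((1 : Γ)⁻¹ • q) = x q
    rw [inv_one, one_smul, D.c_one, one_smul]
  mul_smul g h x := by
    funext q
    change D.c (g * h) ((g * h)⁻¹ • q) • x ((g * h)⁻¹ • q) =
      D.c g (g⁻¹ • q) • D.c h (h⁻¹ • g⁻¹ • q) • x (h⁻¹ • g⁻¹ • q)
    rw [mul_inv_rev, mul_smul, D.c_mul, smul_inv_smul, mul_smul]

theorem powT_smul (g : Γ) (x : PowT D V) (q : Q) : (g • x) (g • q) = D.c g q • x q := by
  change D.c g (g⁻¹ • g • q) • x (g⁻¹ • g • q) = _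
  rw [inv_smul_smul]

/-- The half spaces of the twisted power are permuted. -/
theorem smul_cyl (g : Γ) (q : Q) (h : Set V) :
    g • (show Set (PowT D V) from cyl q h) = cyl (g • q) (D.c g q • h) :=
  letI : MulAction Γ (Q → V) := (inferInstance : MulAction Γ (PowT D V))
  smul_cyl_gen D.c (fun g w q => powT_smul (D := D) g w q) g q h

variable (D) in
/-- The median structure on the twisted power. -/
def Med.powT [Finite Q] (X : Med V) : Med (PowT D V) := X.pow Q

omit [MulAction G V] in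
theorem Med.powT_dim [Finite Q] {X : Med V} {N : ℕ} (hN : X.Dim N) :
    (X.powT D).Dim (N * Nat.card Q) := Med.pow_dim hN Q

theorem Med.Inv.powT [Finite Q] {X : Med V} (hG : X.Inv G) : (X.powT D).Inv Γ := by
  rintro g _ ⟨q, h, hh, rfl⟩
  exact ⟨g • q, D.c g q • h, hG _ h hh, smul_cyl g q h⟩

variable (D) in
/-- The action on the twisted power is without inversions. -/
def Act.powT [Finite Q] {X : Med V} (A : Act G X) : Act Γ (X.powT D) :=
  letI : MulAction Γ (Q → V) := (inferInstance : MulAction Γ (PowT D V))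
  A.pow D.c fun g w q => powT_smul (D := D) g w q

end Tw

end Pool.Agent.CC
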