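import Pool.Agent.Lib.MP_8f66f0_al_CC.Geo.Smul
import Pool.Agent.Lib.MP_8f66f0_al_Kuhn.Fst

/-!
# Theorem CC, geometry: the partial order of the cubes and its contraction
-/

set_option autoImplicit false

namespace Pool.Agent.CC

open scoped Pointwise
open Pool.Agent.Kuhn.Ord

/-- `h` cuts `c`. -/
def Cut {V : Type} (h c : Set V) : Prop := (h ∩ c).Nonempty ∧ (hᶜ ∩ c).Nonempty

theorem Cut.compl {V : Type} {h c : Set V} (H : Cut h c) : Cut hᶜ c :=
  ⟨H.2, by rw [compl_compl]; exact H.1⟩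

theorem Cut.mono {V : Type} {h c c' : Set V} (hc : c ⊆ c') (H : Cut h c) : Cut h c' :=
  ⟨H.1.mono (Set.inter_subset_inter_right _ hc), H.2.mono (Set.inter_subset_inter_right _ hc)⟩

namespace Med

variable {V : Type} (X : Med V)

/-- A cube, given by the set of its vertices. -/
structure IsQb (c : Set V) : Prop where
  ne : c.Nonempty
  conv : ∀ v, (∀ h ∈ X.H, c ⊆ h → v ∈ h) → v ∈ c
  crs : ∀ h ∈ X.H, ∀ k ∈ X.H, Cut h c → Cut k c → k ≠ h → k ≠ hᶜ → Crs h k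

/-! ### levels of half spaces -/

/-- The number of half spaces which contain `h` and not `b`. -/
noncomputable def lv (b : V) (h : Set V) : ℕ := {k | k ∈ X.H ∧ h ⊆ k ∧ b ∉ k}.ncard

theorem lv_fin (b : V) {h : Set V} (hh : h ∈ X.H) : {k | k ∈ X.H ∧ h ⊆ k ∧ b ∉ k}.Finite := by
  obtain ⟨v, hv⟩ := X.ne h hh
  exact (X.fin b v).subset fun k hk => ⟨hk.1, hk.2.2, hk.2.1 hv⟩

theorem lv_pos {b : V} {h : Set V} (hh : h ∈ X.H) (hb : b ∉ h) : 0 < X.lv b h :=
  (Set.ncard_pos (X.lv_fin b hh)).2 ⟨h, hh, subset_rfl, hb⟩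

theorem lv_lt {b : V} {h k : Set V} (hh : h ∈ X.H) (hhk : h ⊆ k) (hne : h ≠ k) (hb : b ∉ k) :
    X.lv b k < X.lv b h := by
  refine Set.ncard_lt_ncard ?_ (X.lv_fin b hh)
  rw [Set.ssubset_iff_of_subset]
  · exact ⟨h, ⟨hh, subset_rfl, fun h' => hb (hhk h')⟩, fun h' => hne (hhk.antisymm h'.2.1)⟩
  · exact fun j hj => ⟨hj.1, hhk.trans hj.2.1, hj.2.2⟩

/-- There is a vertex which is contained in the half spaces of an upward closed family. -/
theorem exists_up (b : V) (U : Set V → Prop)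
    (hU : ∀ h ∈ X.H, ∀ k ∈ X.H, h ⊆ k → b ∉ k → U h → U k) : ∀ v : V,
    ∃ x, ∀ h ∈ X.H, b ∉ h → (x ∈ h ↔ v ∈ h ∧ U h) := by
  have key : ∀ (n : ℕ) (v : V), {h | h ∈ X.H ∧ b ∉ h ∧ v ∈ h ∧ ¬ U h}.ncard = n →
      ∃ x, ∀ h ∈ X.H, b ∉ h → (x ∈ h ↔ v ∈ h ∧ U h) := by
    intro n
    induction n using Nat.strong_induction_on with
    | _ n ih =>
      intro v hn
      have hf : {h | h ∈ X.H ∧ b ∉ h ∧ v ∈ h ∧ ¬ U h}.Finite :=
        (X.fin b v).subset fun h hh => ⟨hh.1, hh.2.1, hh.2.2.1⟩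
      by_cases he : {h | h ∈ X.H ∧ b ∉ h ∧ v ∈ h ∧ ¬ U h}.Nonempty
      · obtain ⟨h, hh, hmin⟩ := hf.exists_minimal he
        have hm : X.Mn v h := by
          refine ⟨hh.1, hh.2.2.1, fun k hk hvk hkh => ?_⟩
          have hkU : ¬ U k := fun h' => hh.2.2.2 (hU k hk h hh.1 hkh hh.2.1 h')
          exact hkh.antisymm (hmin ⟨hk, fun h' => hh.2.1 (hkh h'), hvk, hkU⟩ hkh)
        obtain ⟨w, hw, ho⟩ := hm.exists_opp
        have hlt : {k | k ∈ X.H ∧ b ∉ k ∧ w ∈ k ∧ ¬ U k}.ncard < n := by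
          rw [← hn]
          refine Set.ncard_lt_ncard ?_ hf
          rw [Set.ssubset_iff_of_subset]
          · exact ⟨h, hh, fun h' => hw h'.2.2.1⟩
          · intro k hk
            refine ⟨hk.1, hk.2.1, ?_, hk.2.2.2⟩
            refine (ho.2.2 k hk.1 (fun e => hw (e ▸ hk.2.2.1)) fun e => ?_).2 hk.2.2.1
            exact hk.2.1 (by rw [e]; exact hh.2.1)
        obtain ⟨x, hx⟩ := ih _ hlt w rfl
        refine ⟨x, fun k hk hb => ?_⟩
        rw [hx k hk hb]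
        by_cases hkh : k = h
        · subst hkh
          exact ⟨fun h' => absurd h'.1 hw, fun h' => absurd h'.2 hh.2.2.2⟩
        · rw [ho.2.2 k hk hkh fun e => hb (by rw [e]; exact hh.2.1)]
      · refine ⟨v, fun h hh hb => ⟨fun hv => ⟨hv, ?_⟩, fun h' => h'.1⟩⟩
        by_contra hU'
        exact he ⟨h, hh, hb, hv, hU'⟩
  exact fun v => key _ v rfl

/-! ### the contraction -/

/-- The contraction. -/
def RI (b : V) (n m : ℕ) (c : Set V) : Set V :=
  {x | ∀ h ∈ X.H, b ∉ h → (x ∈ h → X.lv b h ≤ m ∧ (h ∩ c).Nonempty) ∧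
    (X.lv b h ≤ n → c ⊆ h → x ∈ h)}

theorem RI_mono {b : V} {n n' m m' : ℕ} {c c' : Set V} (hn : n' ≤ n) (hm : m ≤ m')
    (hc : c ⊆ c') : X.RI b n m c ⊆ X.RI b n' m' c' := fun x hx h hh hb =>
  ⟨fun hxh => ⟨((hx h hh hb).1 hxh).1.trans hm,
    ((hx h hh hb).1 hxh).2.mono (Set.inter_subset_inter_right _ hc)⟩,
    fun hl hch => (hx h hh hb).2 (hl.trans hn) (hc.trans hch)⟩

theorem RI_ne {b : V} {n m : ℕ} (hnm : n ≤ m) {c : Set V} (hc : c.Nonempty) :
    (X.RI b n m c).Nonempty := by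
  obtain ⟨v, hv⟩ := hc
  have hU : ∀ h ∈ X.H, ∀ k ∈ X.H, h ⊆ k → b ∉ k → X.lv b h ≤ n → X.lv b k ≤ n := by
    intro h hh k hk hhk hb hl
    by_cases e : h = k
    · rw [← e]
      exact hl
    · exact (X.lv_lt hh hhk e hb).le.trans hl
  obtain ⟨x, hx⟩ := X.exists_up b (fun h => X.lv b h ≤ n) hU v
  refine ⟨x, X.RI_mono le_rfl hnm subset_rfl fun h hh hb => ⟨fun hxh => ?_, fun hl hch => ?_⟩⟩
  · have := (hx h hh hb).1 hxh
    exact ⟨this.2, v, this.1, hv⟩
  · exact (hx h hh hb).2 ⟨hch hv, hl⟩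

theorem RI_key {b : V} {n m : ℕ} {c h : Set V} (hh : h ∈ X.H) (hb : b ∉ h)
    (H : Cut h (X.RI b n m c)) :
    X.lv b h ≤ m ∧ (h ∩ c).Nonempty ∧ (c ⊆ h → n < X.lv b h) := by
  obtain ⟨⟨x, hx, hx'⟩, ⟨y, hy, hy'⟩⟩ := H
  have h3 := (hx' h hh hb).1 hx
  refine ⟨h3.1, h3.2, fun hch => ?_⟩
  by_contra hl
  exact hy ((hy' h hh hb).2 (not_lt.1 hl) hch)

/-- The case that the cube is contained in `h`. -/
theorem RI_crs1 {b : V} {n m : ℕ} (h2 : m ≤ n + 1) {c h k : Set V} (hh : h ∈ X.H) (hk : k ∈ X.H)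
    (hbh : b ∉ h) (hbk : b ∉ k) (ch : Cut h (X.RI b n m c)) (ck : Cut k (X.RI b n m c))
    (hne : k ≠ h) (hch : c ⊆ h) : Crs h k := by
  obtain ⟨a1, a2, a3⟩ := X.RI_key hh hbh ch
  obtain ⟨b1, b2, b3⟩ := X.RI_key hk hbk ck
  have a4 := a3 hch
  obtain ⟨x, hx⟩ := b2
  refine ⟨⟨x, hch hx.2, hx.1⟩, ?_, ?_, ⟨b, hbh, hbk⟩⟩
  · by_contra he
    have hs : h ⊆ k := fun x hx => by
      by_contra h'
      exact he ⟨x, hx, h'⟩
    have h5 := X.lv_lt hh hs hne.symm hbk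
    have h6 := b3 (hch.trans hs)
    omega
  · by_contra he
    have hs : k ⊆ h := fun x hx => by
      by_contra h'
      exact he ⟨x, h', hx⟩
    have h5 := X.lv_lt hk hs hne hbh
    omega

theorem RI_crs {b : V} {n m : ℕ} (h2 : m ≤ n + 1) {c h k : Set V} (hc : X.IsQb c)
    (hh : h ∈ X.H) (hk : k ∈ X.H) (hbh : b ∉ h) (hbk : b ∉ k) (ch : Cut h (X.RI b n m c))
    (ck : Cut k (X.RI b n m c)) (hne : k ≠ h) : Crs h k := by
  by_cases hch : c ⊆ h
  · exact X.RI_crs1 h2 hh hk hbh hbk ch ck hne hch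
  · by_cases hck : c ⊆ k
    · exact (X.RI_crs1 h2 hk hh hbk hbh ck ch hne.symm hck).symm
    · obtain ⟨a1, a2, a3⟩ := X.RI_key hh hbh ch
      obtain ⟨b1, b2, b3⟩ := X.RI_key hk hbk ck
      obtain ⟨x, hx, hx'⟩ := Set.not_subset.1 hch
      obtain ⟨y, hy, hy'⟩ := Set.not_subset.1 hck
      refine hc.crs h hh k hk ⟨a2, x, hx', hx⟩ ⟨b2, y, hy', hy⟩ hne fun e => hbk ?_
      rw [e]
      exact hbh

theorem isQb_RI {b : V} {n m : ℕ} (h1 : n ≤ m) (h2 : m ≤ n + 1) {c : Set V}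
    (hc : X.IsQb c) : X.IsQb (X.RI b n m c) where
  ne := X.RI_ne h1 hc.ne
  conv v hv := by
    intro h hh hb
    constructor
    · intro hvh
      by_contra hcon
      exact hv hᶜ (X.compl h hh) (fun x hx hxh => hcon ((hx h hh hb).1 hxh)) hvh
    · intro hl hch
      exact hv h hh fun x hx => (hx h hh hb).2 hl hch
  crs h hh k hk ch ck hne hnc := by
    by_cases hbh : b ∈ h
    · by_cases hbk : b ∈ k
      · have h3 := X.RI_crs h2 hc (X.compl h hh) (X.compl k hk) (fun h' => h' hbh)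
          (fun h' => h' hbk) ch.compl ck.compl (fun e => hne (compl_injective e))
        have h4 := h3.compl_left.compl_right
        rwa [compl_compl, compl_compl] at h4
      · have h3 := X.RI_crs h2 hc (X.compl h hh) hk (fun h' => h' hbh) hbk ch.compl ck hnc
        have h4 := h3.compl_left
        rwa [compl_compl] at h4
    · by_cases hbk : b ∈ k
      · have h3 := X.RI_crs h2 hc hh (X.compl k hk) hbh (fun h' => h' hbk) ch ck.compl
          (fun e => hnc (by rw [← e, compl_compl]))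
        have h4 := h3.compl_right
        rwa [compl_compl] at h4
      · exact X.RI_crs h2 hc hh hk hbh hbk ch ck hne

theorem RI_zero (b : V) (c : Set V) : X.RI b 0 0 c = {b} := by
  ext x
  rw [Set.mem_singleton_iff]
  constructor
  · intro hx
    have h1 : ∀ h ∈ X.H, b ∉ h → x ∉ h := fun h hh hb hxh => by
      have h2 := ((hx h hh hb).1 hxh).1
      have h3 := X.lv_pos hh hb
      omega
    refine X.sep x b fun h hh => ⟨fun hxh => ?_, fun hbh => ?_⟩
    · by_contra hb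
      exact h1 h hh hb hxh
    · by_contra hxh
      exact h1 hᶜ (X.compl h hh) (fun h' => h' hbh) hxh
  · rintro rfl h hh hb
    exact ⟨fun h' => absurd h' hb, fun hl _ => absurd (X.lv_pos hh hb) (by omega)⟩

theorem isQb_singleton (b : V) : X.IsQb {b} where
  ne := ⟨b, rfl⟩
  conv v hv := by
    rw [Set.mem_singleton_iff]
    refine X.sep v b fun h hh => ⟨fun hvh => ?_, fun hbh => ?_⟩
    · by_contra hb
      exact hv hᶜ (X.compl h hh) (Set.singleton_subset_iff.2 hb) hvh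
    · exact hv h hh (Set.singleton_subset_iff.2 hbh)
  crs h hh k hk ch _ _ _ := by
    obtain ⟨⟨x, hx, hx'⟩, ⟨y, hy, hy'⟩⟩ := ch
    rw [Set.mem_singleton_iff] at hx' hy'
    subst hx' hy'
    exact absurd hx hy

/-! ### the half spaces which cut a cube -/

/-- The half spaces which cut `c` and do not contain `b`. -/
def cb (b : V) (c : Set V) : Set (Set V) := {h | h ∈ X.H ∧ b ∉ h ∧ Cut h c}

variable {X}

theorem cb_card {N : ℕ} (hN : X.Dim N) {b : V} {c : Set V} (hc : X.IsQb c)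
    (F : Finset (Set V)) (hF : ∀ h ∈ F, h ∈ X.cb b c) : F.card ≤ N := by
  refine hN F (fun h hh => (hF h hh).1) fun h hh k hk hne => ?_
  refine hc.crs h (hF h hh).1 k (hF k hk).1 (hF h hh).2.2 (hF k hk).2.2 hne.symm fun e => ?_
  refine (hF k hk).2.1 ?_
  rw [e]
  exact (hF h hh).2.1

theorem cb_fin {N : ℕ} (hN : X.Dim N) (b : V) {c : Set V} (hc : X.IsQb c) :
    (X.cb b c).Finite := by
  by_contra hinf
  obtain ⟨F, hF, hcard⟩ := Set.Infinite.exists_subset_card_eq hinf (N + 1)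
  have := cb_card hN hc F fun h hh => hF hh
  omega

theorem cb_ncard {N : ℕ} (hN : X.Dim N) (b : V) {c : Set V} (hc : X.IsQb c) :
    (X.cb b c).ncard ≤ N := by
  rw [Set.ncard_eq_toFinset_card _ (cb_fin hN b hc)]
  exact cb_card hN hc _ fun h hh => (Set.Finite.mem_toFinset _).1 hh

theorem cb_lt {N : ℕ} (hN : X.Dim N) (b : V) {c c' : Set V} (hc : X.IsQb c)
    (hc' : X.IsQb c') (h1 : c ⊆ c') (h2 : c ≠ c') : (X.cb b c).ncard < (X.cb b c').ncard := by
  refine Set.ncard_lt_ncard ?_ (cb_fin hN b hc')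
  have hsub : X.cb b c ⊆ X.cb b c' := fun h hh => ⟨hh.1, hh.2.1, hh.2.2.mono h1⟩
  rw [Set.ssubset_iff_of_subset hsub]
  obtain ⟨x, hx, hx'⟩ : ∃ x ∈ c', x ∉ c := by
    by_contra hcon
    push Not at hcon
    exact h2 (h1.antisymm hcon)
  obtain ⟨A, hA, hcA, hxA⟩ : ∃ A ∈ X.H, c ⊆ A ∧ x ∉ A := by
    by_contra hcon
    push Not at hcon
    exact hx' (hc.conv x hcon)
  obtain ⟨v, hv⟩ := hc.ne
  have hcut : Cut A c' := ⟨⟨v, hcA hv, h1 hv⟩, ⟨x, hxA, hx⟩⟩
  by_cases hb : b ∈ A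
  · refine ⟨Aᶜ, ⟨X.compl A hA, fun h' => h' hb, hcut.compl⟩, fun h' => ?_⟩
    obtain ⟨y, hy, hy'⟩ := h'.2.2.1
    exact hy (hcA hy')
  · refine ⟨A, ⟨hA, hb, hcut⟩, fun h' => ?_⟩
    obtain ⟨y, hy, hy'⟩ := h'.2.2.2
    exact hy (hcA hy')

theorem meet_fin {N : ℕ} (hN : X.Dim N) (b : V) {c : Set V} (hc : X.IsQb c) :
    {h | h ∈ X.H ∧ b ∉ h ∧ (h ∩ c).Nonempty}.Finite := by
  obtain ⟨v, hv⟩ := hc.ne
  refine ((X.fin b v).union (cb_fin hN b hc)).subset fun h hh => ?_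
  by_cases hvh : v ∈ h
  · exact Or.inl ⟨hh.1, hh.2.1, hvh⟩
  · exact Or.inr ⟨hh.1, hh.2.1, hh.2.2, v, hvh, hv⟩

/-- The contraction is eventually the identity. -/
theorem RI_ev {N : ℕ} (hN : X.Dim N) (b : V) {c : Set V} (hc : X.IsQb c) :
    ∃ n₀, ∀ n m, n₀ ≤ n → n₀ ≤ m → X.RI b n m c = c := by
  obtain ⟨n₀, hn₀⟩ : ∃ n₀, ∀ h ∈ X.H, b ∉ h → (h ∩ c).Nonempty → X.lv b h ≤ n₀ := by
    obtain ⟨M, hM⟩ := ((meet_fin hN b hc).image fun h => X.lv b h).bddAbove
    exact ⟨M, fun h hh hb hne => hM ⟨h, ⟨hh, hb, hne⟩, rfl⟩⟩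
  refine ⟨n₀, fun n m hn hm => ?_⟩
  obtain ⟨v, hv⟩ := hc.ne
  refine Set.Subset.antisymm (fun x hx => hc.conv x fun A hA hcA => ?_) fun x hx h hh hb => ?_
  · by_cases hb : b ∈ A
    · by_contra hxA
      obtain ⟨y, hy, hy'⟩ := ((hx Aᶜ (X.compl A hA) fun h' => h' hb).1 hxA).2
      exact hy (hcA hy')
    · exact (hx A hA hb).2 ((hn₀ A hA hb ⟨v, hcA hv, hv⟩).trans hn) hcA
  · exact ⟨fun hxh => ⟨(hn₀ h hh hb ⟨x, hxh, hx⟩).trans hm, x, hxh, hx⟩, fun _ hch => hch hx⟩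

variable (X)

/-- The cubes. -/
def Qb : Type := {c : Set V // X.IsQb c}

instance : PartialOrder X.Qb := inferInstanceAs (PartialOrder {c : Set V // X.IsQb c})

/-- The contraction of the partial order of the cubes. -/
def contr (b : V) {N : ℕ} (hN : X.Dim N) : Contr X.Qb where
  r i c := ⟨X.RI b (i / 2) ((i + 1) / 2) c.1, X.isQb_RI (by omega) (by omega) c.2⟩
  mono _ _ _ h := X.RI_mono le_rfl le_rfl h
  b := ⟨{b}, X.isQb_singleton b⟩
  zero c := Subtype.ext (X.RI_zero b c.1)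
  step i := by
    rcases Nat.even_or_odd' i with ⟨j, rfl | rfl⟩
    · exact Or.inl fun c => X.RI_mono (by omega) (by omega) subset_rfl
    · exact Or.inr fun c => X.RI_mono (by omega) (by omega) subset_rfl
  ev c := by
    obtain ⟨n₀, hn₀⟩ := RI_ev hN b c.2
    exact ⟨2 * n₀, fun m hm => Subtype.ext (hn₀ _ _ (by omega) (by omega))⟩

theorem length_qb [Nonempty V] {N : ℕ} (hN : X.Dim N) (l : List X.Qb)
    (h : l.Pairwise (· < ·)) : l.length ≤ N + 1 := by
  obtain ⟨b⟩ := ‹Nonempty V›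
  let ht : X.Qb → ℕ := fun c => (X.cb b c.1).ncard
  have h0 : ∀ c c' : X.Qb, c < c' → ht c < ht c' := fun c c' hcc =>
    cb_lt hN b c.2 c'.2 hcc.le fun e => hcc.ne (Subtype.ext e)
  have h1 : (l.map ht).Pairwise (· < ·) := by
    rw [List.pairwise_map]
    exact h.imp fun {a b} hab => h0 _ _ hab
  have h2 : (l.map ht).Nodup := h1.imp fun {a b} hab => hab.ne
  have h3 : (l.map ht).toFinset ⊆ Finset.range (N + 1) := by
    intro s hs
    rw [List.mem_toFinset, List.mem_map] at hs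
    obtain ⟨x, _, rfl⟩ := hs
    rw [Finset.mem_range]
    exact Nat.lt_succ_of_le (cb_ncard hN b x.2)
  have h4 := Finset.card_le_card h3
  rwa [List.toFinset_card_of_nodup h2, List.length_map, Finset.card_range] at h4

section Act

variable {G : Type} [Group G] [MulAction G V]

theorem Cut_smul (g : G) {h c : Set V} (H : Cut h c) : Cut (g • h) (g • c) := by
  obtain ⟨⟨x, hx, hx'⟩, ⟨y, hy, hy'⟩⟩ := H
  refine ⟨⟨g • x, Set.smul_mem_smul_set hx, Set.smul_mem_smul_set hx'⟩,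
    ⟨g • y, ?_, Set.smul_mem_smul_set hy'⟩⟩
  rw [← Set.smul_set_compl]
  exact Set.smul_mem_smul_set hy

variable {X}

theorem isQb_smul (hG : X.Inv G) (g : G) {c : Set V} (hc : X.IsQb c) :
    X.IsQb (g • c) where
  ne := hc.ne.image _
  conv v hv := by
    rw [Set.mem_smul_set_iff_inv_smul_mem]
    refine hc.conv _ fun h hh hch => ?_
    rw [← Set.mem_smul_set_iff_inv_smul_mem]
    exact hv _ (hG g h hh) (Set.smul_set_mono hch)
  crs h hh k hk ch ck hne hnc := by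
    have h1 : ∀ h : Set V, Cut h (g • c) → Cut (g⁻¹ • h) c := fun h H => by
      have h2 := Cut_smul g⁻¹ H
      rwa [inv_smul_smul] at h2
    have h3 := hc.crs _ (hG g⁻¹ h hh) _ (hG g⁻¹ k hk) (h1 h ch) (h1 k ck)
      (fun e => hne (smul_left_cancel _ e)) fun e => hnc (smul_left_cancel g⁻¹ (by
        rw [e, Set.smul_set_compl]))
    have h4 := h3.smul g
    rwa [smul_inv_smul, smul_inv_smul] at h4

/-- The action on the cubes. -/
def cdat (A : Act G X) : Dat G X.Qb where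
  a := {
    toFun g := ⟨fun c => ⟨g • c.1, isQb_smul A.inv g c.2⟩,
      fun c => ⟨g⁻¹ • c.1, isQb_smul A.inv g⁻¹ c.2⟩,
      fun c => Subtype.ext (inv_smul_smul g c.1), fun c => Subtype.ext (smul_inv_smul g c.1)⟩
    map_one' := Equiv.ext fun c => Subtype.ext (one_smul G c.1)
    map_mul' g h := Equiv.ext fun c => Subtype.ext (mul_smul g h c.1) }
  mono g _ _ h := Set.smul_set_mono h

/-- The vertex of a cube which is on the positive side of all its walls. -/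
theorem exists_top (A : Act G X) {N : ℕ} (hN : X.Dim N) {c : Set V} (hc : X.IsQb c) :
    ∃ v ∈ c, ∀ h ∈ A.pos, Cut h c → v ∈ h := by
  have key : ∀ (n : ℕ) (v : V), v ∈ c → {h | h ∈ A.pos ∧ Cut h c ∧ v ∉ h}.ncard = n →
      ∃ v ∈ c, ∀ h ∈ A.pos, Cut h c → v ∈ h := by
    intro n
    induction n using Nat.strong_induction_on with
    | _ n ih =>
      intro v hv hn
      have hf : {h | h ∈ A.pos ∧ Cut h c ∧ v ∉ h}.Finite :=
        (cb_fin hN v hc).subset fun h hh => ⟨A.pos_sub h hh.1, hh.2.2, hh.2.1⟩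
      by_cases he : {h | h ∈ A.pos ∧ Cut h c ∧ v ∉ h}.Nonempty
      · obtain ⟨h, hh⟩ := he
        have hH := A.pos_sub h hh.1
        have hm : X.Mn v hᶜ := by
          refine ⟨X.compl h hH, hh.2.2, fun k hk hvk hkh => ?_⟩
          by_contra hne
          obtain ⟨x, hx, hx'⟩ := hh.2.1.1
          have hck : Cut k c := ⟨⟨v, hvk, hv⟩, ⟨x, fun h' => hkh h' hx, hx'⟩⟩
          have hcrs := hc.crs h hH k hk hh.2.1 hck (fun e => hh.2.2 (e ▸ hvk)) hne
          obtain ⟨y, hy, hy'⟩ := hcrs.1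
          exact hkh hy' hy
        obtain ⟨w, hw, ho⟩ := hm.exists_opp
        rw [opp_compl_iff] at ho
        have hwc : w ∈ c := by
          refine hc.conv w fun B hB hcB => ?_
          refine (ho.2.2 B hB (fun e => ?_) fun e => ?_).1 (hcB hv)
          · exact hh.2.2 (e ▸ hcB hv)
          · obtain ⟨x, hx, hx'⟩ := hh.2.1.1
            have := hcB hx'
            rw [e] at this
            exact this hx
        refine ih _ ?_ w hwc rfl
        rw [← hn]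
        refine Set.ncard_lt_ncard ?_ hf
        rw [Set.ssubset_iff_of_subset]
        · exact ⟨h, hh, fun h' => hw h'.2.2⟩
        · intro k hk
          refine ⟨hk.1, hk.2.1, fun hvk => hk.2.2 ?_⟩
          refine (ho.2.2 k (A.pos_sub k hk.1) (fun e => hh.2.2 (e ▸ hvk)) fun e => ?_).1 hvk
          exact ((A.pos_or h hH).1 hh.1) (e ▸ hk.1)
      · refine ⟨v, hv, fun h hh hch => ?_⟩
        by_contra hvh
        exact he ⟨h, hh, hch, hvh⟩
  obtain ⟨v, hv⟩ := hc.ne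
  exact key _ v hv rfl

theorem top_unique (A : Act G X) {c : Set V} {v w : V} (hv : v ∈ c) (hw : w ∈ c)
    (hv' : ∀ h ∈ A.pos, Cut h c → v ∈ h) (hw' : ∀ h ∈ A.pos, Cut h c → w ∈ h) : v = w := by
  refine X.sep v w fun h hh => ?_
  by_cases hcut : Cut h c
  · by_cases hp : h ∈ A.pos
    · exact iff_of_true (hv' h hp hcut) (hw' h hp hcut)
    · have hp' : hᶜ ∈ A.pos := by
        by_contra hcon
        exact hp ((A.pos_or h hh).2 hcon)
      exact iff_of_false (hv' hᶜ hp' hcut.compl) (hw' hᶜ hp' hcut.compl)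
  · by_cases h1 : (h ∩ c).Nonempty
    · have h2 : ¬ (hᶜ ∩ c).Nonempty := fun h' => hcut ⟨h1, h'⟩
      refine iff_of_true ?_ ?_
      · by_contra h'
        exact h2 ⟨v, h', hv⟩
      · by_contra h'
        exact h2 ⟨w, h', hw⟩
    · exact iff_of_false (fun h' => h1 ⟨v, h', hv⟩) fun h' => h1 ⟨w, h', hw⟩

/-- The elements which map a cube to itself fix a vertex of the cube. -/
theorem qb_fix (A : Act G X) {N : ℕ} (hN : X.Dim N) {c : Set V} (hc : X.IsQb c) :
    ∃ v ∈ c, ∀ g : G, g • c = c → g • v = v := by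
  obtain ⟨v, hv, hv'⟩ := exists_top A hN hc
  refine ⟨v, hv, fun g hg => ?_⟩
  have h1 : g • v ∈ c := by
    have h2 : g • v ∈ g • c := Set.smul_mem_smul_set hv
    rwa [hg] at h2
  refine top_unique A h1 hv (fun h hh hcut => ?_) hv'
  have h3 : g⁻¹ • c = c := by
    conv_lhs => rw [← hg]
    exact inv_smul_smul g c
  have h4 := Cut_smul g⁻¹ hcut
  rw [h3] at h4
  have h5 := hv' _ (A.pos_smul g⁻¹ h hh) h4
  rwa [Set.mem_inv_smul_set_iff] at h5

end Act

end Med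

/-- A group which acts without inversions on a finite dimensional CAT(0) cube complex is in `SS` if all
subgroups which fix a vertex are in `SS`. -/
theorem ss_of_med {G V : Type} [Group G] [MulAction G V] [Nonempty V] {X : Med V} (A : Act G X)
    {N : ℕ} (hN : X.Dim N)
    (h : ∀ (C : Subgroup G) (v : V), (∀ g ∈ C, g • v = v) → Hier.SS C) : Hier.SS G := by
  refine ss_of_dat (Med.cdat A) (X.contr (Classical.arbitrary V) hN) _ (X.length_qb hN)
    fun C ⟨c, hc⟩ => ?_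
  obtain ⟨v, -, hv⟩ := Med.qb_fix A hN c.2
  exact h C v fun g hg => hv g (congrArg Subtype.val (hc g hg))

end Pool.Agent.CC
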