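import Pool.Agent.Lib.MP_8f66f0_al_CC.Geo.SubAct
import Pool.Agent.Lib.MP_8f66f0_al_CC.Geo.Cub

/-!
# Theorem CC, geometry: the two definitions of cubes agree in finite dimension
-/

set_option autoImplicit false

namespace Pool.Agent.CC

open scoped Pointwise

namespace Med

variable {V : Type} {X : Med V}

theorem IsCube.isQb {c : Set V} (hc : X.IsCube c) : X.IsQb c where
  ne := hc.nonempty
  conv := fun _ hv => hc.mem_iff.2 hv
  crs := by
    intro h hh k hk ch ck hne hnc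
    refine (hc.cross hk hh ?_ ?_ ?_ ?_ hne hnc).symm
    · rw [Set.inter_comm]; exact ck.1
    · rw [Set.inter_comm]; exact ck.2
    · rw [Set.inter_comm]; exact ch.1
    · rw [Set.inter_comm]; exact ch.2

theorem IsQb.isCube {N : ℕ} (hN : X.Dim N) {c : Set V} (hc : X.IsQb c) : X.IsCube c := by
  classical
  obtain ⟨v, hv⟩ := hc.ne
  have hcr : ∀ h ∈ {h | h ∈ X.H ∧ v ∈ h ∧ Cut h c}, ∀ k ∈ {h | h ∈ X.H ∧ v ∈ h ∧ Cut h c},
      h ≠ k → Crs h k := by
    rintro h ⟨hh, hvh, ch⟩ k ⟨hk, hvk, ck⟩ hne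
    refine hc.crs h hh k hk ch ck hne.symm ?_
    rintro rfl
    exact hvk hvh
  have hfin : {h | h ∈ X.H ∧ v ∈ h ∧ Cut h c}.Finite := by
    by_contra hinf
    obtain ⟨t, ht, htc⟩ := Set.Infinite.exists_subset_card_eq hinf (N + 1)
    have := hN t (fun h hh => (ht hh).1) (fun h hh k hk hne => hcr h (ht hh) k (ht hk) hne)
    omega
  refine ⟨v, {h | h ∈ X.H ∧ v ∈ h ∧ Cut h c}, hfin, ?_, hcr, ?_⟩
  · rintro h ⟨hh, hvh, ch⟩
    refine ⟨hh, hvh, fun j hj hvj hjh => ?_⟩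
    by_contra hne
    have cj : Cut j c := by
      refine ⟨⟨v, hvj, hv⟩, ?_⟩
      obtain ⟨x, hx, hx'⟩ := ch.2
      exact ⟨x, fun h' => hx (hjh h'), hx'⟩
    have := hcr j ⟨hj, hvj, cj⟩ h ⟨hh, hvh, ch⟩ hne
    obtain ⟨x, hx, hx'⟩ := this.2.1
    exact hx' (hjh hx)
  · ext w
    constructor
    · intro hw k hk hvk hwk
      exact ⟨hk, hvk, ⟨v, hvk, hv⟩, ⟨w, hwk, hw⟩⟩
    · intro hw
      refine hc.conv w fun h hh hch => ?_
      by_contra hwh
      obtain ⟨y, hy⟩ := (hw h hh (hch hv) hwh).2.2.2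
      exact hy.1 (hch hy.2)

theorem isCube_iff {N : ℕ} (hN : X.Dim N) {c : Set V} : X.IsCube c ↔ X.IsQb c :=
  ⟨IsCube.isQb, IsQb.isCube hN⟩

theorem cub_nonempty [Nonempty V] : Nonempty X.Cub :=
  ⟨⟨{Classical.arbitrary V}, isCube_single _⟩⟩

/-- If a torsion free group acts with trivial vertex stabilizers then the stabilizers of the cubes are
trivial. -/
theorem stab_cube_bot {G : Type} [Group G] [MulAction G V]
    (htf : ∀ (g : G) (n : ℕ), 0 < n → g ^ n = 1 → g = 1)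
    (hv : ∀ v : V, MulAction.stabilizer G v = ⊥) {c : Set V} (hc : X.IsCube c) :
    MulAction.stabilizer G c = ⊥ := by
  rw [eq_bot_iff]
  intro g hg
  obtain ⟨n, hn, h1⟩ := exists_fixes (G := G) hc
  obtain ⟨v, hvc⟩ := hc.nonempty
  have h2 : g ^ n ∈ MulAction.stabilizer G v := h1 g hg v hvc
  rw [hv v, Subgroup.mem_bot] at h2
  rw [Subgroup.mem_bot]
  exact htf g n hn h2

end Med

end Pool.Agent.CC
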