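import Pool.Agent.Lib.MP_8f66f0_al_CC.HomG
import Pool.Agent.Lib.MP_8f66f0_al_Q.Defs

/-!
# Theorem CC: the homotopy

For a half space `h` the kernel `W h` acts on every pair `v ∉ h`, `opp h v ∈ h` by the matrix
`[[1 - t, 2t - t²], [-(2t - t²), (1 - t)(1 + 2t - t²)]]` of determinant `1`, which is the identity for
`t = 0`, and `[[0, 1], [-1, 0]]` for `t = 1`. `W h` and `W hᶜ` are inverse to each other, and `W h` and
`W k` commute if `h`, `k` cross. So there are products `U b v` of the `W h` along paths, and
`Φ g = U b (g b) g` is a representation.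
-/

set_option autoImplicit false

namespace Pool.Agent.CC.Hom

open scoped Pointwise
open Pool.Agent.TQ Pool.Agent.QT Pool.Agent.CC.Med

variable {V : Type} {X : Med V}

section Coeff

variable (X) {R : Type} [CommRing R] (t : R)

open Classical in
/-- The diagonal coefficient. -/
noncomputable def al (h : Set V) (v : V) : R :=
  if X.Adj h v then (if v ∈ h then (1 - t) * (1 + 2 * t - t ^ 2) else 1 - t) else 1

open Classical in
/-- The other coefficient. -/
noncomputable def be (h : Set V) (v : V) : R :=
  if X.Adj h v then (if v ∈ h then 2 * t - t ^ 2 else -(2 * t - t ^ 2)) else 0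

open Classical in
private theorem w_row (h : Set V) (w : V) : {v | (if w = v then al X t h v else 0) +
    (if w = X.opp h v then be X t h v else 0) ≠ 0}.Finite := by
  refine ((Set.finite_singleton (X.opp h w)).insert w).subset fun v hv => ?_
  by_cases h1 : w = v
  · exact Or.inl h1.symm
  · by_cases h2 : w = X.opp h v
    · right
      rw [Set.mem_singleton_iff, h2, opp_opp]
    · refine absurd ?_ hv
      rw [if_neg h1, if_neg h2, add_zero]

open Classical in
private theorem w_col (h : Set V) (v : V) : {w | (if w = v then al X t h v else 0) +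
    (if w = X.opp h v then be X t h v else 0) ≠ 0}.Finite := by
  refine ((Set.finite_singleton (X.opp h v)).insert v).subset fun w hw => ?_
  by_cases h1 : w = v
  · exact Or.inl h1
  · by_cases h2 : w = X.opp h v
    · exact Or.inr h2
    · refine absurd ?_ hw
      rw [if_neg h1, if_neg h2, add_zero]

open Classical in
/-- The homotopy across one wall. -/
noncomputable def W (h : Set V) : RCF V R :=
  mkK (fun w v => (if w = v then al X t h v else 0) + (if w = X.opp h v then be X t h v else 0))
    (w_row X t h) (w_col X t h)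

open Classical in
theorem ent_W (h : Set V) (w v : V) : ent (W X t h) w v =
    (if w = v then al X t h v else 0) + (if w = X.opp h v then be X t h v else 0) :=
  ent_mkK _ _ _ w v

theorem ent_mul_W (S : RCF V R) (h : Set V) (w v : V) :
    ent (S * W X t h) w v = ent S w v * al X t h v + ent S w (X.opp h v) * be X t h v := by
  classical
  by_cases hv : X.Adj h v
  · have hne : v ≠ X.opp h v := by
      intro h1
      have h2 := opp_mem hv
      rw [← h1] at h2
      tauto
    rw [ent_mul_col S (W X t h) w v {v, X.opp h v} fun u hu => ?_, Finset.sum_pair hne, ent_W,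
      ent_W, if_pos rfl, if_neg hne, add_zero, if_neg hne.symm, if_pos rfl, zero_add]
    rw [ent_W] at hu
    by_cases h1 : u = v
    · rw [h1]
      exact Finset.mem_insert_self _ _
    · by_cases h2 : u = X.opp h v
      · rw [h2]
        exact Finset.mem_insert_of_mem (Finset.mem_singleton_self _)
      · refine absurd ?_ hu
        rw [if_neg h1, if_neg h2, add_zero]
  · have hb : be X t h v = 0 := if_neg hv
    rw [ent_mul_col S (W X t h) w v {v} fun u hu => ?_, Finset.sum_singleton, ent_W, if_pos rfl, hb,
      ite_self, mul_zero]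
    · rw [add_zero, add_zero]
    · rw [ent_W, hb, ite_self, add_zero] at hu
      rw [Finset.mem_singleton]
      by_contra h1
      exact hu (if_neg h1)

variable {X}

theorem al_congr {h : Set V} {v w : V} (h1 : X.Adj h v ↔ X.Adj h w) (h2 : v ∈ h ↔ w ∈ h) :
    al X t h v = al X t h w := by
  classical
  exact if_congr h1 (if_congr h2 rfl rfl) rfl

theorem be_congr {h : Set V} {v w : V} (h1 : X.Adj h v ↔ X.Adj h w) (h2 : v ∈ h ↔ w ∈ h) :
    be X t h v = be X t h w := by
  classical
  exact if_congr h1 (if_congr h2 rfl rfl) rfl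

/-- The homotopies across crossing walls commute. -/
theorem W_comm {h k : Set V} (hh : h ∈ X.H) (hk : k ∈ X.H) (H : Crs h k) :
    W X t h * W X t k = W X t k * W X t h := by
  classical
  refine ent_ext fun w v => ?_
  rw [ent_mul_W, ent_mul_W, ent_W, ent_W, ent_W, ent_W, opp_comm H]
  have e1 : al X t h (X.opp k v) = al X t h v :=
    al_congr t (adj_opp_of_crs' H.symm v) (opp_mem_other hh H.symm.ne1 H.symm.ne2 v)
  have e2 : be X t h (X.opp k v) = be X t h v :=
    be_congr t (adj_opp_of_crs' H.symm v) (opp_mem_other hh H.symm.ne1 H.symm.ne2 v)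
  have e3 : al X t k (X.opp h v) = al X t k v :=
    al_congr t (adj_opp_of_crs' H v) (opp_mem_other hk H.ne1 H.ne2 v)
  have e4 : be X t k (X.opp h v) = be X t k v :=
    be_congr t (adj_opp_of_crs' H v) (opp_mem_other hk H.ne1 H.ne2 v)
  rw [e1, e2, e3, e4]
  split_ifs <;> ring

/-- The two sides of a wall. -/
theorem W_compl (h : Set V) : W X t h * W X t hᶜ = 1 := by
  classical
  refine ent_ext fun w v => ?_
  rw [ent_mul_W, ent_W, ent_W, ent_one, opp_compl, opp_opp]
  by_cases hv : X.Adj h v
  · have hv' : X.Adj hᶜ v := adj_compl.2 hv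
    have hvo : X.Adj h (X.opp h v) := adj_opp.2 hv
    have hne : v ≠ X.opp h v := by
      intro h1
      have h2 := opp_mem hv
      rw [← h1] at h2
      tauto
    by_cases hvh : v ∈ h
    · have hvh' : v ∉ hᶜ := fun h => h hvh
      have hoh : X.opp h v ∉ h := by rw [opp_mem hv]; exact fun h => h hvh
      rw [al, al, al, be, be, be, if_pos hv, if_pos hv', if_pos hvo, if_pos hv, if_pos hv',
        if_pos hvo, if_pos hvh, if_neg hvh', if_neg hoh, if_pos hvh, if_neg hvh', if_neg hoh]
      by_cases h1 : w = v
      · subst h1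
        rw [if_pos rfl, if_neg hne, if_neg hne, if_pos rfl, if_pos rfl]
        ring
      · rw [if_neg h1, if_neg h1, if_neg h1]
        split_ifs <;> ring
    · have hvh' : v ∈ hᶜ := hvh
      have hoh : X.opp h v ∈ h := by rw [opp_mem hv]; exact hvh
      rw [al, al, al, be, be, be, if_pos hv, if_pos hv', if_pos hvo, if_pos hv, if_pos hv',
        if_pos hvo, if_neg hvh, if_pos hvh', if_pos hoh, if_neg hvh, if_pos hvh', if_pos hoh]
      by_cases h1 : w = v
      · subst h1
        rw [if_pos rfl, if_neg hne, if_neg hne, if_pos rfl, if_pos rfl]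
        ring
      · rw [if_neg h1, if_neg h1, if_neg h1]
        split_ifs <;> ring
  · have hv' : ¬ X.Adj hᶜ v := fun h => hv (adj_compl.1 h)
    have hvo : ¬ X.Adj h (X.opp h v) := fun h => hv (adj_opp.1 h)
    rw [al, al, al, be, be, be, if_neg hv, if_neg hv', if_neg hvo, if_neg hv, if_neg hv',
      if_neg hvo]
    simp

theorem W_compl' (h : Set V) : W X t hᶜ * W X t h = 1 := by
  have := W_compl (X := X) t hᶜ
  rwa [compl_compl] at this

end Coeff

section Path

variable (X) {R : Type} [CommRing R] (t : R)

open Classical in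
/-- The product along a path, with a bound for the length. -/
noncomputable def UU (b : V) : ℕ → V → RCF V R
  | 0, _ => 1
  | n + 1, v => if h : (X.D b v).Nonempty then UU b n (X.opp h.some v) * W X t h.some else 1

/-- The product along a path from `b` to `v`. -/
noncomputable def U (b v : V) : RCF V R := UU X t b (X.nd b v) v

variable {X}

theorem UU_step (b : V) : ∀ (n : ℕ) (v : V), X.nd b v = n + 1 → ∀ h ∈ X.D b v,
    UU X t b (n + 1) v = UU X t b n (X.opp h v) * W X t h := by
  classical
  intro n
  induction n with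
  | zero =>
    intro v hv h hh
    have hne : (X.D b v).Nonempty := ⟨h, hh⟩
    have hk := hne.some_mem
    have e : UU X t b 1 v = UU X t b 0 (X.opp hne.some v) * W X t hne.some := dif_pos hne
    rw [e]
    by_cases hkh : hne.some = h
    · rw [hkh]
    · exfalso
      have h1 := mem_D_opp hh hk fun e => hkh e.symm
      have h2 := nd_opp hh
      have h3 := nd_opp h1
      omega
  | succ n ih =>
    intro v hv h hh
    have hne : (X.D b v).Nonempty := ⟨h, hh⟩
    have hk := hne.some_mem
    have e : UU X t b (n + 2) v = UU X t b (n + 1) (X.opp hne.some v) * W X t hne.some :=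
      dif_pos hne
    rw [e]
    by_cases hkh : hne.some = h
    · rw [hkh]
    · have h1 := mem_D_opp hh hk fun e => hkh e.symm
      have h2 := mem_D_opp hk hh hkh
      have h3 := nd_opp hh
      have h4 := nd_opp hk
      have hc := crs_of_D hh hk fun e => hkh e.symm
      rw [ih (X.opp hne.some v) (by omega) h h2, ih (X.opp h v) (by omega) hne.some h1,
        opp_comm hc, mul_assoc, mul_assoc, W_comm t hh.1.1 hk.1.1 hc]

/-- One step of the product along a path. -/
theorem U_step_D {b v : V} {h : Set V} (hh : h ∈ X.D b v) :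
    U X t b v = U X t b (X.opp h v) * W X t h := by
  have h1 := nd_opp hh
  rw [U, U, ← h1, UU_step t b _ v h1.symm h hh]

theorem U_self (b : V) : U X t b b = 1 := by
  rw [U, nd_self]
  rfl

theorem U_step {b v : V} {h : Set V} (hv : v ∈ h) (ha : X.Adj h v) :
    U X t b v = U X t b (X.opp h v) * W X t h := by
  by_cases hb : b ∈ h
  · have h1 : hᶜ ∈ X.D b (X.opp h v) := by
      refine ⟨(adj_compl.2 (adj_opp.2 ha)).mn ?_, fun h' => h' hb⟩
      rw [Set.mem_compl_iff, opp_mem ha]
      exact fun h' => h' hv
    rw [U_step_D t h1, opp_compl, opp_opp, mul_assoc, W_compl', mul_one]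
  · exact U_step_D t ⟨ha.mn hv, hb⟩

/-- Uniqueness of functions which are given by steps. -/
theorem ext_path {A : Type} [Ring A] {w : Set V → A} {F F' : V → A}
    (hF : ∀ (h : Set V) (v : V), v ∈ h → X.Adj h v → F v = F (X.opp h v) * w h)
    (hF' : ∀ (h : Set V) (v : V), v ∈ h → X.Adj h v → F' v = F' (X.opp h v) * w h) (b : V)
    (hb : F b = F' b) : ∀ v, F v = F' v := by
  intro v
  induction hn : X.nd b v using Nat.strong_induction_on generalizing v with
  | _ n ih =>
    by_cases hv : v = b
    · rw [hv, hb]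
    · obtain ⟨h, hh⟩ := D_nonempty (X := X) hv
      have h1 := nd_opp hh
      rw [hF h v hh.1.2.1 hh.1.adj, hF' h v hh.1.2.1 hh.1.adj, ih _ (by omega) _ rfl]

/-- Change of the base point. -/
theorem U_trans (b' b v : V) : U X t b' v = U X t b' b * U X t b v := by
  refine ext_path (X := X) (w := fun h => W X t h) (F := fun v => U X t b' v)
    (F' := fun v => U X t b' b * U X t b v) ?_ ?_ b ?_ v
  · exact fun h v hv ha => U_step t hv ha
  · intro h v hv ha
    change U X t b' b * U X t b v = U X t b' b * U X t b (X.opp h v) * W X t h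
    rw [U_step t hv ha, mul_assoc]
  · change U X t b' b = U X t b' b * U X t b b
    rw [U_self, mul_one]

end Path

section Act

variable {Γ : Type} [Group Γ] [MulAction Γ V] (hG : ∀ (g : Γ), ∀ h ∈ X.H, g • h ∈ X.H)
  {R : Type} [CommRing R] (t : R)

open Classical in
/-- The permutation. -/
noncomputable def pm (g : Γ) : RCF V R :=
  mkK (fun w v => if w = g • v then 1 else 0)
    (fun w => (Set.finite_singleton (g⁻¹ • w)).subset fun v hv => by
      by_contra h
      refine hv (if_neg fun h' => h ?_)
      rw [h', inv_smul_smul]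
      rfl)
    (fun v => (Set.finite_singleton (g • v)).subset fun w hw => by
      by_contra h
      exact hw (if_neg fun h' => h h'))

open Classical in
theorem ent_pm (g : Γ) (w v : V) : ent (pm g : RCF V R) w v = if w = g • v then 1 else 0 :=
  ent_mkK _ _ _ w v

theorem ent_mul_pm (S : RCF V R) (g : Γ) (w v : V) : ent (S * pm g) w v = ent S w (g • v) := by
  classical
  rw [ent_mul_col S (pm g) w v {g • v} fun u hu => ?_, Finset.sum_singleton, ent_pm, if_pos rfl,
    mul_one]
  rw [ent_pm] at hu
  rw [Finset.mem_singleton]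
  by_contra h
  exact hu (if_neg h)

theorem ent_pm_mul (S : RCF V R) (g : Γ) (w v : V) : ent (pm g * S) w v = ent S (g⁻¹ • w) v := by
  classical
  rw [ent_mul_row (pm g) S w v {g⁻¹ • w} fun u hu => ?_, Finset.sum_singleton, ent_pm,
    smul_inv_smul, if_pos rfl, one_mul]
  rw [ent_pm] at hu
  rw [Finset.mem_singleton]
  by_contra h
  refine hu (if_neg fun h' => h ?_)
  rw [h', inv_smul_smul]

theorem pm_mul (g h : Γ) : (pm g * pm h : RCF V R) = pm (g * h) := by
  classical
  refine ent_ext fun w v => ?_
  rw [ent_mul_pm, ent_pm, ent_pm, mul_smul]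

theorem pm_one : (pm (1 : Γ) : RCF V R) = 1 := by
  classical
  refine ent_ext fun w v => ?_
  rw [ent_pm, ent_one, one_smul]

include hG in
theorem pm_W (g : Γ) (h : Set V) : pm g * W X t h = W X t (g • h) * pm g := by
  classical
  refine ent_ext fun w v => ?_
  have h1 : g⁻¹ • w = v ↔ w = g • v := inv_smul_eq_iff
  have h2 : g⁻¹ • w = X.opp h v ↔ w = X.opp (g • h) (g • v) := by
    rw [opp_smul hG, inv_smul_eq_iff]
  have h3 : al X t (g • h) (g • v) = al X t h v :=
    if_congr (adj_smul hG g h v) (if_congr Set.smul_mem_smul_set_iff rfl rfl) rfl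
  have h4 : be X t (g • h) (g • v) = be X t h v :=
    if_congr (adj_smul hG g h v) (if_congr Set.smul_mem_smul_set_iff rfl rfl) rfl
  rw [ent_pm_mul, ent_mul_pm, ent_W, ent_W, h3, h4]
  congr 1
  · exact if_congr h1 rfl rfl
  · exact if_congr h2 rfl rfl

include hG in
theorem pm_U (g : Γ) (b v : V) : pm g * U X t b v = U X t (g • b) (g • v) * pm g := by
  refine ext_path (X := X) (w := fun h => W X t h) (F := fun v => pm g * U X t b v)
    (F' := fun v => U X t (g • b) (g • v) * pm g) ?_ ?_ b ?_ v
  · intro h v hv ha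
    change pm g * U X t b v = pm g * U X t b (X.opp h v) * W X t h
    rw [U_step t hv ha, mul_assoc]
  · intro h v hv ha
    change U X t (g • b) (g • v) * pm g = U X t (g • b) (g • X.opp h v) * pm g * W X t h
    rw [U_step t (Set.smul_mem_smul_set_iff.2 hv) ((adj_smul hG g h v).2 ha), opp_smul hG,
      mul_assoc, mul_assoc, pm_W hG]
  · change pm g * U X t b b = U X t (g • b) (g • b) * pm g
    rw [U_self, U_self, mul_one, one_mul]

/-- The homotopy. -/
noncomputable def Ph (X : Med V) (b : V) (g : Γ) : RCF V R := U X t b (g • b) * pm g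

theorem Ph_one (b : V) : Ph t X b (1 : Γ) = 1 := by
  rw [Ph, one_smul, U_self, pm_one, mul_one]

include hG in
theorem Ph_mul (b : V) (g h : Γ) : Ph t X b (g * h) = Ph t X b g * Ph t X b h := by
  rw [Ph, Ph, Ph, mul_smul, U_trans t b (g • b), ← pm_mul]
  rw [mul_assoc, mul_assoc, ← mul_assoc (pm g), pm_U hG, mul_assoc]

end Act

section Far

variable {R : Type} [CommRing R] (t : R)

/-- The entries of the path products: far half spaces are respected. -/
theorem far_U (b : V) : ∀ (n : ℕ) (v : V), X.nd b v = n → ∀ w x : V, ent (U X t b v) w x ≠ 0 →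
    (∀ a ∈ X.D v x, (b ∈ a ↔ v ∈ a) → a ∈ X.D b w) ∧
    (∀ a ∈ X.D b w, (b ∈ a ↔ v ∈ a) → a ∈ X.D v x) := by
  classical
  intro n
  induction n with
  | zero =>
    intro v hv w x h
    have h0 : v = b := by
      by_contra h0
      exact nd_pos h0 hv
    subst h0
    rw [U_self, ent_one] at h
    have hwx : w = x := by
      by_contra h1
      exact h (if_neg h1)
    subst hwx
    exact ⟨fun a ha _ => ha, fun a ha _ => ha⟩
  | succ n ih =>
    intro v hv w x h
    have hvb : v ≠ b := by
      rintro rfl
      rw [nd_self] at hv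
      omega
    obtain ⟨k, hk⟩ := D_nonempty (X := X) hvb
    have h1 := nd_opp hk
    have hadj : X.Adj k v := hk.1.adj
    rw [U_step_D t hk, ent_mul_W] at h
    -- the intermediate point
    obtain ⟨y, hy, hyx⟩ : ∃ y, ent (U X t b (X.opp k v)) w y ≠ 0 ∧ (y = x ∨ y = X.opp k x) := by
      by_cases h2 : ent (U X t b (X.opp k v)) w x = 0
      · rw [h2, zero_mul, zero_add] at h
        exact ⟨_, left_ne_zero_of_mul h, Or.inr rfl⟩
      · exact ⟨x, h2, Or.inl rfl⟩
    obtain ⟨i1, i2⟩ := ih (X.opp k v) (by omega) w y hy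
    have hbk : b ∉ k := hk.2
    have hvk : v ∈ k := hk.1.2.1
    constructor
    · intro a ha hba
      have hva : v ∉ a := ha.2
      have e1 : a ≠ k := by
        rintro rfl
        exact hva hvk
      have e2 : a ≠ kᶜ := by
        rintro rfl
        exact hva (hba.1 hbk)
      obtain ⟨j1, j2⟩ := D_step hadj ha e1 e2
      have hay : a ∈ X.D (X.opp k v) y := by
        rcases hyx with rfl | rfl
        · exact j1
        · exact j2
      refine i1 a hay ?_
      rw [opp_mem_other ha.1.1 e1 e2]
      exact hba
    · intro a ha hba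
      have hba' : b ∉ a := ha.2
      have hva : v ∉ a := fun h => hba' (hba.2 h)
      have e1 : a ≠ k := by
        rintro rfl
        exact hva hvk
      have e2 : a ≠ kᶜ := by
        rintro rfl
        exact hba' hbk
      have hay := i2 a ha (by rw [opp_mem_other ha.1.1 e1 e2]; exact hba)
      obtain ⟨j1, j2⟩ := D_step (adj_opp.2 hadj) hay e1 e2
      rw [opp_opp] at j1 j2
      rcases hyx with rfl | rfl
      · exact j1
      · rwa [opp_opp] at j2

/-- The coefficients are in a finitely generated additive group. -/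
def Bdd (S : RCF V R) : Prop := ∃ T : Finset R, ∀ w v, ent S w v ∈ AddSubgroup.closure (T : Set R)

theorem bdd_mono {T T' : Finset R} (h : T ⊆ T') {r : R} (hr : r ∈ AddSubgroup.closure (T : Set R)) :
    r ∈ AddSubgroup.closure (T' : Set R) :=
  AddSubgroup.closure_mono (Finset.coe_subset.2 h) hr

theorem bdd_one : Bdd (1 : RCF V R) := by
  classical
  refine ⟨{1}, fun w v => ?_⟩
  rw [ent_one]
  split_ifs
  · exact AddSubgroup.subset_closure (Finset.mem_coe.2 (Finset.mem_singleton_self _))
  · exact AddSubgroup.zero_mem _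

theorem bdd_W (h : Set V) : Bdd (W X t h) := by
  classical
  refine ⟨{1, (1 - t) * (1 + 2 * t - t ^ 2), 1 - t, 2 * t - t ^ 2}, fun w v => ?_⟩
  have h1 : ∀ r ∈ ({1, (1 - t) * (1 + 2 * t - t ^ 2), 1 - t, 2 * t - t ^ 2} : Finset R),
      r ∈ AddSubgroup.closure
        (({1, (1 - t) * (1 + 2 * t - t ^ 2), 1 - t, 2 * t - t ^ 2} : Finset R) : Set R) :=
    fun r hr => AddSubgroup.subset_closure (Finset.mem_coe.2 hr)
  rw [ent_W]
  refine AddSubgroup.add_mem _ ?_ ?_
  · split_ifs
    · rw [al]
      split_ifs
      · exact h1 _ (by simp)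
      · exact h1 _ (by simp)
      · exact h1 _ (by simp)
    · exact AddSubgroup.zero_mem _
  · split_ifs
    · rw [be]
      split_ifs
      · exact h1 _ (by simp)
      · exact AddSubgroup.neg_mem _ (h1 _ (by simp))
      · exact AddSubgroup.zero_mem _
    · exact AddSubgroup.zero_mem _

theorem Bdd.mul {S S' : RCF V R} (h : Bdd S) (h' : Bdd S') : Bdd (S * S') := by
  classical
  obtain ⟨T, hT⟩ := h
  obtain ⟨T', hT'⟩ := h'
  refine ⟨Finset.image₂ (· * ·) T T', fun w v => ?_⟩
  rw [ent_mul_col S S' w v (ent_col S' v).toFinset fun u hu => by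
    rw [Set.Finite.mem_toFinset]; exact hu]
  refine AddSubgroup.sum_mem _ fun u _ => ?_
  have key : ∀ r ∈ AddSubgroup.closure (T : Set R), ∀ s ∈ AddSubgroup.closure (T' : Set R),
      r * s ∈ AddSubgroup.closure ((Finset.image₂ (· * ·) T T' : Finset R) : Set R) := by
    intro r hr s hs
    refine AddSubgroup.closure_induction (p := fun r _ => r * s ∈ _) ?_ ?_ ?_ ?_ hr
    · intro x hx
      refine AddSubgroup.closure_induction (p := fun s _ => x * s ∈ _) ?_ ?_ ?_ ?_ hs
      · exact fun y hy => AddSubgroup.subset_closure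
          (Finset.mem_coe.2 (Finset.mem_image₂_of_mem (Finset.mem_coe.1 hx) (Finset.mem_coe.1 hy)))
      · rw [mul_zero]
        exact AddSubgroup.zero_mem _
      · intro y z _ _ h1 h2
        rw [mul_add]
        exact AddSubgroup.add_mem _ h1 h2
      · intro y _ h1
        rw [mul_neg]
        exact AddSubgroup.neg_mem _ h1
    · rw [zero_mul]
      exact AddSubgroup.zero_mem _
    · intro y z _ _ h1 h2
      rw [add_mul]
      exact AddSubgroup.add_mem _ h1 h2
    · intro y _ h1
      rw [neg_mul]
      exact AddSubgroup.neg_mem _ h1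
  exact key _ (hT w u) _ (hT' u v)

theorem bdd_UU (b : V) : ∀ (n : ℕ) (v : V), Bdd (UU X t b n v) := by
  classical
  intro n
  induction n with
  | zero => exact fun v => bdd_one
  | succ n ih =>
    intro v
    by_cases hne : (X.D b v).Nonempty
    · have e : UU X t b (n + 1) v = UU X t b n (X.opp hne.some v) * W X t hne.some := dif_pos hne
      rw [e]
      exact (ih _).mul (bdd_W t _)
    · have e : UU X t b (n + 1) v = 1 := dif_neg hne
      rw [e]
      exact bdd_one

end Far

section One

variable {R : Type} [CommRing R]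

theorem al_one {h : Set V} {v : V} (ha : X.Adj h v) : al X (1 : R) h v = 0 := by
  classical
  rw [al, if_pos ha]
  split_ifs <;> ring

/-- At `t = 1` the labels are respected. -/
theorem lab_U (b : V) : ∀ (n : ℕ) (v : V), X.nd b v = n → ∀ w x : V,
    ent (U X (1 : R) b v) w x ≠ 0 → X.lab b w = X.lab v x := by
  classical
  intro n
  induction n with
  | zero =>
    intro v hv w x h
    have h0 : v = b := by
      by_contra h0
      exact nd_pos h0 hv
    subst h0
    rw [U_self, ent_one] at h
    have hwx : w = x := by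
      by_contra h1
      exact h (if_neg h1)
    rw [hwx]
  | succ n ih =>
    intro v hv w x h
    have hvb : v ≠ b := by
      rintro rfl
      rw [nd_self] at hv
      omega
    obtain ⟨k, hk⟩ := D_nonempty (X := X) hvb
    have h1 := nd_opp hk
    have hadj : X.Adj k v := hk.1.adj
    rw [U_step_D 1 hk, ent_mul_W] at h
    by_cases hx : X.Adj k x
    · rw [al_one hx, mul_zero, zero_add] at h
      rw [ih (X.opp k v) (by omega) w _ (left_ne_zero_of_mul h), lab_step hadj hx]
    · have hb : be X (1 : R) k x = 0 := if_neg hx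
      rw [hb, mul_zero, add_zero] at h
      rw [ih (X.opp k v) (by omega) w _ (left_ne_zero_of_mul h), lab_step' hadj hx]

/-- At `t = 1` the end point goes to the base point. -/
theorem root_U (b : V) : ∀ (n : ℕ) (v : V), X.nd b v = n → ent (U X (1 : R) b v) b v = 1 := by
  classical
  intro n
  induction n with
  | zero =>
    intro v hv
    have h0 : v = b := by
      by_contra h0
      exact nd_pos h0 hv
    subst h0
    rw [U_self, ent_one, if_pos rfl]
  | succ n ih =>
    intro v hv
    have hvb : v ≠ b := by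
      rintro rfl
      rw [nd_self] at hv
      omega
    obtain ⟨k, hk⟩ := D_nonempty (X := X) hvb
    have h1 := nd_opp hk
    have hadj : X.Adj k v := hk.1.adj
    rw [U_step_D 1 hk, ent_mul_W, al_one hadj, mul_zero, zero_add, ih (X.opp k v) (by omega), be,
      if_pos hadj, if_pos hk.1.2.1]
    ring

/-- At `t = 0`. -/
theorem UU_zero (b : V) : ∀ (n : ℕ) (v : V), UU X (0 : R) b n v = 1 := by
  classical
  have hW : ∀ h : Set V, W X (0 : R) h = 1 := by
    intro h
    refine ent_ext fun w v => ?_
    have e1 : al X (0 : R) h v = 1 := by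
      rw [al]
      split_ifs <;> ring
    have e2 : be X (0 : R) h v = 0 := by
      rw [be]
      split_ifs <;> ring
    rw [ent_W, e1, e2, ite_self, add_zero, ent_one]
  intro n
  induction n with
  | zero => exact fun v => rfl
  | succ n ih =>
    intro v
    by_cases hne : (X.D b v).Nonempty
    · have e : UU X (0 : R) b (n + 1) v = UU X (0 : R) b n (X.opp hne.some v) *
        W X (0 : R) hne.some := dif_pos hne
      rw [e, ih, hW, mul_one]
    · exact dif_neg hne

end One

section BaseChange

variable {R R' : Type} [CommRing R] [CommRing R'] (f : R →+* R') (t : R)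

theorem mapK_W (h : Set V) : mapK f (W X t h) = W X (f t) h := by
  classical
  refine ent_ext fun w v => ?_
  have h2 : f 2 = 2 := map_ofNat f 2
  have e1 : f (al X t h v) = al X (f t) h v := by
    rw [al, al]
    split_ifs <;> simp [h2]
  have e2 : f (be X t h v) = be X (f t) h v := by
    rw [be, be]
    split_ifs <;> simp [h2]
  rw [ent_mapK, ent_W, ent_W, map_add, ← e1, ← e2]
  split_ifs <;> simp

theorem mapK_UU (b : V) : ∀ (n : ℕ) (v : V), mapK f (UU X t b n v) = UU X (f t) b n v := by
  classical
  intro n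
  induction n with
  | zero => exact fun v => map_one _
  | succ n ih =>
    intro v
    by_cases hne : (X.D b v).Nonempty
    · have e : UU X t b (n + 1) v = UU X t b n (X.opp hne.some v) * W X t hne.some := dif_pos hne
      have e' : UU X (f t) b (n + 1) v = UU X (f t) b n (X.opp hne.some v) * W X (f t) hne.some :=
        dif_pos hne
      rw [e, e', map_mul, ih, mapK_W]
    · have e : UU X t b (n + 1) v = 1 := dif_neg hne
      have e' : UU X (f t) b (n + 1) v = 1 := dif_neg hne
      rw [e, e', map_one]

theorem mapK_pm {Γ : Type} [Group Γ] [MulAction Γ V] (g : Γ) :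
    mapK f (pm g : RCF V R) = pm g := by
  classical
  refine ent_ext fun w v => ?_
  rw [ent_mapK, ent_pm, ent_pm, apply_ite f, map_one, map_zero]

theorem mapK_Ph {Γ : Type} [Group Γ] [MulAction Γ V] (b : V) (g : Γ) :
    mapK f (Ph t X b g) = Ph (f t) X b g := by
  rw [Ph, Ph, map_mul, mapK_pm, U, U, mapK_UU]

end BaseChange

end Pool.Agent.CC.Hom

namespace Pool.Agent.CC

open scoped Pointwise Polynomial
open Pool.Agent.TQ Pool.Agent.QT Pool.Agent.CC.Med Pool.Agent.CC.Hom

/-- The homotopy. -/
structure IsPhi {V Γ L : Type} [Group Γ] [MulAction Γ V] [CommRing L] (X : Med V) (b : V)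
    (Φ : Γ → RCF V L[X]) : Prop where
  one : Φ 1 = 1
  mul : ∀ g h, Φ (g * h) = Φ g * Φ h
  /-- the coefficients are in a finitely generated additive group -/
  cof : ∀ g, ∃ T : Finset L[X], ∀ w v, ent (Φ g) w v ∈ AddSubgroup.closure (T : Set L[X])
  zero : ∀ g w v, (ent (Φ g) w v).eval 0 ≠ 0 → w = g • v
  zero' : ∀ g v, (ent (Φ g) (g • v) v).eval 0 = 1
  /-- unoriented labels -/
  eval1 : ∀ g w v, (ent (Φ g) w v).eval 1 ≠ 0 → X.lab b w = g • X.lab b v
  root1 : ∀ g, (ent (Φ g) b b).eval 1 = 1
  /-- the half spaces which do not separate `b` and `g b` are respected -/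
  far : ∀ g w v, ent (Φ g) w v ≠ 0 → ∀ a ∈ X.D b v, (b ∈ g • a ↔ g • b ∈ g • a) →
    g • a ∈ X.D b w
  far' : ∀ g w v, ent (Φ g) w v ≠ 0 → ∀ a ∈ X.D b w, (b ∈ a ↔ g • b ∈ a) → g⁻¹ • a ∈ X.D b v

/-- Two points are separated by finitely many half spaces. -/
theorem Med.sep_finite {V : Type} (X : Med V) (u v : V) :
    {a | a ∈ X.H ∧ ¬ (u ∈ a ↔ v ∈ a)}.Finite := by
  refine ((X.fin u v).union (X.fin v u)).subset ?_
  rintro a ⟨ha, h⟩
  by_cases hu : u ∈ a
  · exact Or.inr ⟨ha, by tauto, hu⟩
  · exact Or.inl ⟨ha, hu, by tauto⟩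

/-- The homotopy exists. -/
theorem exists_isPhi {V Γ L : Type} [Group Γ] [MulAction Γ V] [CommRing L] (X : Med V) (b : V)
    (hG : ∀ (g : Γ), ∀ h ∈ X.H, g • h ∈ X.H) : ∃ Φ : Γ → RCF V L[X], IsPhi X b Φ := by
  classical
  have hev : ∀ (c : L) (g : Γ) (w v : V),
      (ent (Ph (Polynomial.X : L[X]) X b g) w v).eval c = ent (Ph c X b g) w v := by
    intro c g w v
    have h := congrArg (fun S => ent S w v) (mapK_Ph (Polynomial.evalRingHom c)
      (Polynomial.X : L[X]) (X := X) b g)
    simp only [ent_mapK, Polynomial.coe_evalRingHom, Polynomial.eval_X] at h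
    exact h
  refine ⟨fun g => Ph Polynomial.X X b g, Ph_one _ b, Ph_mul hG _ b, ?_, ?_, ?_, ?_, ?_, ?_, ?_⟩
  · intro g
    obtain ⟨T, hT⟩ := bdd_UU (X := X) (Polynomial.X : L[X]) b (X.nd b (g • b)) (g • b)
    refine ⟨T, fun w v => ?_⟩
    rw [Ph, ent_mul_pm]
    exact hT w (g • v)
  · intro g w v h
    rw [hev, Ph, U, UU_zero, one_mul, ent_pm] at h
    by_contra hne
    exact h (if_neg hne)
  · intro g v
    rw [hev, Ph, U, UU_zero, one_mul, ent_pm, if_pos rfl]
  · intro g w v h
    rw [hev, Ph, ent_mul_pm] at h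
    rw [lab_U b _ _ rfl w _ h, lab_smul hG]
  · intro g
    rw [hev, Ph, ent_mul_pm, root_U b _ _ rfl]
  · intro g w v h a ha hsep
    rw [Ph, ent_mul_pm] at h
    refine (far_U _ b _ _ rfl w _ h).1 _ ?_ hsep
    rw [D_smul hG]
    exact Set.smul_mem_smul_set ha
  · intro g w v h a ha hsep
    rw [Ph, ent_mul_pm] at h
    have h1 := (far_U _ b _ _ rfl w _ h).2 a ha hsep
    rwa [D_smul hG, Set.mem_smul_set_iff_inv_smul_mem] at h1

end Pool.Agent.CC
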