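import Pool.Agent.Lib.MP_8f66f0_al_CC.Geo.Smul

/-!
# Theorem CC, geometry: the vertices at which all half spaces of a family are minimal
-/

set_option autoImplicit false

namespace Pool.Agent.CC

open scoped Pointwise

namespace Med

variable {V : Type} (X : Med V)

/-- The vertices at which all half spaces of `T` are minimal. -/
def VT (T : Set (Set V)) : Set V := {v | ∀ h ∈ T, X.Mn v h}

/-- `VT T` is convex. -/
theorem VT_convex {T : Set (Set V)} {u v m : V} (hu : u ∈ X.VT T) (hv : v ∈ X.VT T)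
    (hm : ∀ k ∈ X.H, u ∈ k → v ∈ k → m ∈ k) : m ∈ X.VT T := by
  intro h hh
  have h1 := hu h hh
  have h2 := hv h hh
  refine ⟨h1.1, hm h h1.1 h1.2.1 h2.2.1, fun k hk hmk hkh => ?_⟩
  by_cases huk : u ∈ k
  · exact h1.2.2 k hk huk hkh
  · by_cases hvk : v ∈ k
    · exact h2.2.2 k hk hvk hkh
    · exact absurd hmk (hm kᶜ (X.compl k hk) huk hvk)

/-- Medians stay in `VT T`. -/
theorem VT_med {T : Set (Set V)} {u v w m : V} (hu : u ∈ X.VT T) (hv : v ∈ X.VT T)
    (hm : ∀ h ∈ X.H, (u ∈ h → v ∈ h → m ∈ h) ∧ (u ∈ h → w ∈ h → m ∈ h) ∧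
      (v ∈ h → w ∈ h → m ∈ h)) : m ∈ X.VT T :=
  X.VT_convex hu hv fun k hk => (hm k hk).1

/-- Induction along the edges of `VT T`. -/
theorem VT_induction {T : Set (Set V)} {b : V} (hbT : b ∈ X.VT T) {C : V → Prop} (hb : C b)
    (hs : ∀ (h : Set V) (q r : V), q ∈ X.VT T → r ∈ X.VT T → C q → X.Opp h q r → C r) :
    ∀ q ∈ X.VT T, C q := by
  intro q
  induction hn : X.dist b q using Nat.strong_induction_on generalizing q with
  | _ n ih =>
    intro hqT
    by_cases hq : q = b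
    · rw [hq]
      exact hb
    · have hne : (X.D b q).Nonempty := by
        rw [Set.nonempty_iff_ne_empty]
        exact fun h => hq ((X.D_eq_empty).1 h)
      obtain ⟨h, hh⟩ := hne
      obtain ⟨w, hw, ho⟩ := hh.1.exists_opp
      have hwT : w ∈ X.VT T := by
        refine X.VT_convex hbT hqT fun k hk hbk hqk => ?_
        by_contra hwk
        rcases ho.eq_of_sep hk (by tauto) with h1 | h1
        · subst h1
          exact hh.2 hbk
        · subst h1
          exact hqk hh.1.2.1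
      exact hs h w q hwT hqT (ih _ (hn ▸ X.dist_lt hh ho) w rfl hwT) ho.symm

/-- The restriction of half spaces to `VT T` is injective on those which cut `VT T`. -/
theorem VT_inj {T : Set (Set V)} {k k' : Set V} (hk : k ∈ X.H) (hk' : k' ∈ X.H)
    (h : ∀ v ∈ X.VT T, v ∈ k ↔ v ∈ k') {v w : V} (hv : v ∈ X.VT T) (hw : w ∈ X.VT T)
    (hvk : v ∈ k) (hwk : w ∉ k) : k = k' := by
  by_contra hne
  refine hwk (X.VT_induction hv (C := fun q => q ∈ k) hvk ?_ w hw)
  intro j q r hq hr hqk ho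
  by_contra hrk
  have hqk' : q ∈ k' := (h q hq).1 hqk
  have hrk' : r ∉ k' := fun h' => hrk ((h r hr).2 h')
  rcases ho.eq_of_sep hk (by tauto) with h1 | h1 <;>
    rcases ho.eq_of_sep hk' (by tauto) with h2 | h2
  · exact hne (h1.trans h2.symm)
  · subst h1
    subst h2
    exact hqk' hqk
  · subst h1
    subst h2
    exact hqk hqk'
  · exact hne (h1.trans h2.symm)

/-- A half space which cuts `VT T` crosses the elements of `T`. -/
theorem VT_cross {T : Set (Set V)} {k h : Set V} (hk : k ∈ X.H) (hh : h ∈ T) {v w : V}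
    (hv : v ∈ X.VT T) (hw : w ∈ X.VT T) (hvk : v ∈ k) (hwk : w ∉ k) : Crs k h := by
  have hvh := hv h hh
  have hwh := hw h hh
  have hkh : k ≠ h := by
    rintro rfl
    exact hwk hwh.2.1
  have hkh' : k ≠ hᶜ := by
    rintro rfl
    exact hvk hvh.2.1
  refine ⟨⟨v, hvk, hvh.2.1⟩, ?_, ⟨w, hwk, hwh.2.1⟩, ?_⟩
  · obtain ⟨x, hx, ho⟩ := hvh.exists_opp
    exact ⟨x, (ho.2.2 k hk hkh hkh').1 hvk, hx⟩
  · obtain ⟨x, hx, ho⟩ := hwh.exists_opp
    exact ⟨x, fun h' => hwk ((ho.2.2 k hk hkh hkh').2 h'), hx⟩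

/-- The median structure of `VT T`. -/
def sub (T : Set (Set V)) : Med (X.VT T) where
  H := {s | (∃ h ∈ X.H, s = Subtype.val ⁻¹' h) ∧ s.Nonempty ∧ sᶜ.Nonempty}
  compl := by
    rintro s ⟨⟨h, hh, rfl⟩, h1, h2⟩
    exact ⟨⟨hᶜ, X.compl h hh, rfl⟩, h2, by rwa [compl_compl]⟩
  ne := fun s hs => hs.2.1
  fin := by
    intro u v
    refine ((X.fin u v).image fun h => (Subtype.val ⁻¹' h : Set (X.VT T))).subset ?_
    rintro s ⟨⟨⟨h, hh, rfl⟩, _⟩, hu, hv⟩
    exact ⟨h, ⟨hh, hu, hv⟩, rfl⟩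
  sep := by
    intro u v huv
    by_contra hne
    obtain ⟨h, hh, hu, hv⟩ := X.exists_sep (fun h' => hne (Subtype.ext h'))
    have h1 := huv (Subtype.val ⁻¹' h) ⟨⟨h, hh, rfl⟩, ⟨v, hv⟩, ⟨u, hu⟩⟩
    exact hu (h1.2 hv)
  med := by
    intro u v w
    obtain ⟨m, hm⟩ := X.med u v w
    refine ⟨⟨m, X.VT_med u.2 v.2 hm⟩, ?_⟩
    rintro s ⟨⟨h, hh, rfl⟩, _⟩
    exact hm h hh

theorem mem_sub_H {T : Set (Set V)} {s : Set (X.VT T)} :
    s ∈ (X.sub T).H ↔ (∃ h ∈ X.H, s = Subtype.val ⁻¹' h) ∧ s.Nonempty ∧ sᶜ.Nonempty := Iff.rfl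

/-- The dimension drops. -/
theorem sub_dim {T : Set (Set V)} (hT : T.Nonempty) {N : ℕ} (hN : X.Dim (N + 1)) :
    (X.sub T).Dim N := by
  classical
  intro F hF hcr
  rcases F.eq_empty_or_nonempty with rfl | hFne
  · exact Nat.zero_le N
  obtain ⟨t, ht⟩ := hT
  have hex : ∀ s : Set (X.VT T), s ∈ F → ∃ h ∈ X.H, s = Subtype.val ⁻¹' h := fun s hs => (hF s hs).1
  let f : Set (X.VT T) → Set V := fun s => if hs : s ∈ F then (hex s hs).choose else ∅
  have hf1 : ∀ s ∈ F, f s ∈ X.H := fun s hs => by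
    simp only [f, dif_pos hs]
    exact (hex s hs).choose_spec.1
  have hf2 : ∀ s ∈ F, s = Subtype.val ⁻¹' (f s) := fun s hs => by
    simp only [f, dif_pos hs]
    exact (hex s hs).choose_spec.2
  have hmem : ∀ s ∈ F, ∀ x : X.VT T, x ∈ s ↔ (x : V) ∈ f s := fun s hs x => by
    conv_lhs => rw [hf2 s hs]
    rfl
  have hinj : Set.InjOn f F := by
    intro s hs s' hs' h
    rw [hf2 s hs, hf2 s' hs', h]
  have hcrt : ∀ s ∈ F, Crs (f s) t := by
    intro s hs
    obtain ⟨-, ⟨v, hv⟩, ⟨w, hw⟩⟩ := hF s hs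
    refine X.VT_cross (hf1 s hs) ht v.2 w.2 ((hmem s hs v).1 hv) ?_
    exact fun h' => hw ((hmem s hs w).2 h')
  have hvt : ∀ s ∈ F, ∃ v, v ∈ X.VT T := fun s hs => by
    obtain ⟨-, ⟨v, hv⟩, -⟩ := hF s hs
    exact ⟨v, v.2⟩
  have hcard : (insert t (F.image f)).card ≤ N + 1 := by
    refine hN _ ?_ ?_
    · intro h hh
      rw [Finset.mem_insert, Finset.mem_image] at hh
      rcases hh with rfl | ⟨s, hs, rfl⟩
      · obtain ⟨s, hs⟩ := hFne
        obtain ⟨v, hv⟩ := hvt s hs
        exact (hv h ht).1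
      · exact hf1 s hs
    · intro h hh k hk hne
      rw [Finset.mem_insert, Finset.mem_image] at hh hk
      rcases hh with rfl | ⟨s, hs, rfl⟩ <;> rcases hk with rfl | ⟨s', hs', rfl⟩
      · exact absurd rfl hne
      · exact (hcrt s' hs').symm
      · exact hcrt s hs
      · have hss : s ≠ s' := fun h' => hne (by rw [h'])
        obtain ⟨⟨x1, hx1, hx1'⟩, ⟨x2, hx2, hx2'⟩, ⟨x3, hx3, hx3'⟩, ⟨x4, hx4, hx4'⟩⟩ :=
          hcr s hs s' hs' hss
        refine ⟨⟨x1, (hmem s hs x1).1 hx1, (hmem s' hs' x1).1 hx1'⟩,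
          ⟨x2, (hmem s hs x2).1 hx2, fun h' => hx2' ((hmem s' hs' x2).2 h')⟩,
          ⟨x3, fun h' => hx3 ((hmem s hs x3).2 h'), (hmem s' hs' x3).1 hx3'⟩,
          ⟨x4, fun h' => hx4 ((hmem s hs x4).2 h'), fun h' => hx4' ((hmem s' hs' x4).2 h')⟩⟩
  have htn : t ∉ F.image f := by
    intro h'
    obtain ⟨s, hs, h''⟩ := Finset.mem_image.1 h'
    exact (hcrt s hs).ne h''
  rw [Finset.card_insert_of_notMem htn, Finset.card_image_of_injOn hinj] at hcard
  omega

/-- All choices of sides of a crossing family are realised. -/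
theorem exists_flip {v : V} (F : Finset (Set V)) (hF : ∀ h ∈ F, X.Mn v h)
    (hc : ∀ h ∈ F, ∀ k ∈ F, h ≠ k → Crs h k) (S : Finset (Set V)) (hS : S ⊆ F) :
    ∃ u, ∀ h ∈ F, (h ∈ S → X.Mn u hᶜ) ∧ (h ∉ S → X.Mn u h) := by
  classical
  induction S using Finset.induction_on with
  | empty => exact ⟨v, fun h hh => ⟨fun h' => absurd h' (Finset.notMem_empty h), fun _ => hF h hh⟩⟩
  | insert h S hhS ih =>
    obtain ⟨u, hu⟩ := ih fun k hk => hS (Finset.mem_insert_of_mem hk)
    have hhF : h ∈ F := hS (Finset.mem_insert_self h S)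
    obtain ⟨w, hw, ho⟩ := ((hu h hhF).2 hhS).exists_opp
    refine ⟨w, fun k hk => ?_⟩
    by_cases hkh : k = h
    · subst hkh
      exact ⟨fun _ => ho.symm.compl.mn hw,
        fun h' => absurd (Finset.mem_insert_self k S) h'⟩
    · have hcr := hc h hhF k hk (Ne.symm hkh)
      refine ⟨fun h' => ?_, fun h' => ?_⟩
      · have hkS : k ∈ S := (Finset.mem_insert.1 h').resolve_left hkh
        exact ((hu k hk).1 hkS).cross ho hcr.compl_right
      · have hkS : k ∉ S := fun h'' => h' (Finset.mem_insert_of_mem h'')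
        exact ((hu k hk).2 hkS).cross ho hcr

end Med

section action

variable {G V : Type} [Group G] [MulAction G V] {X : Med V}

theorem Med.Inv.smul_mem_VT (hG : X.Inv G) {T : Set (Set V)} (g : MulAction.stabilizer G T)
    {v : V} (hv : v ∈ X.VT T) : (g : G) • v ∈ X.VT T := by
  intro h hh
  rw [hG.mn_smul_left]
  refine hv _ ?_
  have h1 : (g : G) • T = T := g.2
  rw [← h1] at hh
  exact Set.mem_smul_set_iff_inv_smul_mem.1 hh

/-- The action of the stabilizer on `VT T`. -/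
@[instance_reducible]
def Med.Inv.actVT (hG : X.Inv G) (T : Set (Set V)) :
    MulAction (MulAction.stabilizer G T) (X.VT T) where
  smul g v := ⟨(g : G) • (v : V), hG.smul_mem_VT g v.2⟩
  one_smul v := Subtype.ext (one_smul G (v : V))
  mul_smul g g' v := Subtype.ext (mul_smul (g : G) (g' : G) (v : V))

theorem Med.Inv.smul_preimage (hG : X.Inv G) (T : Set (Set V)) (g : MulAction.stabilizer G T)
    (h : Set V) :
    letI := hG.actVT T
    g • (Subtype.val ⁻¹' h : Set (X.VT T)) = Subtype.val ⁻¹' ((g : G) • h) := by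
  let _ := hG.actVT T
  ext x
  rw [Set.mem_smul_set_iff_inv_smul_mem, Set.mem_preimage, Set.mem_preimage,
    Set.mem_smul_set_iff_inv_smul_mem]
  rfl

/-- The action on `VT T` is without inversions. -/
def Act.sub (A : Act G X) (T : Set (Set V)) :
    letI := A.inv.actVT T
    Act (MulAction.stabilizer G T) (X.sub T) := by
  letI := A.inv.actVT T
  have hsm : ∀ (g : MulAction.stabilizer G T), ∀ s ∈ (X.sub T).H, g • s ∈ (X.sub T).H := by
    rintro g s ⟨⟨h, hh, rfl⟩, h1, h2⟩
    refine ⟨⟨(g : G) • h, A.smul_mem _ h hh, A.inv.smul_preimage T g h⟩, h1.smul_set, ?_⟩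
    rw [← Set.smul_set_compl]
    exact h2.smul_set
  exact
    { smul_mem := hsm
      pos := {s | s ∈ (X.sub T).H ∧ ∃ h ∈ A.pos, s = Subtype.val ⁻¹' h}
      pos_sub := fun s hs => hs.1
      pos_smul := by
        rintro g s ⟨hs, h, hh, rfl⟩
        exact ⟨hsm g _ hs, (g : G) • h, A.pos_smul _ h hh, A.inv.smul_preimage T g h⟩
      pos_or := by
        rintro s hs
        obtain ⟨⟨h, hh, rfl⟩, ⟨v, hv⟩, ⟨w, hw⟩⟩ := hs
        constructor
        · rintro ⟨-, k, hk, hks⟩ ⟨-, k', hk', hks'⟩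
          have e1 : h = k := X.VT_inj hh (A.pos_sub k hk) (fun x hx => by
            have := Set.ext_iff.1 hks ⟨x, hx⟩
            exact this) v.2 w.2 hv hw
          have e2 : hᶜ = k' := X.VT_inj (X.compl h hh) (A.pos_sub k' hk') (fun x hx => by
            have := Set.ext_iff.1 hks' ⟨x, hx⟩
            exact this) w.2 v.2 hw (fun h' => h' hv)
          subst e1
          subst e2
          exact (A.pos_or h hh).1 hk hk'
        · intro hn
          by_contra hcon
          have h1 : h ∉ A.pos := fun h' => hcon ⟨⟨⟨h, hh, rfl⟩, ⟨v, hv⟩, ⟨w, hw⟩⟩, h, h', rfl⟩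
          have h2 : hᶜ ∈ A.pos := by
            by_contra h3
            exact h1 ((A.pos_or h hh).2 h3)
          refine hn ⟨⟨⟨hᶜ, X.compl h hh, rfl⟩, ⟨w, hw⟩, ⟨v, fun h' => h' hv⟩⟩, hᶜ, h2, rfl⟩ }

theorem Act.VT_nonempty (A : Act G X) {b v : V} {F : Set (Set V)} (hF : F ⊆ X.D b v) :
    (X.VT (A.abs F)).Nonempty := by
  classical
  have hfin : F.Finite := (X.D_fin b v).subset hF
  obtain ⟨u, hu⟩ := X.exists_flip (v := v) hfin.toFinset
    (fun h hh => (hF ((Set.Finite.mem_toFinset _).1 hh)).1)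
    (fun h hh k hk hne => X.D_cross (hF ((Set.Finite.mem_toFinset _).1 hh))
      (hF ((Set.Finite.mem_toFinset _).1 hk)) hne)
    (hfin.toFinset.filter fun h => h ∉ A.pos) (Finset.filter_subset _ _)
  refine ⟨u, ?_⟩
  rintro h ⟨hp, hh | hh⟩
  · refine (hu h ((Set.Finite.mem_toFinset _).2 hh)).2 fun h' => ?_
    exact (Finset.mem_filter.1 h').2 hp
  · have h1 := (hu hᶜ ((Set.Finite.mem_toFinset _).2 hh)).1 (by
      rw [Finset.mem_filter, Set.Finite.mem_toFinset]
      exact ⟨hh, (A.pos_or h (A.pos_sub h hp)).1 hp⟩)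
    rwa [compl_compl] at h1

theorem Act.abs_nonempty (A : Act G X) {b v : V} {F : Set (Set V)} (hF : F ⊆ X.D b v)
    (hne : F.Nonempty) : (A.abs F).Nonempty := by
  obtain ⟨h, hh⟩ := hne
  by_cases hp : h ∈ A.pos
  · exact ⟨h, hp, Or.inl hh⟩
  · refine ⟨hᶜ, ?_, Or.inr (by rwa [compl_compl])⟩
    by_contra h3
    exact hp ((A.pos_or h (hF hh).1.1).2 h3)

theorem Act.stab_le (A : Act G X) (F : Set (Set V)) :
    MulAction.stabilizer G F ≤ MulAction.stabilizer G (A.abs F) := by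
  intro g hg
  rw [MulAction.mem_stabilizer_iff] at hg ⊢
  rw [← A.abs_smul, hg]

end action

/-- `G` acts without inversions on a CAT(0) cube complex of dimension at most `N`, and all
stabilizers of vertices have the property `P`. -/
def CCN (P : (G : Type) → [Group G] → Prop) (N : ℕ) (G : Type) [Group G] : Prop :=
  ∃ (V : Type) (_ : MulAction G V) (X : Med V), Nonempty V ∧ Nonempty (Act G X) ∧ X.Dim N ∧
    ∀ v : V, P (MulAction.stabilizer G v)

/-- `P` passes to subgroups. -/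
def Sbg (P : (G : Type) → [Group G] → Prop) : Prop :=
  ∀ (G H : Type) [Group G] [Group H] (f : G →* H), Function.Injective f → P H → P G

theorem CCN.of_injective {P : (G : Type) → [Group G] → Prop} (hP : Sbg P) {N : ℕ} {G H : Type}
    [Group G] [Group H] (f : H →* G) (hf : Function.Injective f) (hG : CCN P N G) :
    CCN P N H := by
  obtain ⟨V, hV, X, hne, ⟨A⟩, hN, hst⟩ := hG
  let _ : MulAction H V := MulAction.compHom V f
  refine ⟨V, inferInstance, X, hne, ⟨{
    smul_mem := fun g h hh => A.smul_mem (f g) h hh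
    pos := A.pos
    pos_sub := A.pos_sub
    pos_smul := fun g h hh => A.pos_smul (f g) h hh
    pos_or := A.pos_or }⟩, hN, fun v => ?_⟩
  refine hP _ (MulAction.stabilizer G v)
    { toFun := fun g => ⟨f (g : H), g.2⟩
      map_one' := Subtype.ext (map_one f)
      map_mul' := fun a b => Subtype.ext (map_mul f (a : H) (b : H)) } ?_ (hst v)
  intro a b hab
  exact Subtype.ext (hf (congrArg Subtype.val hab))

/-- (G3) The stabilizer of a non-empty family acts on a complex of smaller dimension. -/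
theorem CCN.stab {P : (G : Type) → [Group G] → Prop} (hP : Sbg P) {N : ℕ} {G V : Type} [Group G]
    [MulAction G V] {X : Med V} (A : Act G X) (hN : X.Dim (N + 1))
    (hst : ∀ v : V, P (MulAction.stabilizer G v)) {b v : V} {F : Set (Set V)}
    (hF : F ⊆ X.D b v) (hne : F.Nonempty) : CCN P N (MulAction.stabilizer G (A.abs F)) := by
  let _ := A.inv.actVT (A.abs F)
  obtain ⟨u, hu⟩ := A.VT_nonempty hF
  refine ⟨X.VT (A.abs F), inferInstance, X.sub (A.abs F), ⟨⟨u, hu⟩⟩, ⟨A.sub (A.abs F)⟩,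
    X.sub_dim (A.abs_nonempty hF hne) hN, fun w => ?_⟩
  refine hP _ (MulAction.stabilizer G (w : V))
    { toFun := fun g => ⟨((g : MulAction.stabilizer G (A.abs F)) : G),
        congrArg Subtype.val g.2⟩
      map_one' := rfl
      map_mul' := fun a b => rfl } ?_ (hst w)
  intro a b hab
  have h1 : ((a : MulAction.stabilizer G (A.abs F)) : G) =
      ((b : MulAction.stabilizer G (A.abs F)) : G) :=
    congrArg (fun x : MulAction.stabilizer G (w : V) => (x : G)) hab
  exact Subtype.ext (Subtype.ext h1)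

/-- (G3) for the stabilizer of the family of half spaces itself, and all its subgroups. -/
theorem CCN.stab' {P : (G : Type) → [Group G] → Prop} (hP : Sbg P) {N : ℕ} {G V : Type} [Group G]
    [MulAction G V] {X : Med V} (A : Act G X) (hN : X.Dim (N + 1))
    (hst : ∀ v : V, P (MulAction.stabilizer G v)) {b v : V} {F : Set (Set V)}
    (hF : F ⊆ X.D b v) (hne : F.Nonempty) : CCN P N (MulAction.stabilizer G F) :=
  CCN.of_injective hP (Subgroup.inclusion (A.stab_le F)) (Subgroup.inclusion_injective _)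
    (CCN.stab hP A hN hst hF hne)

/-- In dimension `0` there is only one vertex. -/
theorem CCN.zero {P : (G : Type) → [Group G] → Prop} (hP : Sbg P) {G : Type} [Group G]
    (hG : CCN P 0 G) : P G := by
  obtain ⟨V, _, X, ⟨v⟩, -, hN, hst⟩ := hG
  have hall : ∀ w : V, w = v := by
    intro w
    have h1 := X.D_ncard hN v w
    rw [← X.D_eq_empty (b := v), ← Set.ncard_eq_zero (X.D_fin v w)]
    omega
  refine hP G (MulAction.stabilizer G v)
    { toFun := fun g => ⟨g, hall _⟩
      map_one' := rfl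
      map_mul' := fun a b => rfl } ?_ (hst v)
  intro a b hab
  exact congrArg Subtype.val hab

end Pool.Agent.CC
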