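import Pool.Agent.Lib.MP_8f66f0_al_CC.Geo

/-!
# Theorem CC, geometry: minimal half spaces, neighbours, the sets `D b v`
-/

set_option autoImplicit false

namespace Pool.Agent.CC

open scoped Pointwise

theorem Crs.symm {V : Type} {h k : Set V} (hc : Crs h k) : Crs k h :=
  ⟨by rw [Set.inter_comm]; exact hc.1, by rw [Set.inter_comm]; exact hc.2.2.1,
    by rw [Set.inter_comm]; exact hc.2.1, by rw [Set.inter_comm]; exact hc.2.2.2⟩

theorem Crs.compl_left {V : Type} {h k : Set V} (hc : Crs h k) : Crs hᶜ k := by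
  refine ⟨hc.2.2.1, hc.2.2.2, ?_, ?_⟩
  · rw [compl_compl]; exact hc.1
  · rw [compl_compl]; exact hc.2.1

theorem Crs.compl_right {V : Type} {h k : Set V} (hc : Crs h k) : Crs h kᶜ :=
  hc.symm.compl_left.symm

theorem Crs.ne {V : Type} {h k : Set V} (hc : Crs h k) : h ≠ k := by
  rintro rfl
  obtain ⟨x, hx, hx'⟩ := hc.2.1
  exact hx' hx

theorem Crs.ne_compl {V : Type} {h k : Set V} (hc : Crs h k) : h ≠ kᶜ := hc.compl_right.ne

namespace Med

variable {V : Type} (X : Med V)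

/-- The distance: the number of half spaces which contain `v` and not `u`. -/
noncomputable def dist (u v : V) : ℕ := {h | h ∈ X.H ∧ u ∉ h ∧ v ∈ h}.ncard

theorem exists_not_mem {h : Set V} (hh : h ∈ X.H) : ∃ v, v ∉ h := X.ne _ (X.compl h hh)

theorem compl_mem_iff {h : Set V} : hᶜ ∈ X.H ↔ h ∈ X.H :=
  ⟨fun h1 => by have := X.compl _ h1; rwa [compl_compl] at this, X.compl h⟩

theorem dist_self (v : V) : X.dist v v = 0 := by
  have : {h | h ∈ X.H ∧ v ∉ h ∧ v ∈ h} = ∅ := by
    ext h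
    simp only [Set.mem_ofPred_eq, Set.mem_empty_iff_false, iff_false]
    rintro ⟨_, h1, h2⟩
    exact h1 h2
  rw [dist, this, Set.ncard_empty]

/-- Different points are separated by a half space. -/
theorem exists_sep {u v : V} (huv : u ≠ v) : ∃ h ∈ X.H, u ∉ h ∧ v ∈ h := by
  by_contra hcon
  push Not at hcon
  refine huv (X.sep u v fun h hh => ⟨fun hu => ?_, fun hv => ?_⟩)
  · by_contra hv
    exact hcon hᶜ (X.compl h hh) (fun h' => h' hu) hv
  · by_contra hu
    exact hcon h hh hu hv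

/-! ### neighbours -/

theorem Opp.symm {X : Med V} {h : Set V} {v w : V} (ho : X.Opp h v w) : X.Opp h w v :=
  ⟨ho.1, by have := ho.2.1; tauto, fun k hk h1 h2 => (ho.2.2 k hk h1 h2).symm⟩

theorem Opp.compl {X : Med V} {h : Set V} {v w : V} (ho : X.Opp h v w) : X.Opp hᶜ v w :=
  ⟨X.compl h ho.1, by have := ho.2.1; simp only [Set.mem_compl_iff]; tauto,
    fun k hk h1 h2 => ho.2.2 k hk (fun h' => h2 (by rw [h', compl_compl])) h1⟩

theorem opp_compl_iff {h : Set V} {v w : V} : X.Opp hᶜ v w ↔ X.Opp h v w :=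
  ⟨fun h1 => by have := h1.compl; rwa [compl_compl] at this, Opp.compl⟩

theorem Opp.unique {X : Med V} {h : Set V} {v w w' : V} (h1 : X.Opp h v w) (h2 : X.Opp h v w') :
    w = w' := by
  refine X.sep w w' fun k hk => ?_
  by_cases hkh : k = h
  · subst hkh
    have := h1.2.1
    have := h2.2.1
    tauto
  · by_cases hkc : k = hᶜ
    · subst hkc
      have := h1.2.1
      have := h2.2.1
      simp only [Set.mem_compl_iff]
      tauto
    · exact (h1.2.2 k hk hkh hkc).symm.trans (h2.2.2 k hk hkh hkc)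

theorem Opp.ne {X : Med V} {h : Set V} {v w : V} (ho : X.Opp h v w) : v ≠ w := by
  rintro rfl
  have := ho.2.1
  tauto

/-- A half space which separates neighbours is one of the two sides of the wall. -/
theorem Opp.eq_of_sep {X : Med V} {h k : Set V} {v w : V} (ho : X.Opp h v w) (hk : k ∈ X.H)
    (hs : ¬ (v ∈ k ↔ w ∈ k)) : k = h ∨ k = hᶜ := by
  by_contra hcon
  rw [not_or] at hcon
  exact hs (ho.2.2 k hk hcon.1 hcon.2)

/-- The wall between two neighbours is unique. -/
theorem Opp.wall_unique {X : Med V} {h k : Set V} {v w : V} (ho : X.Opp h v w)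
    (ho' : X.Opp k v w) : k = h ∨ k = hᶜ :=
  ho.eq_of_sep ho'.1 (by have := ho'.2.1; tauto)

theorem Opp.mn {X : Med V} {h : Set V} {v w : V} (ho : X.Opp h v w) (hv : v ∈ h) : X.Mn v h := by
  refine ⟨ho.1, hv, fun k hk hvk hkh => ?_⟩
  have hw : w ∉ h := ho.2.1.1 hv
  rcases ho.eq_of_sep hk (by have : w ∉ k := fun h' => hw (hkh h'); tauto) with h1 | h1
  · exact h1
  · subst h1
    exact absurd hv hvk

/-- (a) A minimal half space has a neighbour on the other side. -/
theorem Mn.exists_opp {X : Med V} {v : V} {h : Set V} (hm : X.Mn v h) :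
    ∃ w, w ∉ h ∧ X.Opp h v w := by
  obtain ⟨w, hw, hmin⟩ := (measure (fun w => X.dist v w)).wf.has_min {w | w ∉ h}
    (X.exists_not_mem hm.1)
  have key : ∀ k ∈ X.H, k ≠ hᶜ → ¬ (v ∉ k ∧ w ∈ k) := by
    rintro k hk hkc ⟨hvk, hwk⟩
    have hsub : ¬ (kᶜ ⊆ h) := by
      intro hs
      apply hkc
      rw [← hm.2.2 kᶜ (X.compl k hk) hvk hs, compl_compl]
    obtain ⟨u, huk, huh⟩ := Set.not_subset.1 hsub
    obtain ⟨m, hmed⟩ := X.med v w u
    have hmh : m ∉ h := (hmed hᶜ (X.compl h hm.1)).2.2 hw huh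
    have hmk : m ∉ k := (hmed kᶜ (X.compl k hk)).2.1 hvk huk
    have hlt : X.dist v m < X.dist v w := by
      unfold dist
      refine Set.ncard_lt_ncard ?_ (X.fin v w)
      rw [Set.ssubset_iff_of_subset]
      · exact ⟨k, ⟨hk, hvk, hwk⟩, fun h' => hmk h'.2.2⟩
      · rintro j ⟨hj, hvj, hmj⟩
        refine ⟨hj, hvj, ?_⟩
        by_contra hwj
        exact (hmed jᶜ (X.compl j hj)).1 hvj hwj hmj
    exact hmin m hmh hlt
  refine ⟨w, hw, hm.1, ⟨fun _ => hw, fun _ => hm.2.1⟩, fun k hk hkh hkc => ?_⟩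
  constructor
  · intro hvk
    by_contra hwk
    refine key kᶜ (X.compl k hk) (fun h' => hkh ?_) ⟨fun h' => h' hvk, hwk⟩
    rw [← compl_compl k, h', compl_compl]
  · intro hwk
    by_contra hvk
    exact key k hk hkc ⟨hvk, hwk⟩

theorem mn_iff {v : V} {h : Set V} : X.Mn v h ↔ v ∈ h ∧ ∃ w, X.Opp h v w :=
  ⟨fun hm => ⟨hm.2.1, hm.exists_opp.imp fun _ h => h.2⟩, fun ⟨h1, _, h2⟩ => h2.mn h1⟩

theorem adj_iff {v : V} {h : Set V} : (∃ w, X.Opp h v w) ↔ X.Mn v h ∨ X.Mn v hᶜ := by
  constructor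
  · rintro ⟨w, ho⟩
    by_cases hv : v ∈ h
    · exact Or.inl (ho.mn hv)
    · exact Or.inr (ho.compl.mn hv)
  · rintro (h1 | h1)
    · exact h1.exists_opp.imp fun _ h => h.2
    · obtain ⟨w, _, ho⟩ := h1.exists_opp
      exact ⟨w, (X.opp_compl_iff).1 ho⟩

open Classical in
/-- The neighbour of `v` across the wall `h`, and `v` if there is none. -/
noncomputable def nb (h : Set V) (v : V) : V := if H : ∃ w, X.Opp h v w then H.choose else v

theorem Opp.nb {X : Med V} {h : Set V} {v w : V} (ho : X.Opp h v w) : X.nb h v = w := by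
  have H : ∃ w, X.Opp h v w := ⟨w, ho⟩
  rw [Med.nb, dif_pos H]
  exact H.choose_spec.unique ho

theorem nb_eq_self {h : Set V} {v : V} (hn : ¬ ∃ w, X.Opp h v w) : X.nb h v = v := by
  rw [nb, dif_neg hn]

theorem opp_nb {h : Set V} {v : V} (H : ∃ w, X.Opp h v w) : X.Opp h v (X.nb h v) := by
  obtain ⟨w, ho⟩ := H
  rw [ho.nb]
  exact ho

theorem nb_nb (h : Set V) (v : V) : X.nb h (X.nb h v) = v := by
  by_cases H : ∃ w, X.Opp h v w
  · obtain ⟨w, ho⟩ := H
    rw [ho.nb, ho.symm.nb]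
  · rw [X.nb_eq_self H, X.nb_eq_self H]

theorem nb_compl (h : Set V) (v : V) : X.nb hᶜ v = X.nb h v := by
  by_cases H : ∃ w, X.Opp h v w
  · obtain ⟨w, ho⟩ := H
    rw [ho.nb, ho.compl.nb]
  · rw [X.nb_eq_self H, X.nb_eq_self]
    rintro ⟨w, ho⟩
    exact H ⟨w, (X.opp_compl_iff).1 ho⟩

/-! ### the sets `D b v` -/

theorem D_cross {b v : V} {h k : Set V} (hh : h ∈ X.D b v) (hk : k ∈ X.D b v) (hne : h ≠ k) :
    Crs h k := by
  refine ⟨⟨v, hh.1.2.1, hk.1.2.1⟩, ?_, ?_, ⟨b, hh.2, hk.2⟩⟩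
  · by_contra hcon
    rw [Set.not_nonempty_iff_eq_empty, ← Set.sdiff_eq, Set.sdiff_eq_empty] at hcon
    exact hne (hk.1.2.2 h hh.1.1 hh.1.2.1 hcon)
  · by_contra hcon
    rw [Set.inter_comm, Set.not_nonempty_iff_eq_empty, ← Set.sdiff_eq, Set.sdiff_eq_empty] at hcon
    exact hne (hh.1.2.2 k hk.1.1 hk.1.2.1 hcon).symm

theorem D_ncard {N : ℕ} (hN : X.Dim N) (b v : V) : (X.D b v).ncard ≤ N := by
  classical
  have h1 := hN (X.D_fin b v).toFinset (fun h hh => by
    rw [Set.Finite.mem_toFinset] at hh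
    exact hh.1.1) (fun h hh k hk hne => by
    rw [Set.Finite.mem_toFinset] at hh hk
    exact X.D_cross hh hk hne)
  rwa [← Set.ncard_eq_toFinset_card _ (X.D_fin b v)] at h1

/-- (b) Every half space which contains `v` and not `b` contains an element of `D b v`. -/
theorem exists_D {b v : V} {k : Set V} (hk : k ∈ X.H) (hv : v ∈ k) (hb : b ∉ k) :
    ∃ h ∈ X.D b v, h ⊆ k := by
  have hfin : {h | (h ∈ X.H ∧ b ∉ h ∧ v ∈ h) ∧ h ⊆ k}.Finite :=
    (X.fin b v).subset fun h hh => hh.1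
  obtain ⟨h, hh, hmin⟩ := hfin.exists_minimal ⟨k, ⟨hk, hb, hv⟩, subset_rfl⟩
  refine ⟨h, ⟨⟨hh.1.1, hh.1.2.2, fun j hj hvj hjh => ?_⟩, hh.1.2.1⟩, hh.2⟩
  have h1 : j ∈ {h | (h ∈ X.H ∧ b ∉ h ∧ v ∈ h) ∧ h ⊆ k} :=
    ⟨⟨hj, fun h' => hh.1.2.1 (hjh h'), hvj⟩, hjh.trans hh.2⟩
  exact le_antisymm hjh (hmin h1 hjh)

theorem D_inj {b v v' : V} (h : X.D b v = X.D b v') : v = v' := by
  have key : ∀ v v' : V, X.D b v = X.D b v' → ∀ k ∈ X.H, b ∉ k → v ∈ k → v' ∈ k := by
    intro v v' h k hk hb hv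
    obtain ⟨j, hj, hjk⟩ := X.exists_D hk hv hb
    rw [h] at hj
    exact hjk hj.1.2.1
  refine X.sep v v' fun k hk => ?_
  by_cases hb : b ∈ k
  · have h1 := key v v' h kᶜ (X.compl k hk) (fun h' => h' hb)
    have h2 := key v' v h.symm kᶜ (X.compl k hk) (fun h' => h' hb)
    simp only [Set.mem_compl_iff] at h1 h2
    tauto
  · exact ⟨key v v' h k hk hb, key v' v h.symm k hk hb⟩

theorem D_self (b : V) : X.D b b = ∅ := by
  ext h
  simp only [Set.mem_empty_iff_false, iff_false]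
  rintro ⟨h1, h2⟩
  exact h2 h1.2.1

theorem D_eq_empty {b v : V} : X.D b v = ∅ ↔ v = b := by
  constructor
  · intro h
    exact X.D_inj (h.trans (X.D_self b).symm)
  · rintro rfl
    exact X.D_self v

theorem D_fin_sub (b : V) {F : Set (Set V)} (hF : F.Finite) : {v | X.D b v ⊆ F}.Finite := by
  have h1 : (F.powerset).Finite := hF.finite_subsets
  refine Set.Finite.of_finite_image (h1.subset ?_) (f := fun v => X.D b v) ?_
  · rintro _ ⟨v, hv, rfl⟩
    exact hv
  · intro v _ v' _ h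
    exact X.D_inj h

/-! ### crossing walls -/

/-- (c) Crossing a wall which crosses `k` does not change the minimality of `k`. -/
theorem Mn.cross {X : Med V} {h k : Set V} {v v' : V} (hk : X.Mn v k) (ho : X.Opp h v v')
    (hc : Crs h k) : X.Mn v' k := by
  have hv' : v' ∈ k := (ho.2.2 k hk.1 hc.ne.symm (fun h' => hc.ne_compl (by
    rw [h', compl_compl]))).1 hk.2.1
  refine ⟨hk.1, hv', fun j hj hvj hjk => ?_⟩
  by_cases hvj' : v ∈ j
  · exact hk.2.2 j hj hvj' hjk
  · exfalso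
    rcases ho.eq_of_sep hj (by tauto) with h1 | h1
    · subst h1
      obtain ⟨x, hx, hx'⟩ := hc.2.1
      exact hx' (hjk hx)
    · subst h1
      obtain ⟨x, hx, hx'⟩ := hc.2.2.2
      exact hx' (hjk hx)

/-- (c) for neighbours. -/
theorem Opp.cross {X : Med V} {h k : Set V} {v v' w : V} (hk : X.Opp k v w) (ho : X.Opp h v v')
    (hc : Crs h k) : X.Opp k v' (X.nb k v') := by
  refine X.opp_nb ?_
  rw [X.adj_iff]
  rcases (X.adj_iff).1 ⟨w, hk⟩ with h1 | h1
  · exact Or.inl (h1.cross ho hc)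
  · exact Or.inr (h1.cross ho hc.compl_right)

/-- The fourth vertex of a square. -/
theorem nb_comm {h k : Set V} (hc : Crs h k) (v : V) :
    X.nb h (X.nb k v) = X.nb k (X.nb h v) := by
  by_cases Hh : ∃ w, X.Opp h v w
  · by_cases Hk : ∃ w, X.Opp k v w
    · have oh := X.opp_nb Hh
      have ok := X.opp_nb Hk
      have oh' : X.Opp h (X.nb k v) (X.nb h (X.nb k v)) := oh.cross ok hc.symm
      have ok' : X.Opp k (X.nb h v) (X.nb k (X.nb h v)) := ok.cross oh hc
      refine X.sep _ _ fun j hj => ?_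
      by_cases j1 : j = h ∨ j = hᶜ
      · have e1 : (X.nb h v ∈ j ↔ X.nb k (X.nb h v) ∈ j) := by
          refine ok'.2.2 j hj ?_ ?_
          · rcases j1 with rfl | rfl
            · exact hc.ne
            · exact hc.compl_left.ne
          · rcases j1 with rfl | rfl
            · exact hc.ne_compl
            · exact hc.compl_left.ne_compl
        have e2 : (v ∈ j ↔ X.nb k v ∈ j) := by
          refine ok.2.2 j hj ?_ ?_
          · rcases j1 with rfl | rfl
            · exact hc.ne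
            · exact hc.compl_left.ne
          · rcases j1 with rfl | rfl
            · exact hc.ne_compl
            · exact hc.compl_left.ne_compl
        have e3 : (v ∈ j ↔ X.nb h v ∉ j) := by
          rcases j1 with rfl | rfl
          · exact oh.2.1
          · exact oh.compl.2.1
        have e4 : (X.nb k v ∈ j ↔ X.nb h (X.nb k v) ∉ j) := by
          rcases j1 with rfl | rfl
          · exact oh'.2.1
          · exact oh'.compl.2.1
        tauto
      · rw [not_or] at j1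
        have f1 : (v ∈ j ↔ X.nb h v ∈ j) := oh.2.2 j hj j1.1 j1.2
        have f2 : (X.nb k v ∈ j ↔ X.nb h (X.nb k v) ∈ j) := oh'.2.2 j hj j1.1 j1.2
        by_cases j2 : j = k ∨ j = kᶜ
        · have e3 : (v ∈ j ↔ X.nb k v ∉ j) := by
            rcases j2 with rfl | rfl
            · exact ok.2.1
            · exact ok.compl.2.1
          have e4 : (X.nb h v ∈ j ↔ X.nb k (X.nb h v) ∉ j) := by
            rcases j2 with rfl | rfl
            · exact ok'.2.1
            · exact ok'.compl.2.1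
          tauto
        · rw [not_or] at j2
          have g1 : (v ∈ j ↔ X.nb k v ∈ j) := ok.2.2 j hj j2.1 j2.2
          have g2 : (X.nb h v ∈ j ↔ X.nb k (X.nb h v) ∈ j) := ok'.2.2 j hj j2.1 j2.2
          tauto
    · rw [X.nb_eq_self Hk]
      refine (X.nb_eq_self ?_).symm
      rintro ⟨w, ho⟩
      apply Hk
      have oh := X.opp_nb Hh
      have := ho.cross oh.symm hc
      exact ⟨_, this⟩
  · rw [X.nb_eq_self Hh]
    by_cases Hk : ∃ w, X.Opp k v w
    · refine X.nb_eq_self ?_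
      rintro ⟨w, ho⟩
      apply Hh
      have ok := X.opp_nb Hk
      have := ho.cross ok.symm hc.symm
      exact ⟨_, this⟩
    · rw [X.nb_eq_self Hk, X.nb_eq_self Hh]

/-! ### change of the base point -/

/-- (d) The base point is moved across another wall. -/
theorem D_base {h a : Set V} {p q v : V} (hpq : X.Opp h p q) (ha : a ∈ X.D p v) (h1 : a ≠ h)
    (h2 : a ≠ hᶜ) : a ∈ X.D q v :=
  ⟨ha.1, fun h' => ha.2 ((hpq.2.2 a ha.1.1 h1 h2).2 h')⟩

/-- (d) The base point and the vertex are moved across the same wall. -/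
theorem D_move {h a : Set V} {p q v v' : V} (hpq : X.Opp h p q) (hv : X.Opp h v v')
    (ha : a ∈ X.D p v) (h1 : a ≠ h) (h2 : a ≠ hᶜ) : a ∈ X.D q v' := by
  have hqa : q ∉ a := (X.D_base hpq ha h1 h2).2
  have hva : v' ∈ a := (hv.2.2 a ha.1.1 h1 h2).1 ha.1.2.1
  refine ⟨⟨ha.1.1, hva, fun j hj hvj hja => ?_⟩, hqa⟩
  by_cases hvj' : v ∈ j
  · exact ha.1.2.2 j hj hvj' hja
  · exfalso
    have hpj : p ∉ j := fun h' => ha.2 (hja h')
    have hqj : q ∉ j := fun h' => hqa (hja h')
    have h3 := hpq.2.1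
    rcases hv.eq_of_sep hj (by tauto) with h4 | h4
    · subst h4
      tauto
    · subst h4
      simp only [Set.mem_compl_iff, not_not] at hpj hqj
      tauto

/-- (d) The wall itself. -/
theorem D_wall {h : Set V} {p q v v' : V} (hpq : X.Opp h p q) (hv : X.Opp h v v') :
    h ∈ X.D p v ↔ hᶜ ∈ X.D q v' := by
  have h1 := hpq.2.1
  have h2 := hv.2.1
  constructor
  · rintro ⟨ha, hb⟩
    refine ⟨hv.symm.compl.mn ?_, ?_⟩
    · exact h2.1 ha.2.1
    · simp only [Set.mem_compl_iff, not_not]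
      tauto
  · rintro ⟨ha, hb⟩
    have h3 : v' ∉ h := ha.2.1
    refine ⟨hv.mn (by tauto), ?_⟩
    simp only [Set.mem_compl_iff, not_not] at hb
    tauto

/-- (d) If `v` is not adjacent to the wall then nothing changes. -/
theorem D_not_adj {h : Set V} {p q v : V} (hpq : X.Opp h p q) (hv : ¬ ∃ w, X.Opp h v w) :
    X.D q v = X.D p v := by
  have key : ∀ p q : V, X.Opp h p q → X.D p v ⊆ X.D q v := by
    intro p q hpq a ha
    refine X.D_base hpq ha ?_ ?_
    · rintro rfl
      exact hv ((X.adj_iff).2 (Or.inl ha.1))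
    · rintro rfl
      exact hv ((X.adj_iff).2 (Or.inr ha.1))
  exact Set.Subset.antisymm (key q p hpq.symm) (key p q hpq)

/-! ### distances and paths -/

/-- Moving across an element of `D b v` decreases the distance from `b`. -/
theorem dist_lt {b v w : V} {h : Set V} (hh : h ∈ X.D b v) (ho : X.Opp h v w) :
    X.dist b w < X.dist b v := by
  unfold dist
  have hw : w ∉ h := ho.2.1.1 hh.1.2.1
  refine Set.ncard_lt_ncard ?_ (X.fin b v)
  rw [Set.ssubset_iff_of_subset]
  · exact ⟨h, ⟨hh.1.1, hh.2, hh.1.2.1⟩, fun h' => hw h'.2.2⟩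
  · rintro j ⟨hj, hbj, hwj⟩
    refine ⟨hj, hbj, ?_⟩
    by_contra hvj
    rcases ho.eq_of_sep hj (by tauto) with h1 | h1
    · subst h1
      exact hw hwj
    · subst h1
      exact hbj hh.2

/-- Induction along edges. -/
theorem path_induction (b : V) {C : V → Prop} (hb : C b)
    (hs : ∀ (h : Set V) (q r : V), C q → X.Opp h q r → C r) : ∀ q, C q := by
  intro q
  induction hn : X.dist b q using Nat.strong_induction_on generalizing q with
  | _ n ih =>
    by_cases hq : q = b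
    · rw [hq]
      exact hb
    · have hne : (X.D b q).Nonempty := by
        rw [Set.nonempty_iff_ne_empty]
        exact fun h => hq ((X.D_eq_empty).1 h)
      obtain ⟨h, hh⟩ := hne
      obtain ⟨w, _, ho⟩ := hh.1.exists_opp
      exact hs h w q (ih _ (hn ▸ X.dist_lt hh ho) w rfl) ho.symm

end Med

end Pool.Agent.CC
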