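import Pool.Agent.Lib.MP_8f66f0_al_CC.Geo.Smul
import Pool.Agent.Lib.MP_8f66f0_al_CC.GraphDefs

/-!
# Theorem CC, geometry: median graphs

A median graph is a connected graph in which any three vertices have a unique median (the
1-skeleta of CAT(0) cube complexes). The sets `W a b` of the vertices which are nearer to `a` than to
`b`, for the edges `{a, b}`, are the half spaces of a median structure.
-/

set_option autoImplicit false

namespace Pool.Agent.CC

open scoped Pointwise

namespace IsMedian

variable {V : Type} {G : SimpleGraph V} (hG : IsMedian G)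

/-- The vertices which are nearer to `a` than to `b`. -/
def W (G : SimpleGraph V) (a b : V) : Set V := {x | G.dist x a < G.dist x b}

include hG

theorem tri (x y z : V) : G.dist x z ≤ G.dist x y + G.dist y z := hG.conn.dist_triangle

theorem zero {x y : V} (h : G.dist x y = 0) : x = y := (hG.conn.dist_eq_zero_iff).1 h

omit hG in
theorem adj_one {x y : V} (h : G.Adj x y) : G.dist x y = 1 := SimpleGraph.dist_eq_one_iff_adj.2 h

omit hG in
theorem one_adj {x y : V} (h : G.dist x y = 1) : G.Adj x y := SimpleGraph.dist_eq_one_iff_adj.1 h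

/-- The first step of a geodesic. -/
theorem step {x y : V} (h : x ≠ y) : ∃ z, G.Adj x z ∧ G.dist z y + 1 = G.dist x y := by
  obtain ⟨p, hp⟩ := hG.conn.exists_walk_length_eq_dist x y
  cases p with
  | nil => exact absurd rfl h
  | @cons _ z _ hz q =>
    refine ⟨z, hz, ?_⟩
    rw [SimpleGraph.Walk.length_cons] at hp
    have h1 := SimpleGraph.dist_le q
    have h2 := hG.tri x z y
    have h3 := adj_one hz
    omega

/-- No vertex has the same distance to the ends of an edge. -/
theorem ne_dist {a b : V} (h : G.Adj a b) (x : V) : G.dist x a ≠ G.dist x b := by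
  intro he
  obtain ⟨m, ⟨h1, h2, h3⟩, -⟩ := hG.med x a b
  have h4 := adj_one h
  have h5 : G.dist a m = G.dist m a := SimpleGraph.dist_comm
  omega

theorem near {a b : V} (h : G.Adj a b) (x : V) :
    (G.dist x b = G.dist x a + 1 ∧ x ∈ W G a b ∧ x ∉ W G b a) ∨
      (G.dist x a = G.dist x b + 1 ∧ x ∈ W G b a ∧ x ∉ W G a b) := by
  have h1 := hG.ne_dist h x
  have h2 := hG.tri x a b
  have h3 := hG.tri x b a
  have h4 := adj_one h
  have h5 := adj_one h.symm
  unfold W
  simp only [Set.mem_ofPred_eq]
  omega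

theorem compl_W {a b : V} (h : G.Adj a b) : (W G a b)ᶜ = W G b a := by
  ext x
  rw [Set.mem_compl_iff]
  rcases hG.near h x with h1 | h1 <;> tauto

/-- The quadrangle condition. -/
theorem quad {x y w z : V} (hx : G.Adj w x) (hy : G.Adj w y) (hxy : x ≠ y)
    (h1 : G.dist z x = G.dist z y) :
    ∃ p, G.Adj p x ∧ G.Adj p y ∧ G.dist z p + 1 = G.dist z x := by
  have h2 : G.dist x y = 2 := by
    have e1 := hG.tri x w y
    have e2 := adj_one hx.symm
    have e3 := adj_one hy
    have e4 : G.dist x y ≠ 0 := fun h => hxy (hG.zero h)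
    have e5 : G.dist x y ≠ 1 := fun h => hG.ne_dist (one_adj h) z h1
    omega
  obtain ⟨p, ⟨h3, h4, h5⟩, -⟩ := hG.med x y z
  have c1 : G.dist y p = G.dist p y := SimpleGraph.dist_comm
  have c2 : G.dist y z = G.dist z y := SimpleGraph.dist_comm
  have c3 : G.dist x z = G.dist z x := SimpleGraph.dist_comm
  have c4 : G.dist p z = G.dist z p := SimpleGraph.dist_comm
  have c5 : G.dist p x = G.dist x p := SimpleGraph.dist_comm
  refine ⟨p, one_adj ?_, one_adj ?_, ?_⟩ <;> omega

/-- There is no complete bipartite subgraph `K_{2,3}`. -/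
theorem no_k23 {a a' b c d : V} (ha : a ≠ a') (hbc : b ≠ c) (hbd : b ≠ d) (hcd : c ≠ d)
    (h1 : G.Adj a b) (h2 : G.Adj a c) (h3 : G.Adj a d) (h1' : G.Adj a' b) (h2' : G.Adj a' c)
    (h3' : G.Adj a' d) : False := by
  have key : ∀ {x y : V}, x ≠ y → G.Adj a x → G.Adj a y → G.dist x y = 2 := by
    intro x y hxy hx hy
    have e1 := hG.tri x a y
    have e2 := adj_one hx.symm
    have e3 := adj_one hy
    have e4 : G.dist x y ≠ 0 := fun h => hxy (hG.zero h)
    have e5 : G.dist x y ≠ 1 := fun h => hG.ne_dist (one_adj h) a (by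
      rw [adj_one hx, adj_one hy])
    omega
  have k1 := key hbc h1 h2
  have k2 := key hcd h2 h3
  have k3 := key hbd h1 h3
  obtain ⟨m, -, hm⟩ := hG.med b c d
  have m1 := hm a ⟨by rw [adj_one h1.symm, adj_one h2, k1], by rw [adj_one h2.symm, adj_one h3, k2],
    by rw [adj_one h1.symm, adj_one h3, k3]⟩
  have m2 := hm a' ⟨by rw [adj_one h1'.symm, adj_one h2', k1],
    by rw [adj_one h2'.symm, adj_one h3', k2], by rw [adj_one h1'.symm, adj_one h3', k3]⟩
  exact ha (m1.trans m2.symm)

/-- Opposite edges of a square. -/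
theorem square {a b b1 a1 : V} (h1 : G.Adj a b) (h2 : G.Adj b b1) (h3 : G.Adj b1 a1)
    (h4 : G.Adj a1 a) (n1 : a ≠ b1) (n2 : b ≠ a1) : W G a b ⊆ W G a1 b1 := by
  intro x hx
  by_contra hcon
  have e1 := hG.near h1 x
  have e2 := hG.near h3 x
  have e3 := hG.near h4 x
  have e4 := hG.near h2 x
  have f1 : G.dist x b = G.dist x a + 1 := by
    rcases e1 with e | e
    · exact e.1
    · exact absurd hx e.2.2
  have f2 : G.dist x a1 = G.dist x b1 + 1 := by
    rcases e2 with e | e
    · exact e.1
    · exact absurd e.2.1 hcon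
  have f3 : G.dist x a = G.dist x b1 := by
    rcases e3 with e | e <;> rcases e4 with e' | e' <;> omega
  obtain ⟨c, hc1, hc2, hc3⟩ := hG.quad (z := x) h1.symm h2 n1 f3
  refine hG.no_k23 n1 n2 (d := c) ?_ ?_ h1 h4.symm hc1.symm h2.symm h3 hc2.symm
  · rintro rfl
    omega
  · rintro rfl
    omega

/-- Edges which cross the boundary of `W a b` have the same half spaces. -/
theorem ladder_aux : ∀ (k : ℕ) (a b p p' : V), G.Adj a b → G.Adj p p' → G.dist p a = k →
    p ∈ W G a b → p' ∈ W G b a → W G a b ⊆ W G p p' := by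
  intro k
  induction k with
  | zero =>
    intro a b p p' hab hp hk h1 h2
    have e1 : p = a := hG.zero hk
    subst e1
    have e2 : G.dist p' b < G.dist p' p := h2
    rw [adj_one hp.symm] at e2
    have e3 : p' = b := hG.zero (by omega)
    subst e3
    exact subset_rfl
  | succ k ih =>
    intro a b p p' hab hp hk h1 h2
    have c1 : G.dist p b = G.dist p a + 1 := by
      rcases hG.near hab p with e | e
      · exact e.1
      · exact absurd h1 e.2.2
    have c2 : G.dist p' a = G.dist p' b + 1 := by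
      rcases hG.near hab p' with e | e
      · exact absurd h2 e.2.2
      · exact e.1
    have c3 : G.dist p' b = k + 1 := by
      have t1 := hG.tri p' p a
      have t2 := hG.tri p p' b
      have t3 := adj_one hp
      have t4 := adj_one hp.symm
      omega
    have hne : a ≠ p := by
      rintro rfl
      rw [SimpleGraph.dist_self] at hk
      omega
    obtain ⟨a1, ha1, ha1'⟩ := hG.step hne
    have s1 : G.dist a p = G.dist p a := SimpleGraph.dist_comm
    have s2 : G.dist a1 p = G.dist p a1 := SimpleGraph.dist_comm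
    have c4 : G.dist p' a1 = k + 1 := by
      have t1 := hG.tri p' p a1
      have t2 := hG.tri p' a1 a
      have t3 := adj_one hp.symm
      have t4 := adj_one ha1.symm
      omega
    have n1 : b ≠ a1 := by
      rintro rfl
      omega
    obtain ⟨b1, hb1, hb1', hb1''⟩ := hG.quad (z := p') ha1 hab n1.symm (by omega)
    have n2 : a ≠ b1 := by
      rintro rfl
      omega
    have sq := hG.square hab hb1'.symm hb1 ha1.symm n2 n1
    refine sq.trans (ih a1 b1 p p' hb1.symm hp (by omega) (sq h1) ?_)
    change G.dist p' b1 < G.dist p' a1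
    omega

theorem ladder {a b p p' : V} (hab : G.Adj a b) (hp : G.Adj p p') (h1 : p ∈ W G a b)
    (h2 : p' ∉ W G a b) : W G a b = W G p p' := by
  have h2' : p' ∈ W G b a := by
    rw [← hG.compl_W hab]
    exact h2
  refine Set.Subset.antisymm (hG.ladder_aux _ a b p p' hab hp rfl h1 h2') ?_
  have h3 := hG.ladder_aux _ b a p' p hab.symm hp.symm rfl h2' h1
  rw [← hG.compl_W hab, ← hG.compl_W hp] at h3
  exact Set.compl_subset_compl.1 h3

/-- A geodesic which leaves `S` crosses the boundary. -/
theorem cross_aux (S : Set V) : ∀ (n : ℕ) (x z : V), G.dist x z = n → x ∈ S → z ∉ S →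
    ∃ p p', G.Adj p p' ∧ p ∈ S ∧ p' ∉ S ∧ G.dist x p + 1 + G.dist p' z = G.dist x z := by
  intro n
  induction n with
  | zero =>
    intro x z h hx hz
    exact absurd (hG.zero h ▸ hx) hz
  | succ n ih =>
    intro x z h hx hz
    have hne : x ≠ z := by
      rintro rfl
      exact hz hx
    obtain ⟨x1, h1, h2⟩ := hG.step hne
    by_cases hx1 : x1 ∈ S
    · obtain ⟨p, p', h3, h4, h5, h6⟩ := ih x1 z (by omega) hx1 hz
      refine ⟨p, p', h3, h4, h5, ?_⟩
      have t1 := hG.tri x x1 p
      have t2 := adj_one h1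
      have t3 := hG.tri x p z
      have t4 := hG.tri p p' z
      have t5 := adj_one h3
      omega
    · exact ⟨x, x1, h1, hx, hx1, by rw [SimpleGraph.dist_self]; omega⟩

/-- Half spaces are convex. -/
theorem convex {a b x y z : V} (hab : G.Adj a b) (hx : x ∈ W G a b) (hy : y ∈ W G a b)
    (hz : G.dist x z + G.dist z y = G.dist x y) : z ∈ W G a b := by
  by_contra hcon
  obtain ⟨p, p', h1, h2, h3, h4⟩ := hG.cross_aux (W G a b) _ x z rfl hx hcon
  rw [hG.ladder hab h1 h2 h3] at hy
  have h5 : G.dist y p < G.dist y p' := hy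
  have t1 := hG.tri x p y
  have t2 := hG.tri p' z y
  have s1 : G.dist y p = G.dist p y := SimpleGraph.dist_comm
  have s2 : G.dist y p' = G.dist p' y := SimpleGraph.dist_comm
  omega

theorem fin_aux : ∀ (n : ℕ) (u v : V), G.dist u v = n →
    {h | (∃ a b, G.Adj a b ∧ h = W G a b) ∧ u ∉ h ∧ v ∈ h}.Finite := by
  intro n
  induction n with
  | zero =>
    intro u v h
    have : u = v := hG.zero h
    subst this
    refine Set.Finite.subset Set.finite_empty ?_
    rintro h ⟨-, h1, h2⟩
    exact h1 h2
  | succ n ih =>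
    intro u v h
    have hne : u ≠ v := by
      rintro rfl
      rw [SimpleGraph.dist_self] at h
      omega
    obtain ⟨u1, h1, h2⟩ := hG.step hne
    refine ((ih u1 v (by omega)).union (Set.finite_singleton (W G u1 u))).subset ?_
    rintro h ⟨⟨a, b, hab, rfl⟩, h3, h4⟩
    by_cases h5 : u1 ∈ W G a b
    · exact Or.inr (hG.ladder hab h1.symm h5 h3)
    · exact Or.inl ⟨⟨a, b, hab, rfl⟩, h5, h4⟩

theorem sep_aux {u v : V} (h : u ≠ v) : ∃ a b, G.Adj a b ∧ u ∈ W G a b ∧ v ∉ W G a b := by
  obtain ⟨u1, h1, h2⟩ := hG.step h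
  refine ⟨u, u1, h1, ?_, ?_⟩
  · change G.dist u u < G.dist u u1
    rw [SimpleGraph.dist_self, adj_one h1]
    exact one_pos
  · change ¬ (G.dist v u < G.dist v u1)
    have s1 : G.dist v u = G.dist u v := SimpleGraph.dist_comm
    have s2 : G.dist v u1 = G.dist u1 v := SimpleGraph.dist_comm
    omega

/-- The median structure of a median graph. -/
def toMed : Med V where
  H := {h | ∃ a b, G.Adj a b ∧ h = W G a b}
  compl := by
    rintro h ⟨a, b, hab, rfl⟩
    exact ⟨b, a, hab.symm, hG.compl_W hab⟩
  ne := by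
    rintro h ⟨a, b, hab, rfl⟩
    refine ⟨a, ?_⟩
    change G.dist a a < G.dist a b
    rw [SimpleGraph.dist_self, adj_one hab]
    exact one_pos
  fin u v := hG.fin_aux _ u v rfl
  sep := by
    intro u v h
    by_contra hne
    obtain ⟨a, b, hab, h1, h2⟩ := hG.sep_aux hne
    exact h2 ((h _ ⟨a, b, hab, rfl⟩).1 h1)
  med := by
    intro u v w
    obtain ⟨m, ⟨h1, h2, h3⟩, -⟩ := hG.med u v w
    refine ⟨m, ?_⟩
    rintro h ⟨a, b, hab, rfl⟩
    exact ⟨fun hu hv => hG.convex hab hu hv h1, fun hu hw => hG.convex hab hu hw h3,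
      fun hv hw => hG.convex hab hv hw h2⟩

theorem mem_H {h : Set V} : h ∈ hG.toMed.H ↔ ∃ a b, G.Adj a b ∧ h = W G a b := Iff.rfl

end IsMedian

end Pool.Agent.CC
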