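import Pool.Agent.Lib.MP_8f66f0_al_CC.Geo.Smul

/-!
# Theorem CC, geometry: cubes and the cubical subdivision

The cubes of `X` are the vertices of a new median structure `X.sbd` (the cubical subdivision). Its half
spaces are `A k` (the cubes inside `k`) and `B k` (the cubes which meet `k`). Every action on `X` becomes
an action without inversions on `X.sbd`, and the dimension does not increase.
-/

set_option autoImplicit false

namespace Pool.Agent.CC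

open scoped Pointwise

namespace Med

variable {V : Type} (X : Med V)

/-- The cube at the vertex `v` with the walls in `F`. -/
def cube (v : V) (F : Set (Set V)) : Set V := {w | ∀ k ∈ X.H, v ∈ k → w ∉ k → k ∈ F}

/-- Cubes: the walls are finitely many pairwise crossing half spaces which are minimal at `v`. -/
def IsCube (c : Set V) : Prop :=
  ∃ (v : V) (F : Set (Set V)), F.Finite ∧ (∀ h ∈ F, X.Mn v h) ∧
    (∀ h ∈ F, ∀ k ∈ F, h ≠ k → Crs h k) ∧ c = X.cube v F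

variable {X}

theorem mem_cube_self (v : V) (F : Set (Set V)) : v ∈ X.cube v F := fun _ _ h1 h2 => absurd h1 h2

theorem IsCube.nonempty {c : Set V} (hc : X.IsCube c) : c.Nonempty := by
  obtain ⟨v, F, _, _, _, rfl⟩ := hc
  exact ⟨v, mem_cube_self v F⟩

theorem cube_wall {v : V} {F : Set (Set V)} {k : Set V} (hk : k ∈ X.H)
    (h1 : (X.cube v F ∩ k).Nonempty) (h2 : (X.cube v F ∩ kᶜ).Nonempty) : k ∈ F ∨ kᶜ ∈ F := by
  obtain ⟨w1, hw1, hw1'⟩ := h1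
  obtain ⟨w2, hw2, hw2'⟩ := h2
  by_cases hv : v ∈ k
  · exact Or.inl (hw2 k hk hv hw2')
  · exact Or.inr (hw1 kᶜ (X.compl k hk) hv (fun h => h hw1'))

theorem IsCube.cross {c : Set V} (hc : X.IsCube c) {k j : Set V} (hk : k ∈ X.H) (hj : j ∈ X.H)
    (h1 : (c ∩ k).Nonempty) (h2 : (c ∩ kᶜ).Nonempty) (h3 : (c ∩ j).Nonempty)
    (h4 : (c ∩ jᶜ).Nonempty) (hne : k ≠ j) (hnc : k ≠ jᶜ) : Crs k j := by
  obtain ⟨v, F, _, _, hF, rfl⟩ := hc
  have hne' : kᶜ ≠ jᶜ := fun h => hne (compl_injective h)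
  have hnc' : kᶜ ≠ j := fun h => hnc (by rw [← h, compl_compl])
  rcases cube_wall hk h1 h2 with h5 | h5 <;> rcases cube_wall hj h3 h4 with h6 | h6
  · exact hF _ h5 _ h6 hne
  · have := (hF _ h5 _ h6 hnc).compl_right
    rwa [compl_compl] at this
  · have := (hF _ h5 _ h6 hnc').compl_left
    rwa [compl_compl] at this
  · have := (hF _ h5 _ h6 hne').compl_left.compl_right
    rwa [compl_compl, compl_compl] at this

theorem IsCube.fin {c : Set V} (hc : X.IsCube c) :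
    {k | k ∈ X.H ∧ (c ∩ k).Nonempty ∧ (c ∩ kᶜ).Nonempty}.Finite := by
  obtain ⟨v, F, hf, _, _, rfl⟩ := hc
  refine (hf.union (hf.image fun k => kᶜ)).subset ?_
  rintro k ⟨hk, h1, h2⟩
  rcases cube_wall hk h1 h2 with h | h
  · exact Or.inl h
  · exact Or.inr ⟨kᶜ, h, compl_compl k⟩

/-- A cube is an intersection of half spaces. -/
theorem IsCube.mem_iff {c : Set V} (hc : X.IsCube c) {w : V} :
    w ∈ c ↔ ∀ k ∈ X.H, c ⊆ k → w ∈ k := by
  refine ⟨fun hw k _ h => h hw, fun h => ?_⟩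
  obtain ⟨v, F, _, _, _, rfl⟩ := hc
  intro k hk hvk hwk
  by_contra hkF
  refine hwk (h k hk fun w' hw' => ?_)
  by_contra hw'k
  exact hkF (hw' k hk hvk hw'k)

theorem cube_empty (v : V) : X.cube v ∅ = {v} := by
  ext w
  rw [Set.mem_singleton_iff]
  constructor
  · intro hw
    refine X.sep w v fun k hk => ⟨fun h => ?_, fun h => ?_⟩
    · by_contra hv
      exact hw kᶜ (X.compl k hk) hv (fun h' => h' h)
    · by_contra hv
      exact hw k hk h hv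
  · rintro rfl
    exact mem_cube_self w ∅

theorem isCube_single (v : V) : X.IsCube {v} :=
  ⟨v, ∅, Set.finite_empty, by simp, by simp, (cube_empty v).symm⟩

/-- The distance to a point decreases when we pass to a median on the other side of a wall. -/
theorem med_dist_lt {v w m : V} {j : Set V} (hj : j ∈ X.H)
    (hmed : ∀ h ∈ X.H, v ∈ h → w ∈ h → m ∈ h) (hvj : v ∈ j) (hwj : w ∉ j) (hmj : m ∉ j) :
    X.dist m w < X.dist v w := by
  unfold dist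
  refine Set.ncard_lt_ncard ?_ (X.fin v w)
  rw [Set.ssubset_iff_of_subset]
  · exact ⟨jᶜ, ⟨X.compl j hj, fun h => h hvj, hwj⟩, fun h => h.2.1 hmj⟩
  · rintro h ⟨hh, hm, hw⟩
    exact ⟨hh, fun hv => hm (hmed h hh hv hw), hw⟩

/-- Every half space is minimal somewhere. -/
theorem exists_mn {k : Set V} (hk : k ∈ X.H) : ∃ v, X.Mn v k := by
  obtain ⟨v0, hv0⟩ := X.ne k hk
  obtain ⟨w, hw⟩ := X.exists_not_mem hk
  obtain ⟨v, hv, hmin⟩ := (measure (fun v => X.dist v w)).wf.has_min {v | v ∈ k} ⟨v0, hv0⟩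
  refine ⟨v, hk, hv, fun j hj hvj hjk => ?_⟩
  by_contra hne
  obtain ⟨u, huk, huj⟩ := Set.not_subset.1 (fun h => hne (Set.Subset.antisymm hjk h))
  obtain ⟨m, hmed⟩ := X.med v w u
  have hwj : w ∉ j := fun h => hw (hjk h)
  have hmk : m ∈ k := (hmed k hk).2.1 hv huk
  have hmj : m ∉ j := (hmed jᶜ (X.compl j hj)).2.2 hwj huj
  exact hmin m hmk (med_dist_lt hj (fun h hh => (hmed h hh).1) hvj hwj hmj)

/-- Every wall crosses some cube. -/
theorem exists_cube_cross {k : Set V} (hk : k ∈ X.H) :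
    ∃ c, X.IsCube c ∧ (c ∩ k).Nonempty ∧ (c ∩ kᶜ).Nonempty := by
  obtain ⟨v, hv⟩ := exists_mn hk
  obtain ⟨w, hw, ho⟩ := hv.exists_opp
  refine ⟨X.cube v {k}, ⟨v, {k}, Set.finite_singleton k, ?_, ?_, rfl⟩,
    ⟨v, mem_cube_self _ _, hv.2.1⟩, ⟨w, ?_, hw⟩⟩
  · rintro h rfl
    exact hv
  · rintro h rfl j rfl hne
    exact absurd rfl hne
  · intro j hj hvj hwj
    rcases ho.eq_of_sep hj (by tauto) with h | h
    · exact h
    · subst h
      exact absurd hv.2.1 hvj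

/-- Cubes are finite. -/
theorem IsCube.finite {c : Set V} (hc : X.IsCube c) : c.Finite := by
  obtain ⟨v, F, hf, hm, _, rfl⟩ := hc
  refine Set.Finite.of_finite_image (f := fun w => {k | k ∈ F ∧ w ∉ k})
    (hf.finite_subsets.subset ?_) ?_
  · rintro _ ⟨w, _, rfl⟩
    exact fun k hk => hk.1
  · intro w hw w' hw' h
    have key : ∀ w w' : V, w ∈ X.cube v F → {k | k ∈ F ∧ w ∉ k} = {k | k ∈ F ∧ w' ∉ k} →
        ∀ k ∈ X.H, v ∈ k → w ∉ k → w' ∉ k := by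
      intro w w' hw h k hk hvk hwk
      have h1 : k ∈ {k | k ∈ F ∧ w ∉ k} := ⟨hw k hk hvk hwk, hwk⟩
      rw [h] at h1
      exact h1.2
    have k1 := key w w' hw h
    have k2 := key w' w hw' h.symm
    refine X.sep w w' fun k hk => ?_
    by_cases hv : v ∈ k
    · have := k1 k hk hv
      have := k2 k hk hv
      tauto
    · have := k1 kᶜ (X.compl k hk) hv
      have := k2 kᶜ (X.compl k hk) hv
      simp only [Set.mem_compl_iff, not_not] at *
      tauto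

/-! ### the median of three cubes -/

/-- At least two of the three sets meet `k`. -/
def Two (c1 c2 c3 k : Set V) : Prop :=
  ((c1 ∩ k).Nonempty ∧ (c2 ∩ k).Nonempty) ∨ ((c1 ∩ k).Nonempty ∧ (c3 ∩ k).Nonempty) ∨
    ((c2 ∩ k).Nonempty ∧ (c3 ∩ k).Nonempty)

/-- The walls of the median cube. -/
def Zr (c1 c2 c3 k : Set V) : Prop := Two c1 c2 c3 k ∧ Two c1 c2 c3 kᶜ

theorem Zr.compl {c1 c2 c3 k : Set V} (h : Zr c1 c2 c3 k) : Zr c1 c2 c3 kᶜ :=
  ⟨h.2, by rw [compl_compl]; exact h.1⟩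

theorem two_cases {c1 c2 c3 k j : Set V} (h1 : Two c1 c2 c3 k) (h2 : Two c1 c2 c3 j) :
    ((c1 ∩ k).Nonempty ∧ (c1 ∩ j).Nonempty) ∨ ((c2 ∩ k).Nonempty ∧ (c2 ∩ j).Nonempty) ∨
      ((c3 ∩ k).Nonempty ∧ (c3 ∩ j).Nonempty) := by
  unfold Two at h1 h2
  tauto

theorem Zr.not_sub {c1 c2 c3 k j : Set V} (H1 : X.IsCube c1) (H2 : X.IsCube c2)
    (H3 : X.IsCube c3) (hk : k ∈ X.H) (hj : j ∈ X.H) (zk : Zr c1 c2 c3 k) (zj : Zr c1 c2 c3 j)
    (hne : j ≠ k) : ¬ j ⊆ k := by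
  intro hs
  have key : ∀ c, X.IsCube c → (c ∩ j).Nonempty → (c ∩ kᶜ).Nonempty → False := by
    intro c hc h1 h2
    have h3 : (c ∩ k).Nonempty := h1.mono (Set.inter_subset_inter_right c hs)
    have h4 : (c ∩ jᶜ).Nonempty :=
      h2.mono (Set.inter_subset_inter_right c (Set.compl_subset_compl.2 hs))
    have h5 : j ≠ kᶜ := by
      rintro rfl
      obtain ⟨x, hx⟩ := X.ne _ hj
      exact hx (hs hx)
    have h6 := hc.cross hj hk h1 h4 h3 h2 hne h5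
    obtain ⟨x, hx1, hx2⟩ := h6.2.1
    exact hx2 (hs hx1)
  rcases two_cases zj.1 zk.2 with h | h | h
  · exact key c1 H1 h.1 h.2
  · exact key c2 H2 h.1 h.2
  · exact key c3 H3 h.1 h.2

theorem Zr.cross {c1 c2 c3 k j : Set V} (H1 : X.IsCube c1) (H2 : X.IsCube c2)
    (H3 : X.IsCube c3) (hk : k ∈ X.H) (hj : j ∈ X.H) (zk : Zr c1 c2 c3 k) (zj : Zr c1 c2 c3 j)
    (hne : j ≠ k) (hnc : j ≠ kᶜ) : Crs k j := by
  have hk' := X.compl k hk
  have hj' := X.compl j hj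
  have hne' : jᶜ ≠ kᶜ := fun h => hne (compl_injective h)
  have hnc' : jᶜ ≠ k := fun h => hnc (by rw [← h, compl_compl])
  refine ⟨?_, ?_, ?_, ?_⟩
  · by_contra h
    rw [Set.not_nonempty_iff_eq_empty, ← Set.disjoint_iff_inter_eq_empty] at h
    exact zk.compl.not_sub H1 H2 H3 hk' hj zj hnc (Set.disjoint_left.1 h.symm)
  · by_contra h
    rw [Set.not_nonempty_iff_eq_empty, ← Set.sdiff_eq, Set.sdiff_eq_empty] at h
    exact zj.not_sub H1 H2 H3 hj hk zk hne.symm h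
  · by_contra h
    rw [Set.inter_comm, Set.not_nonempty_iff_eq_empty, ← Set.sdiff_eq, Set.sdiff_eq_empty] at h
    exact zk.not_sub H1 H2 H3 hk hj zj hne h
  · by_contra h
    rw [Set.inter_comm, Set.not_nonempty_iff_eq_empty, ← Set.sdiff_eq, Set.sdiff_eq_empty] at h
    exact zk.not_sub H1 H2 H3 hk hj' zj.compl hnc' h

theorem not_two_compl {c1 c2 c3 k : Set V} :
    ¬ Two c1 c2 c3 kᶜ ↔ (c1 ⊆ k ∧ c2 ⊆ k) ∨ (c1 ⊆ k ∧ c3 ⊆ k) ∨ (c2 ⊆ k ∧ c3 ⊆ k) := by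
  have key : ∀ c : Set V, (c ∩ kᶜ).Nonempty ↔ ¬ c ⊆ k := fun c => by
    rw [← Set.sdiff_eq, Set.sdiff_nonempty]
  unfold Two
  rw [key, key, key]
  tauto

/-- The median of three cubes. -/
theorem exists_med_cube {c1 c2 c3 : Set V} (H1 : X.IsCube c1) (H2 : X.IsCube c2)
    (H3 : X.IsCube c3) : ∃ m, X.IsCube m ∧ ∀ k ∈ X.H,
      (¬ Two c1 c2 c3 kᶜ → m ⊆ k) ∧ (Two c1 c2 c3 k → (m ∩ k).Nonempty) := by
  obtain ⟨v1, hv1⟩ := H1.nonempty
  obtain ⟨v2, hv2⟩ := H2.nonempty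
  obtain ⟨v3, hv3⟩ := H3.nonempty
  obtain ⟨v, hv⟩ := X.med v1 v2 v3
  -- a half space which contains `v` meets two of the cubes
  have hP : ∀ k ∈ X.H, v ∈ k → Two c1 c2 c3 k := by
    intro k hk hvk
    by_contra hcon
    have h1 := X.compl k hk
    have h2 := hv kᶜ h1
    have e : ¬ Two c1 c2 c3 kᶜᶜ := by rw [compl_compl]; exact hcon
    rw [not_two_compl] at e
    rcases e with ⟨h3, h4⟩ | ⟨h3, h4⟩ | ⟨h3, h4⟩
    · exact h2.1 (h3 hv1) (h4 hv2) hvk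
    · exact h2.2.1 (h3 hv1) (h4 hv3) hvk
    · exact h2.2.2 (h3 hv2) (h4 hv3) hvk
  set F : Set (Set V) := {k | k ∈ X.H ∧ v ∈ k ∧ Two c1 c2 c3 kᶜ} with hF
  have hZ : ∀ k ∈ F, Zr c1 c2 c3 k := fun k hk => ⟨hP k hk.1 hk.2.1, hk.2.2⟩
  have hfin : F.Finite := by
    refine ((H1.fin.union (H2.fin.union H3.fin))).subset ?_
    intro k hk
    have hz := hZ k hk
    rcases two_cases hz.1 hz.2 with h | h | h
    · exact Or.inl ⟨hk.1, h.1, h.2⟩
    · exact Or.inr (Or.inl ⟨hk.1, h.1, h.2⟩)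
    · exact Or.inr (Or.inr ⟨hk.1, h.1, h.2⟩)
  have hmn : ∀ k ∈ F, X.Mn v k := by
    intro k hk
    refine ⟨hk.1, hk.2.1, fun j hj hvj hjk => ?_⟩
    by_contra hne
    have zj : Zr c1 c2 c3 j := by
      refine ⟨hP j hj hvj, ?_⟩
      have h1 := (hZ k hk).2
      unfold Two at h1 ⊢
      have hs : kᶜ ⊆ jᶜ := Set.compl_subset_compl.2 hjk
      have key : ∀ c : Set V, (c ∩ kᶜ).Nonempty → (c ∩ jᶜ).Nonempty := fun c h =>
        h.mono (Set.inter_subset_inter_right c hs)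
      have := key c1
      have := key c2
      have := key c3
      tauto
    exact (hZ k hk).not_sub H1 H2 H3 hk.1 hj zj hne hjk
  refine ⟨X.cube v F, ⟨v, F, hfin, hmn, ?_, rfl⟩, fun k hk => ⟨?_, ?_⟩⟩
  · intro h hh k hk hne
    refine (hZ h hh).cross H1 H2 H3 hh.1 hk.1 (hZ k hk) hne.symm ?_
    rintro rfl
    exact hk.2.1 hh.2.1
  · intro h1 w hw
    by_contra hwk
    by_cases hvk : v ∈ k
    · exact h1 (hw k hk hvk hwk).2.2
    · exact h1 (hP kᶜ (X.compl k hk) hvk)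
  · intro h1
    by_cases hvk : v ∈ k
    · exact ⟨v, mem_cube_self v F, hvk⟩
    · have hkF : kᶜ ∈ F := ⟨X.compl k hk, hvk, by rw [compl_compl]; exact h1⟩
      obtain ⟨w, hw, ho⟩ := (hmn _ hkF).exists_opp
      refine ⟨w, fun j hj hvj hwj => ?_, by simpa using hw⟩
      rcases ho.eq_of_sep hj (by tauto) with h | h
      · rw [h]
        exact hkF
      · rw [compl_compl] at h
        subst h
        exact absurd hvj hvk

/-! ### the subdivision -/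

variable (X)

/-- The type of the cubes. -/
def Cub : Type := {c : Set V // X.IsCube c}

variable {X}

/-- The cubes inside `k`. -/
def A (k : Set V) : Set X.Cub := {c | c.1 ⊆ k}

/-- The cubes which meet `k`. -/
def B (k : Set V) : Set X.Cub := {c | (c.1 ∩ k).Nonempty}

theorem A_sub_B (k : Set V) : (A k : Set X.Cub) ⊆ B k := by
  intro c hc
  obtain ⟨v, hv⟩ := c.2.nonempty
  exact ⟨v, hv, hc hv⟩

theorem A_compl (k : Set V) : (A k : Set X.Cub)ᶜ = B kᶜ := by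
  ext c
  change ¬ c.1 ⊆ k ↔ (c.1 ∩ kᶜ).Nonempty
  rw [← Set.sdiff_eq, Set.sdiff_nonempty]

theorem B_compl (k : Set V) : (B k : Set X.Cub)ᶜ = A kᶜ := by
  rw [← compl_compl (A kᶜ), A_compl, compl_compl]

theorem A_ne_B {k j : Set V} (hk : k ∈ X.H) : (A k : Set X.Cub) ≠ B j := by
  intro h
  have hkj : k = j := by
    ext v
    have h1 : ((⟨{v}, isCube_single v⟩ : X.Cub) ∈ (A k : Set X.Cub)) ↔
        (⟨{v}, isCube_single v⟩ : X.Cub) ∈ (B j : Set X.Cub) := by rw [h]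
    change ({v} ⊆ k ↔ ({v} ∩ j).Nonempty) at h1
    simpa using h1
  subst hkj
  obtain ⟨c, hc, h1, h2⟩ := exists_cube_cross hk
  have h3 : (⟨c, hc⟩ : X.Cub) ∈ (A k : Set X.Cub) := by
    rw [h]
    exact h1
  obtain ⟨x, hx1, hx2⟩ := h2
  exact hx2 (h3 hx1)

variable (X)

/-- The cubical subdivision. -/
def sbd : Med X.Cub where
  H := {h | ∃ k ∈ X.H, h = A k ∨ h = B k}
  compl := by
    rintro h ⟨k, hk, rfl | rfl⟩
    · exact ⟨kᶜ, X.compl k hk, Or.inr (A_compl k)⟩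
    · exact ⟨kᶜ, X.compl k hk, Or.inl (B_compl k)⟩
  ne := by
    rintro h ⟨k, hk, h1⟩
    obtain ⟨v, hv⟩ := X.ne k hk
    have h2 : (⟨{v}, isCube_single v⟩ : X.Cub) ∈ (A k : Set X.Cub) := by
      change {v} ⊆ k
      simpa using hv
    rcases h1 with rfl | rfl
    · exact ⟨_, h2⟩
    · exact ⟨_, A_sub_B k h2⟩
  fin := by
    intro c c'
    obtain ⟨v, hv⟩ := c.2.nonempty
    obtain ⟨v', hv'⟩ := c'.2.nonempty
    have hK : ({k | k ∈ X.H ∧ v ∉ k ∧ v' ∈ k} ∪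
        {k | k ∈ X.H ∧ (c.1 ∩ k).Nonempty ∧ (c.1 ∩ kᶜ).Nonempty} ∪
        {k | k ∈ X.H ∧ (c'.1 ∩ k).Nonempty ∧ (c'.1 ∩ kᶜ).Nonempty}).Finite :=
      ((X.fin v v').union c.2.fin).union c'.2.fin
    refine ((hK.image A).union (hK.image B)).subset ?_
    rintro h ⟨⟨k, hk, h1⟩, h2, h3⟩
    have h4 : k ∈ {k | k ∈ X.H ∧ v ∉ k ∧ v' ∈ k} ∪
        {k | k ∈ X.H ∧ (c.1 ∩ k).Nonempty ∧ (c.1 ∩ kᶜ).Nonempty} ∪
        {k | k ∈ X.H ∧ (c'.1 ∩ k).Nonempty ∧ (c'.1 ∩ kᶜ).Nonempty} := by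
      rcases h1 with rfl | rfl
      · have h5 : v' ∈ k := h3 hv'
        by_cases hvk : v ∈ k
        · refine Or.inl (Or.inr ⟨hk, ⟨v, hv, hvk⟩, ?_⟩)
          have : c ∈ (A k : Set X.Cub)ᶜ := h2
          rw [A_compl] at this
          exact this
        · exact Or.inl (Or.inl ⟨hk, hvk, h5⟩)
      · have h5 : v ∉ k := fun h' => h2 ⟨v, hv, h'⟩
        by_cases hvk : v' ∈ k
        · exact Or.inl (Or.inl ⟨hk, h5, hvk⟩)
        · exact Or.inr ⟨hk, h3, ⟨v', hv', hvk⟩⟩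
    rcases h1 with rfl | rfl
    · exact Or.inl ⟨k, h4, rfl⟩
    · exact Or.inr ⟨k, h4, rfl⟩
  sep := by
    intro c c' h
    apply Subtype.ext
    ext w
    rw [c.2.mem_iff, c'.2.mem_iff]
    have key : ∀ k ∈ X.H, c.1 ⊆ k ↔ c'.1 ⊆ k := fun k hk => h (A k) ⟨k, hk, Or.inl rfl⟩
    exact ⟨fun h1 k hk h2 => h1 k hk ((key k hk).2 h2),
      fun h1 k hk h2 => h1 k hk ((key k hk).1 h2)⟩
  med := by
    intro c1 c2 c3
    obtain ⟨m, hm, hmed⟩ := exists_med_cube c1.2 c2.2 c3.2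
    refine ⟨⟨m, hm⟩, ?_⟩
    rintro h ⟨k, hk, rfl | rfl⟩
    · have h1 := (hmed k hk).1
      rw [not_two_compl] at h1
      exact ⟨fun h2 h3 => h1 (Or.inl ⟨h2, h3⟩), fun h2 h3 => h1 (Or.inr (Or.inl ⟨h2, h3⟩)),
        fun h2 h3 => h1 (Or.inr (Or.inr ⟨h2, h3⟩))⟩
    · have h1 := (hmed k hk).2
      unfold Two at h1
      exact ⟨fun h2 h3 => h1 (Or.inl ⟨h2, h3⟩), fun h2 h3 => h1 (Or.inr (Or.inl ⟨h2, h3⟩)),
        fun h2 h3 => h1 (Or.inr (Or.inr ⟨h2, h3⟩))⟩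

end Med

end Pool.Agent.CC
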