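import Pool.Agent.Lib.MP_8f66f0_al_CC.Geo.Graph
import Pool.Agent.Lib.MP_8f66f0_al_CC.Geo.Sub

/-!
# Theorem CC, geometry: automorphisms and dimension of median graphs

The automorphisms of a median graph permute its half spaces. If a median graph contains no cube of
dimension `N + 1`, then it has at most `N` pairwise crossing half spaces (Helly's theorem).
-/

set_option autoImplicit false

namespace Pool.Agent.CC

open scoped Pointwise

namespace Med

variable {V : Type} {X : Med V}

/-! ### Helly's theorem -/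

/-- Convex sets of vertices. -/
def Cvx (X : Med V) (S : Set V) : Prop :=
  ∀ u ∈ S, ∀ v ∈ S, ∀ m, (∀ h ∈ X.H, u ∈ h → v ∈ h → m ∈ h) → m ∈ S

theorem cvx_H {h : Set V} (hh : h ∈ X.H) : X.Cvx h := fun _ hu _ hv _ hm => hm h hh hu hv

theorem Cvx.inter {S T : Set V} (hS : X.Cvx S) (hT : X.Cvx T) : X.Cvx (S ∩ T) :=
  fun u hu v hv m hm => ⟨hS u hu.1 v hv.1 m hm, hT u hu.2 v hv.2 m hm⟩

/-- Finitely many pairwise intersecting convex sets have a common point. -/
theorem helly {ι : Type} (s : Finset ι) : ∀ (C : ι → Set V), (∀ i ∈ s, X.Cvx (C i)) →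
    (∀ i ∈ s, ∀ j ∈ s, (C i ∩ C j).Nonempty) → s.Nonempty → ∃ x, ∀ i ∈ s, x ∈ C i := by
  classical
  induction s using Finset.induction_on with
  | empty => exact fun C _ _ h => absurd h Finset.not_nonempty_empty
  | insert a s ha ih =>
    intro C hC hp _
    rcases s.eq_empty_or_nonempty with rfl | hs
    · obtain ⟨x, hx⟩ := hp a (Finset.mem_insert_self a _) a (Finset.mem_insert_self a _)
      refine ⟨x, fun i hi => ?_⟩
      rcases Finset.mem_insert.1 hi with rfl | hi
      · exact hx.1
      · exact absurd hi (Finset.notMem_empty i)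
    · have hC' : ∀ i ∈ s, X.Cvx (C i) := fun i hi => hC i (Finset.mem_insert_of_mem hi)
      have hCa := hC a (Finset.mem_insert_self a _)
      obtain ⟨x, hx⟩ := ih (fun i => C i ∩ C a) (fun i hi => (hC' i hi).inter hCa)
        (fun i hi j hj => by
          obtain ⟨p, hp1, hp2⟩ := hp i (Finset.mem_insert_of_mem hi) j (Finset.mem_insert_of_mem hj)
          obtain ⟨q, hq1, hq2⟩ := hp i (Finset.mem_insert_of_mem hi) a (Finset.mem_insert_self a _)
          obtain ⟨r, hr1, hr2⟩ := hp j (Finset.mem_insert_of_mem hj) a (Finset.mem_insert_self a _)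
          obtain ⟨m, hm⟩ := X.med p q r
          have m1 : m ∈ C i := hC' i hi p hp1 q hq1 m fun h hh => (hm h hh).1
          have m2 : m ∈ C j := hC' j hj p hp2 r hr1 m fun h hh => (hm h hh).2.1
          have m3 : m ∈ C a := hCa q hq2 r hr2 m fun h hh => (hm h hh).2.2
          exact ⟨m, ⟨m1, m3⟩, m2, m3⟩) hs
      refine ⟨x, fun i hi => ?_⟩
      rcases Finset.mem_insert.1 hi with rfl | hi
      · obtain ⟨j, hj⟩ := hs
        exact (hx j hj).2
      · exact (hx i hi).1

/-- Pairwise crossing half spaces are minimal at a common vertex. -/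
theorem exists_mn_all (F : Finset (Set V)) (hF : ∀ h ∈ F, h ∈ X.H)
    (hc : ∀ h ∈ F, ∀ k ∈ F, h ≠ k → Crs h k) (hne : F.Nonempty) : ∃ v, ∀ h ∈ F, X.Mn v h := by
  classical
  have hself : ∀ h ∈ X.H, (h ∩ h).Nonempty := fun h hh => by
    rw [Set.inter_self]
    exact X.ne h hh
  obtain ⟨b, hb⟩ := helly (X := X) F (fun h => hᶜ) (fun h hh => cvx_H (X.compl h (hF h hh)))
    (fun h hh k hk => by
      by_cases e : h = k
      · subst e
        exact hself _ (X.compl h (hF h hh))
      · exact (hc h hh k hk e).2.2.2) hne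
  obtain ⟨v0, hv0⟩ := helly (X := X) F (fun h => h) (fun h hh => cvx_H (hF h hh))
    (fun h hh k hk => by
      by_cases e : h = k
      · subst e
        exact hself _ (hF h hh)
      · exact (hc h hh k hk e).1) hne
  obtain ⟨v, hv, hmin⟩ := (measure (fun v => X.dist v b)).wf.has_min {v | ∀ h ∈ F, v ∈ h}
    ⟨v0, hv0⟩
  refine ⟨v, fun h hh => ⟨hF h hh, hv h hh, fun k hk hvk hkh => ?_⟩⟩
  by_contra hne'
  obtain ⟨p, hph, hpk⟩ := Set.not_subset.1 (fun e => hne' (Set.Subset.antisymm hkh e))
  obtain ⟨u, hu⟩ := helly (X := X) (insert kᶜ F) (fun h => h)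
    (fun i hi => by
      rcases Finset.mem_insert.1 hi with rfl | hi
      · exact cvx_H (X.compl k hk)
      · exact cvx_H (hF i hi))
    (fun i hi j hj => by
      have key : ∀ l ∈ F, (kᶜ ∩ l).Nonempty := by
        intro l hl
        by_cases e : h = l
        · subst e
          exact ⟨p, hpk, hph⟩
        · obtain ⟨q, hq1, hq2⟩ := (hc h hh l hl e).2.2.1
          exact ⟨q, fun h' => hq1 (hkh h'), hq2⟩
      rcases Finset.mem_insert.1 hi with e1 | hi <;> rcases Finset.mem_insert.1 hj with e2 | hj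
      · rw [e1, e2]
        exact hself _ (X.compl k hk)
      · rw [e1]
        exact key j hj
      · rw [e2, Set.inter_comm]
        exact key i hi
      · by_cases e : i = j
        · subst e
          exact hself _ (hF i hi)
        · exact (hc i hi j hj e).1) ⟨_, Finset.mem_insert_self _ _⟩
  obtain ⟨m, hm⟩ := X.med v b u
  have huk : u ∈ kᶜ := hu _ (Finset.mem_insert_self _ _)
  have hbk : b ∈ kᶜ := fun h' => hb h hh (hkh h')
  have hmk : m ∈ kᶜ := (hm kᶜ (X.compl k hk)).2.2 hbk huk
  refine hmin m (fun l hl => ?_) (med_dist_lt hk (fun l hl => (hm l hl).1) hvk hbk hmk)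
  exact (hm l (hF l hl)).2.1 (hv l hl) (hu l (Finset.mem_insert_of_mem hl))

/-- The vertices of the cube of pairwise crossing minimal half spaces. -/
theorem exists_flip' {v : V} (F : Finset (Set V)) (hF : ∀ h ∈ F, X.Mn v h)
    (hc : ∀ h ∈ F, ∀ k ∈ F, h ≠ k → Crs h k) (S : Finset (Set V)) (hS : S ⊆ F) :
    ∃ u, (∀ h ∈ F, (h ∈ S → X.Mn u hᶜ) ∧ (h ∉ S → X.Mn u h)) ∧
      ∀ k ∈ X.H, k ∉ S → kᶜ ∉ S → (u ∈ k ↔ v ∈ k) := by
  classical
  induction S using Finset.induction_on with
  | empty =>
    exact ⟨v, fun h hh => ⟨fun h' => absurd h' (Finset.notMem_empty h), fun _ => hF h hh⟩,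
      fun _ _ _ _ => Iff.rfl⟩
  | insert h S hhS ih =>
    obtain ⟨u, hu, hu'⟩ := ih fun k hk => hS (Finset.mem_insert_of_mem hk)
    have hhF : h ∈ F := hS (Finset.mem_insert_self h S)
    obtain ⟨w, hw, ho⟩ := ((hu h hhF).2 hhS).exists_opp
    refine ⟨w, fun k hk => ?_, fun k hk h1 h2 => ?_⟩
    · by_cases hkh : k = h
      · subst hkh
        refine ⟨fun _ => ?_, fun h' => absurd (Finset.mem_insert_self k S) h'⟩
        exact ho.symm.compl.mn hw
      · have hcr : Crs h k := hc h hhF k hk (Ne.symm hkh)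
        constructor
        · intro h'
          have h1 := (hu k hk).1 (Finset.mem_of_mem_insert_of_ne h' hkh)
          exact h1.cross ho hcr.compl_right
        · intro h'
          have h1 := (hu k hk).2 fun h'' => h' (Finset.mem_insert_of_mem h'')
          exact h1.cross ho hcr
    · have n1 : k ≠ h := fun e => h1 (e ▸ Finset.mem_insert_self _ _)
      have n2 : k ≠ hᶜ := fun e => h2 (by rw [e, compl_compl]; exact Finset.mem_insert_self _ _)
      rw [← ho.2.2 k hk n1 n2]
      exact hu' k hk (fun e => h1 (Finset.mem_insert_of_mem e))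
        (fun e => h2 (Finset.mem_insert_of_mem e))

/-- The cube of pairwise crossing half spaces. -/
theorem exists_cube_map {n : ℕ} {F : Finset (Set V)} (hF : ∀ h ∈ F, h ∈ X.H)
    (hc : ∀ h ∈ F, ∀ k ∈ F, h ≠ k → Crs h k) (hne : F.Nonempty) (hn : F.card = n) :
    ∃ f : (Fin n → Bool) → V, Function.Injective f ∧
      ∀ (x : Fin n → Bool) (i : Fin n), ∃ h, X.Opp h (f x) (f (Function.update x i (!x i))) := by
  classical
  obtain ⟨v, hv⟩ := exists_mn_all F hF hc hne
  have e : Fin n ≃ F := (F.equivFinOfCardEq hn).symm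
  have hS : ∀ x : Fin n → Bool,
      (Finset.univ.filter fun i => x i = true).image (fun i => (e i : Set V)) ⊆ F := by
    intro x k hk
    obtain ⟨i, -, rfl⟩ := Finset.mem_image.1 hk
    exact (e i).2
  choose f hf1 hf2 using fun x : Fin n → Bool => exists_flip' F hv hc _ (hS x)
  have hmem : ∀ (x : Fin n → Bool) (i : Fin n), (e i : Set V) ∈
      (Finset.univ.filter fun i => x i = true).image (fun i => (e i : Set V)) ↔ x i = true := by
    intro x i
    constructor
    · intro h
      obtain ⟨j, hj, hji⟩ := Finset.mem_image.1 h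
      have : j = i := e.injective (Subtype.ext hji)
      subst this
      exact (Finset.mem_filter.1 hj).2
    · intro h
      exact Finset.mem_image.2 ⟨i, Finset.mem_filter.2 ⟨Finset.mem_univ i, h⟩, rfl⟩
  have hside : ∀ (x : Fin n → Bool) (i : Fin n), f x ∈ (e i : Set V) ↔ x i = false := by
    intro x i
    rcases Bool.eq_false_or_eq_true (x i) with h | h
    · have h1 := ((hf1 x _ (e i).2).1 ((hmem x i).2 h)).2.1
      rw [h]
      exact ⟨fun h' => absurd h' h1, fun h' => absurd h' (by decide)⟩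
    · have h1 := ((hf1 x _ (e i).2).2 (fun h' => by
        rw [(hmem x i).1 h'] at h
        exact absurd h (by decide))).2.1
      exact ⟨fun _ => h, fun _ => h1⟩
  have hrest : ∀ (x : Fin n → Bool), ∀ k ∈ X.H, k ∉ F → kᶜ ∉ F → (f x ∈ k ↔ v ∈ k) :=
    fun x k hk h1 h2 => hf2 x k hk (fun h => h1 (hS x h)) (fun h => h2 (hS x h))
  refine ⟨f, fun x y hxy => ?_, fun x i => ⟨e i, hF _ (e i).2, ?_, ?_⟩⟩
  · funext i
    have h1 := hside x i
    have h2 := hside y i
    rw [hxy] at h1
    have h3 := h1.symm.trans h2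
    rcases Bool.eq_false_or_eq_true (x i) with h | h
    · rcases Bool.eq_false_or_eq_true (y i) with h' | h'
      · rw [h, h']
      · rw [h3.2 h'] at h
        exact absurd h (by decide)
    · rw [h, h3.1 h]
  · rw [hside, hside, Function.update_self]
    cases x i <;> decide
  · intro k hk h1 h2
    by_cases h3 : k ∈ F
    · obtain ⟨j, hj⟩ := e.surjective ⟨k, h3⟩
      have hj' : (e j : Set V) = k := by rw [hj]
      have hij : j ≠ i := by
        rintro rfl
        exact h1 hj'.symm
      rw [← hj', hside, hside, Function.update_of_ne hij]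
    · by_cases h4 : kᶜ ∈ F
      · obtain ⟨j, hj⟩ := e.surjective ⟨kᶜ, h4⟩
        have hj' : (e j : Set V) = kᶜ := by rw [hj]
        have hij : j ≠ i := by
          rintro rfl
          refine h2 ?_
          rw [hj', compl_compl]
        have h5 : ∀ w : V, w ∈ k ↔ ¬ w ∈ (e j : Set V) := by
          intro w
          rw [hj', Set.mem_compl_iff, not_not]
        rw [h5, h5, hside, hside, Function.update_of_ne hij]
      · rw [hrest x k hk h3 h4, hrest _ k hk h3 h4]

end Med

namespace IsMedian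

variable {V : Type} {G : SimpleGraph V} (hG : IsMedian G)

include hG

/-- Vertices which are separated by exactly one wall are neighbours. -/
theorem adj_of_opp {h : Set V} {v w : V} (ho : hG.toMed.Opp h v w) : G.Adj v w := by
  have hvw : v ≠ w := ho.ne
  obtain ⟨u1, h1, h2⟩ := hG.step hvw
  by_cases hu : u1 = w
  · rwa [hu] at h1
  exfalso
  obtain ⟨u2, h3, h4⟩ := hG.step hu
  have t1 := adj_one h1
  have t3 := adj_one h3
  have t4 := hG.tri v u1 u2
  have t5 := hG.tri v u2 w
  have s1 : G.dist w v = G.dist v w := SimpleGraph.dist_comm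
  have s2 : G.dist w u1 = G.dist u1 w := SimpleGraph.dist_comm
  have s3 : G.dist w u2 = G.dist u2 w := SimpleGraph.dist_comm
  have e1 : v ∈ W G v u1 := by
    change G.dist v v < G.dist v u1
    rw [SimpleGraph.dist_self, t1]
    exact one_pos
  have e2 : w ∉ W G v u1 := by
    change ¬ G.dist w v < G.dist w u1
    omega
  have e3 : v ∈ W G u1 u2 := by
    change G.dist v u1 < G.dist v u2
    omega
  have e4 : w ∉ W G u1 u2 := by
    change ¬ G.dist w u1 < G.dist w u2
    omega
  have e5 : u1 ∉ W G v u1 := by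
    change ¬ G.dist u1 v < G.dist u1 u1
    rw [SimpleGraph.dist_self]
    exact Nat.not_lt_zero _
  have e6 : u1 ∈ W G u1 u2 := by
    change G.dist u1 u1 < G.dist u1 u2
    rw [SimpleGraph.dist_self, t3]
    exact one_pos
  have k1 : W G v u1 ∈ hG.toMed.H := ⟨v, u1, h1, rfl⟩
  have k2 : W G u1 u2 ∈ hG.toMed.H := ⟨u1, u2, h3, rfl⟩
  have key : ∀ k ∈ hG.toMed.H, v ∈ k → w ∉ k → k = h ∨ k = hᶜ := by
    intro k hk hv hw
    by_contra hcon
    push Not at hcon
    exact hw ((ho.2.2 k hk hcon.1 hcon.2).1 hv)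
  have hh : ∀ k ∈ hG.toMed.H, v ∈ k → w ∉ k → ∀ j ∈ hG.toMed.H, v ∈ j → w ∉ j → k = j := by
    intro k hk hv hw j hj hv' hw'
    rcases key k hk hv hw with a | a <;> rcases key j hj hv' hw' with b | b
    · rw [a, b]
    · exfalso
      rw [a] at hv
      rw [b] at hv'
      exact hv' hv
    · exfalso
      rw [a] at hv
      rw [b] at hv'
      exact hv hv'
    · rw [a, b]
  rw [hh _ k1 e1 e2 _ k2 e3 e4] at e5
  exact e5 e6

/-- The dimension of a median graph without `N + 1`-dimensional cubes. -/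
theorem dim {N : ℕ} (hN : NoCube G (N + 1)) : hG.toMed.Dim N := by
  classical
  intro F hF hc
  by_contra hcon
  obtain ⟨F', hF', hn⟩ := Finset.exists_subset_card_eq (show N + 1 ≤ F.card by omega)
  obtain ⟨f, hf, hf'⟩ := Med.exists_cube_map (X := hG.toMed) (F := F')
    (fun h hh => hF h (hF' hh)) (fun h hh k hk => hc h (hF' hh) k (hF' hk))
    (Finset.card_pos.1 (by omega)) hn
  refine hN f hf fun x i => ?_
  obtain ⟨h, hh⟩ := hf' x i
  exact hG.adj_of_opp hh

/-! ### automorphisms -/

variable {Γ : Type} [Group Γ] [MulAction Γ V]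

omit hG in
theorem dist_smul_le (hA : ∀ (g : Γ) (a b : V), G.Adj a b → G.Adj (g • a) (g • b))
    (hconn : G.Connected) (g : Γ) (a b : V) : G.dist (g • a) (g • b) ≤ G.dist a b := by
  obtain ⟨p, hp⟩ := hconn.exists_walk_length_eq_dist a b
  have h1 := SimpleGraph.dist_le (p.map (⟨fun x => g • x, fun {a b} h => hA g a b h⟩ : G →g G))
  rw [SimpleGraph.Walk.length_map, hp] at h1
  exact h1

omit hG in
theorem dist_smul (hA : ∀ (g : Γ) (a b : V), G.Adj a b → G.Adj (g • a) (g • b))
    (hconn : G.Connected) (g : Γ) (a b : V) : G.dist (g • a) (g • b) = G.dist a b := by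
  refine le_antisymm (dist_smul_le hA hconn g a b) ?_
  have h1 := dist_smul_le hA hconn g⁻¹ (g • a) (g • b)
  rwa [inv_smul_smul, inv_smul_smul] at h1

omit hG in
theorem W_smul (hA : ∀ (g : Γ) (a b : V), G.Adj a b → G.Adj (g • a) (g • b))
    (hconn : G.Connected) (g : Γ) (a b : V) : g • W G a b = W G (g • a) (g • b) := by
  ext x
  rw [Set.mem_smul_set_iff_inv_smul_mem]
  change G.dist (g⁻¹ • x) a < G.dist (g⁻¹ • x) b ↔ G.dist x (g • a) < G.dist x (g • b)
  have h1 := dist_smul hA hconn g (g⁻¹ • x) a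
  have h2 := dist_smul hA hconn g (g⁻¹ • x) b
  rw [smul_inv_smul] at h1 h2
  rw [h1, h2]

/-- Automorphisms permute the half spaces. -/
theorem inv (hA : ∀ (g : Γ) (a b : V), G.Adj a b → G.Adj (g • a) (g • b)) : hG.toMed.Inv Γ := by
  rintro g h ⟨a, b, hab, rfl⟩
  exact ⟨g • a, g • b, hA g a b hab, W_smul hA hG.conn g a b⟩

end IsMedian

end Pool.Agent.CC
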