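import Pool.Agent.Lib.MP_8f66f0_al_CC.Geo.Basic

/-!
# Theorem CC, geometry: equivariance
-/

set_option autoImplicit false

namespace Pool.Agent.CC

open scoped Pointwise

variable {G V : Type} [Group G] [MulAction G V]

theorem Crs.smul {h k : Set V} (hc : Crs h k) (g : G) : Crs (g • h) (g • k) := by
  obtain ⟨h1, h2, h3, h4⟩ := hc
  refine ⟨?_, ?_, ?_, ?_⟩
  · rw [← Set.smul_set_inter]
    exact h1.smul_set
  · rw [← Set.smul_set_compl, ← Set.smul_set_inter]
    exact h2.smul_set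
  · rw [← Set.smul_set_compl, ← Set.smul_set_inter]
    exact h3.smul_set
  · rw [← Set.smul_set_compl, ← Set.smul_set_compl, ← Set.smul_set_inter]
    exact h4.smul_set

namespace Med

variable (X : Med V)

/-- The half spaces are permuted by the group. -/
def Inv (G : Type) {V : Type} [Group G] [MulAction G V] (X : Med V) : Prop :=
  ∀ (g : G), ∀ h ∈ X.H, g • h ∈ X.H

variable {X}

theorem Inv.iff (hG : X.Inv G) (g : G) {h : Set V} : g • h ∈ X.H ↔ h ∈ X.H := by
  constructor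
  · intro h1
    have := hG g⁻¹ _ h1
    rwa [inv_smul_smul] at this
  · exact hG g h

theorem Inv.mn_smul (hG : X.Inv G) (g : G) {v : V} {h : Set V} (hm : X.Mn v h) :
    X.Mn (g • v) (g • h) := by
  refine ⟨hG g h hm.1, Set.smul_mem_smul_set hm.2.1, fun k hk hv hs => ?_⟩
  have h1 : g⁻¹ • k = h := by
    refine hm.2.2 _ (hG g⁻¹ k hk) ?_ ?_
    · rw [Set.mem_inv_smul_set_iff]
      exact hv
    · rw [← Set.subset_smul_set_iff]
      exact hs
  rw [← h1, smul_inv_smul]

theorem Inv.mn_smul_iff (hG : X.Inv G) (g : G) {v : V} {h : Set V} :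
    X.Mn (g • v) (g • h) ↔ X.Mn v h := by
  constructor
  · intro hm
    have := hG.mn_smul g⁻¹ hm
    rwa [inv_smul_smul, inv_smul_smul] at this
  · exact hG.mn_smul g

theorem Inv.mn_smul_left (hG : X.Inv G) (g : G) {v : V} {h : Set V} :
    X.Mn (g • v) h ↔ X.Mn v (g⁻¹ • h) := by
  rw [← hG.mn_smul_iff g⁻¹ (v := g • v), inv_smul_smul]

theorem Inv.D_smul (hG : X.Inv G) (g : G) (b v : V) : X.D (g • b) (g • v) = g • X.D b v := by
  ext h
  rw [Set.mem_smul_set_iff_inv_smul_mem]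
  unfold D
  rw [Set.mem_ofPred_eq, Set.mem_ofPred_eq, hG.mn_smul_left, Set.mem_inv_smul_set_iff]

theorem Inv.opp_smul (hG : X.Inv G) (g : G) {h : Set V} {v w : V} (ho : X.Opp h v w) :
    X.Opp (g • h) (g • v) (g • w) := by
  refine ⟨hG g h ho.1, ?_, fun k hk h1 h2 => ?_⟩
  · rw [Set.smul_mem_smul_set_iff, Set.smul_mem_smul_set_iff]
    exact ho.2.1
  · have := ho.2.2 (g⁻¹ • k) (hG g⁻¹ k hk) (fun h' => h1 (by rw [← h', smul_inv_smul]))
      (fun h' => h2 (by rw [← Set.smul_set_compl, ← h', smul_inv_smul]))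
    rwa [Set.mem_inv_smul_set_iff, Set.mem_inv_smul_set_iff] at this

theorem Inv.opp_smul_iff (hG : X.Inv G) (g : G) {h : Set V} {v w : V} :
    X.Opp (g • h) (g • v) (g • w) ↔ X.Opp h v w := by
  constructor
  · intro ho
    have := hG.opp_smul g⁻¹ ho
    rwa [inv_smul_smul, inv_smul_smul, inv_smul_smul] at this
  · exact hG.opp_smul g

theorem Inv.nb_smul (hG : X.Inv G) (g : G) (h : Set V) (v : V) :
    X.nb (g • h) (g • v) = g • X.nb h v := by
  by_cases H : ∃ w, X.Opp h v w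
  · obtain ⟨w, ho⟩ := H
    rw [ho.nb, (hG.opp_smul g ho).nb]
  · rw [X.nb_eq_self H, X.nb_eq_self]
    rintro ⟨w, ho⟩
    refine H ⟨g⁻¹ • w, ?_⟩
    have := hG.opp_smul g⁻¹ ho
    rwa [inv_smul_smul, inv_smul_smul] at this

end Med

theorem Act.inv {X : Med V} (A : Act G X) : X.Inv G := A.smul_mem

/-- The set of the positive sides of the walls in `F`. -/
def Act.abs {X : Med V} (A : Act G X) (F : Set (Set V)) : Set (Set V) :=
  {h | h ∈ A.pos ∧ (h ∈ F ∨ hᶜ ∈ F)}

theorem Act.pos_smul_iff {X : Med V} (A : Act G X) (g : G) {h : Set V} :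
    g • h ∈ A.pos ↔ h ∈ A.pos := by
  constructor
  · intro h1
    have := A.pos_smul g⁻¹ _ h1
    rwa [inv_smul_smul] at this
  · exact A.pos_smul g h

theorem Act.abs_smul {X : Med V} (A : Act G X) (g : G) (F : Set (Set V)) :
    A.abs (g • F) = g • A.abs F := by
  ext h
  rw [Set.mem_smul_set_iff_inv_smul_mem]
  unfold Act.abs
  rw [Set.mem_ofPred_eq, Set.mem_ofPred_eq, A.pos_smul_iff, Set.mem_smul_set_iff_inv_smul_mem,
    Set.mem_smul_set_iff_inv_smul_mem, Set.smul_set_compl]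

/-- Equality of the sets of unoriented walls, from the two inclusions. -/
theorem Act.abs_eq {X : Med V} (A : Act G X) (g : G) {E F : Set (Set V)}
    (h1 : ∀ a ∈ F, g • a ∈ E ∨ (g • a)ᶜ ∈ E)
    (h2 : ∀ a ∈ E, g⁻¹ • a ∈ F ∨ (g⁻¹ • a)ᶜ ∈ F) : A.abs E = g • A.abs F := by
  ext h
  rw [Set.mem_smul_set_iff_inv_smul_mem]
  unfold Act.abs
  rw [Set.mem_ofPred_eq, Set.mem_ofPred_eq, A.pos_smul_iff]
  refine and_congr_right fun _ => ?_
  constructor
  · rintro (h3 | h3)
    · exact h2 h h3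
    · have := h2 _ h3
      rw [Set.smul_set_compl, compl_compl] at this
      tauto
  · rintro (h3 | h3)
    · have := h1 _ h3
      rwa [smul_inv_smul] at this
    · have := h1 _ h3
      rw [Set.smul_set_compl, smul_inv_smul, compl_compl] at this
      tauto

end Pool.Agent.CC
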