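import Pool.Agent.Lib.MP_8f66f0_al_CC.Geo.SubAct

/-!
# Theorem CC, geometry: spaces with walls

`H` is a set of subsets (half spaces) of a set `V`, closed under complements, such that any two points
are separated by finitely many half spaces. The dual complex (Sageev): its vertices are the ultrafilters
of half spaces at finite distance from the points of `V`. So a statement about actions without inversions
on median structures of finite dimension gives a statement about groups which act on spaces with walls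
with at most `N` pairwise crossing half spaces, with conditions on the subgroups with a bounded orbit.
-/

set_option autoImplicit false

namespace Pool.Agent.CC

open scoped Pointwise

/-- A space with walls. -/
structure WSp {V : Type} (H : Set (Set V)) : Prop where
  compl : ∀ h ∈ H, hᶜ ∈ H
  ne : ∀ h ∈ H, h.Nonempty
  fin : ∀ u v : V, {h | h ∈ H ∧ u ∉ h ∧ v ∈ h}.Finite

/-- Ultrafilters at finite distance from the points. -/
structure IsUl {V : Type} (H : Set (Set V)) (σ : Set (Set V)) : Prop where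
  sub : ∀ h ∈ σ, h ∈ H
  or : ∀ h ∈ H, h ∈ σ ↔ hᶜ ∉ σ
  int : ∀ h ∈ σ, ∀ k ∈ σ, (h ∩ k).Nonempty
  fin : ∀ v : V, {h | h ∈ σ ∧ v ∉ h}.Finite

/-- The dual complex. -/
def Ul {V : Type} (H : Set (Set V)) : Type := {σ : Set (Set V) // IsUl H σ}

/-- The half space of the dual complex. -/
def up {V : Type} {H : Set (Set V)} (h : Set V) : Set (Ul H) := {σ | h ∈ σ.1}

variable {V : Type} {H : Set (Set V)}

theorem mem_up {h : Set V} {σ : Ul H} : σ ∈ up h ↔ h ∈ σ.1 := Iff.rfl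

theorem IsUl.or' {σ : Set (Set V)} (hσ : IsUl H σ) {h : Set V} (hh : h ∈ H) :
    hᶜ ∈ σ ↔ h ∉ σ := by
  rw [hσ.or h hh, not_not]

theorem up_compl {h : Set V} (hh : h ∈ H) : (up h : Set (Ul H))ᶜ = up hᶜ := by
  ext σ
  rw [Set.mem_compl_iff, mem_up, mem_up, σ.2.or' hh]

/-- The ultrafilter of a point. -/
theorem isUl_pr (hW : WSp H) (v : V) : IsUl H {h | h ∈ H ∧ v ∈ h} where
  sub h hh := hh.1
  or h hh := by
    constructor
    · intro h1 h2
      exact h2.2 h1.2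
    · intro h1
      refine ⟨hh, ?_⟩
      by_contra h2
      exact h1 ⟨hW.compl h hh, h2⟩
  int h hh k hk := ⟨v, hh.2, hk.2⟩
  fin u := (hW.fin u v).subset fun h hh => ⟨hh.1.1, hh.2, hh.1.2⟩

/-- The ultrafilter of a point. -/
def pr (hW : WSp H) (v : V) : Ul H := ⟨_, isUl_pr hW v⟩

theorem diff_fin [Nonempty V] (σ τ : Ul H) : {h | h ∈ τ.1 ∧ h ∉ σ.1}.Finite := by
  obtain ⟨v⟩ := ‹Nonempty V›
  refine ((τ.2.fin v).union ((σ.2.fin v).image fun h => hᶜ)).subset fun h hh => ?_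
  by_cases hv : v ∈ h
  · exact Or.inr ⟨hᶜ, ⟨(σ.2.or' (τ.2.sub h hh.1)).2 hh.2, fun h' => h' hv⟩, compl_compl h⟩
  · exact Or.inl ⟨hh.1, hv⟩

/-- The majority. -/
theorem isUl_med (a b c : Ul H) :
    IsUl H {h | (h ∈ a.1 ∧ h ∈ b.1) ∨ (h ∈ a.1 ∧ h ∈ c.1) ∨ (h ∈ b.1 ∧ h ∈ c.1)} where
  sub h hh := by
    rcases hh with hh | hh | hh
    · exact a.2.sub h hh.1
    · exact a.2.sub h hh.1
    · exact b.2.sub h hh.1
  or h hh := by
    have h1 := a.2.or' hh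
    have h2 := b.2.or' hh
    have h3 := c.2.or' hh
    rw [Set.mem_setOf_eq, Set.mem_setOf_eq, h1, h2, h3]
    tauto
  int h hh k hk := by
    rcases hh with hh | hh | hh <;> rcases hk with hk | hk | hk
    · exact a.2.int h hh.1 k hk.1
    · exact a.2.int h hh.1 k hk.1
    · exact b.2.int h hh.2 k hk.1
    · exact a.2.int h hh.1 k hk.1
    · exact a.2.int h hh.1 k hk.1
    · exact c.2.int h hh.2 k hk.2
    · exact b.2.int h hh.1 k hk.2
    · exact c.2.int h hh.2 k hk.2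
    · exact b.2.int h hh.1 k hk.1
  fin v := by
    refine (((a.2.fin v).union (b.2.fin v))).subset fun h hh => ?_
    rcases hh.1 with h1 | h1 | h1
    · exact Or.inl ⟨h1.1, hh.2⟩
    · exact Or.inl ⟨h1.1, hh.2⟩
    · exact Or.inr ⟨h1.1, hh.2⟩

/-- The median structure of the dual complex. -/
def dual [Nonempty V] (hW : WSp H) : Med (Ul H) where
  H := {U | ∃ h ∈ H, U = up h}
  compl := by
    rintro _ ⟨h, hh, rfl⟩
    exact ⟨hᶜ, hW.compl h hh, up_compl hh⟩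
  ne := by
    rintro _ ⟨h, hh, rfl⟩
    obtain ⟨v, hv⟩ := hW.ne h hh
    exact ⟨pr hW v, ⟨hh, hv⟩⟩
  fin := by
    intro σ τ
    refine ((diff_fin σ τ).image up).subset ?_
    rintro _ ⟨⟨h, _, rfl⟩, h2, h3⟩
    exact ⟨h, ⟨h3, h2⟩, rfl⟩
  sep := by
    intro σ τ h
    refine Subtype.ext (Set.ext fun k => ⟨fun hk => ?_, fun hk => ?_⟩)
    · exact (h _ ⟨k, σ.2.sub k hk, rfl⟩).1 hk
    · exact (h _ ⟨k, τ.2.sub k hk, rfl⟩).2 hk
  med := by
    intro a b c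
    refine ⟨⟨_, isUl_med a b c⟩, ?_⟩
    rintro _ ⟨h, _, rfl⟩
    exact ⟨fun h1 h2 => Or.inl ⟨h1, h2⟩, fun h1 h2 => Or.inr (Or.inl ⟨h1, h2⟩),
      fun h1 h2 => Or.inr (Or.inr ⟨h1, h2⟩)⟩

theorem crs_of_up {h k : Set V} (hh : h ∈ H) (hk : k ∈ H)
    (hc : Crs (up h : Set (Ul H)) (up k)) : Crs h k := by
  obtain ⟨⟨a, a1, a2⟩, ⟨b, b1, b2⟩, ⟨c, c1, c2⟩, ⟨d, d1, d2⟩⟩ := hc
  rw [up_compl hk] at b2 d2
  rw [up_compl hh] at c1 d1
  exact ⟨a.2.int h a1 k a2, b.2.int h b1 _ b2, c.2.int _ c1 k c2, d.2.int _ d1 _ d2⟩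

theorem dual_dim [Nonempty V] (hW : WSp H) {N : ℕ}
    (hN : ∀ F : Finset (Set V), (∀ h ∈ F, h ∈ H) → (∀ h ∈ F, ∀ k ∈ F, h ≠ k → Crs h k) →
      F.card ≤ N) : (dual hW).Dim N := by
  classical
  intro F hF hC
  have hch : ∀ U : Set (Ul H), ∃ h : Set V, U ∈ F → h ∈ H ∧ U = up h := by
    intro U
    by_cases hU : U ∈ F
    · obtain ⟨h, h1, h2⟩ := hF U hU
      exact ⟨h, fun _ => ⟨h1, h2⟩⟩
    · exact ⟨∅, fun h => absurd h hU⟩
  choose f hf using hch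
  have hinj : Set.InjOn f F := by
    intro U hU U' hU' he
    rw [(hf U hU).2, (hf U' hU').2, he]
  rw [← Finset.card_image_of_injOn hinj]
  refine hN _ (fun h hh => ?_) fun h hh k hk hne => ?_
  · obtain ⟨U, hU, rfl⟩ := Finset.mem_image.1 hh
    exact (hf U hU).1
  · obtain ⟨U, hU, rfl⟩ := Finset.mem_image.1 hh
    obtain ⟨U', hU', rfl⟩ := Finset.mem_image.1 hk
    refine crs_of_up (hf U hU).1 (hf U' hU').1 ?_
    rw [← (hf U hU).2, ← (hf U' hU').2]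
    exact hC U hU U' hU' fun h => hne (by rw [h])

section Action

variable {Γ : Type} [Group Γ] [MulAction Γ V]

theorem isUl_smul (hA : ∀ (g : Γ), ∀ h ∈ H, g • h ∈ H) (g : Γ) {σ : Set (Set V)}
    (hσ : IsUl H σ) : IsUl H (g • σ) where
  sub h hh := by
    rw [Set.mem_smul_set_iff_inv_smul_mem] at hh
    have := hA g _ (hσ.sub _ hh)
    rwa [smul_inv_smul] at this
  or h hh := by
    rw [Set.mem_smul_set_iff_inv_smul_mem, Set.mem_smul_set_iff_inv_smul_mem,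
      Set.smul_set_compl]
    exact hσ.or _ (hA g⁻¹ h hh)
  int h hh k hk := by
    rw [Set.mem_smul_set_iff_inv_smul_mem] at hh hk
    have h1 := hσ.int _ hh _ hk
    rw [← Set.smul_set_inter, Set.smul_set_nonempty] at h1
    exact h1
  fin v := by
    refine ((hσ.fin (g⁻¹ • v)).image fun h => g • h).subset fun h hh => ?_
    obtain ⟨h1, h2⟩ := hh
    rw [Set.mem_smul_set_iff_inv_smul_mem] at h1
    refine ⟨g⁻¹ • h, ⟨h1, fun h3 => h2 ?_⟩, smul_inv_smul g h⟩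
    rwa [Set.smul_mem_smul_set_iff] at h3

/-- The action on the dual complex. -/
@[reducible] def ulAct (hA : ∀ (g : Γ), ∀ h ∈ H, g • h ∈ H) : MulAction Γ (Ul H) where
  smul g σ := ⟨g • σ.1, isUl_smul hA g σ.2⟩
  one_smul σ := Subtype.ext (one_smul Γ σ.1)
  mul_smul g h σ := Subtype.ext (mul_smul g h σ.1)

theorem dual_inv [Nonempty V] (hW : WSp H) (hA : ∀ (g : Γ), ∀ h ∈ H, g • h ∈ H) :
    letI := ulAct hA
    (dual hW).Inv Γ := by
  let := ulAct hA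
  rintro g _ ⟨h, hh, rfl⟩
  refine ⟨g • h, hA g h hh, ?_⟩
  ext σ
  rw [Set.mem_smul_set_iff_inv_smul_mem]
  change h ∈ g⁻¹ • σ.1 ↔ g • h ∈ σ.1
  rw [Set.mem_inv_smul_set_iff]

/-- Subgroups which leave a finite set of vertices of the dual complex invariant have bounded
orbits. -/
theorem bounded_of_stab [Nonempty V] (hW : WSp H) (hA : ∀ (g : Γ), ∀ h ∈ H, g • h ∈ H) (v : V)
    {c : Set (Ul H)} (hc : c.Finite) (hne : c.Nonempty) :
    letI := ulAct hA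
    ∃ n, ∀ d ∈ MulAction.stabilizer Γ c, {h | h ∈ H ∧ v ∉ h ∧ d • v ∈ h}.ncard ≤ n := by
  let := ulAct hA
  obtain ⟨σ, hσ⟩ := hne
  have h1 := σ.2.fin v
  have h2 : (⋃ τ ∈ c, {h | h ∈ τ.1 ∧ h ∉ σ.1}).Finite := hc.biUnion fun τ _ => diff_fin σ τ
  refine ⟨{h | h ∈ σ.1 ∧ v ∉ h}.ncard + {h | h ∈ σ.1 ∧ v ∉ h}.ncard +
    (⋃ τ ∈ c, {h | h ∈ τ.1 ∧ h ∉ σ.1}).ncard, fun d hd => ?_⟩
  have h3 := h1.image fun h => (d • h)ᶜ
  have h4 : {h | h ∈ H ∧ v ∉ h ∧ d • v ∈ h} ⊆ ({h | h ∈ σ.1 ∧ v ∉ h} ∪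
      (fun h => (d • h)ᶜ) '' {h | h ∈ σ.1 ∧ v ∉ h}) ∪
        ⋃ τ ∈ c, {h | h ∈ τ.1 ∧ h ∉ σ.1} := by
    rintro h ⟨hh, h5, h6⟩
    by_cases h7 : h ∈ σ.1
    · exact Or.inl (Or.inl ⟨h7, h5⟩)
    · by_cases h8 : h ∈ (d • σ).1
      · refine Or.inr (Set.mem_biUnion ?_ ⟨h8, h7⟩)
        rw [MulAction.mem_stabilizer_iff] at hd
        rw [← hd]
        exact Set.smul_mem_smul_set hσ
      · refine Or.inl (Or.inr ⟨d⁻¹ • hᶜ, ⟨?_, ?_⟩, ?_⟩)
        · have h9 : hᶜ ∈ (d • σ).1 := ((d • σ).2.or' hh).2 h8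
          exact Set.mem_smul_set_iff_inv_smul_mem.1 h9
        · intro h9
          rw [Set.mem_inv_smul_set_iff] at h9
          exact h9 h6
        · change (d • d⁻¹ • hᶜ)ᶜ = h
          rw [smul_inv_smul, compl_compl]
  refine (Set.ncard_le_ncard h4 ((h1.union h3).union h2)).trans ?_
  refine (Set.ncard_union_le _ _).trans (Nat.add_le_add_right ?_ _)
  exact (Set.ncard_union_le _ _).trans (Nat.add_le_add_left (Set.ncard_image_le h1) _)

end Action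

/-- From actions without inversions on median structures to actions on spaces with walls: if all
subgroups with a bounded orbit are in the class, then the group is in the class. -/
theorem wall_of_med {P : (G : Type) → [Group G] → Prop}
    (HM : ∀ (Γ V : Type) [Group Γ] [MulAction Γ V] [Nonempty V] (X : Med V) (_ : Act Γ X) (N : ℕ),
      X.Dim N → (∀ v : V, P (MulAction.stabilizer Γ v)) → P Γ)
    {Γ V : Type} [Group Γ] [MulAction Γ V] [Nonempty V] (H : Set (Set V))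
    (hc : ∀ h ∈ H, hᶜ ∈ H) (hf : ∀ u v : V, {h | h ∈ H ∧ u ∉ h ∧ v ∈ h}.Finite)
    (hA : ∀ (g : Γ), ∀ h ∈ H, g • h ∈ H) {N : ℕ}
    (hN : ∀ F : Finset (Set V), (∀ h ∈ F, h ∈ H) → (∀ h ∈ F, ∀ k ∈ F, h ≠ k → Crs h k) →
      F.card ≤ N)
    (hP : ∀ D : Subgroup Γ, (∃ (v : V) (n : ℕ), ∀ d ∈ D,
      {h | h ∈ H ∧ v ∉ h ∧ d • v ∈ h}.ncard ≤ n) → P D) : P Γ := by
  obtain ⟨v⟩ := id ‹Nonempty V›
  let H' : Set (Set V) := {h | h ∈ H ∧ h.Nonempty ∧ hᶜ.Nonempty}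
  have hW : WSp H' := by
    refine ⟨fun h hh => ⟨hc h hh.1, hh.2.2, ?_⟩, fun h hh => hh.2.1, fun u v => ?_⟩
    · rw [compl_compl]
      exact hh.2.1
    · exact (hf u v).subset fun h hh => ⟨hh.1.1, hh.2⟩
  have hA' : ∀ (g : Γ), ∀ h ∈ H', g • h ∈ H' := by
    rintro g h ⟨h1, h2, h3⟩
    refine ⟨hA g h h1, h2.smul_set, ?_⟩
    rw [← Set.smul_set_compl]
    exact h3.smul_set
  have hN' := dual_dim hW (N := N) fun F hF hC => hN F (fun h hh => (hF h hh).1) hC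
  let := ulAct hA'
  have hI := dual_inv hW hA'
  let := hI.act
  have hne : Nonempty (dual hW).Cub := ⟨⟨_, (dual hW).isCube_single (pr hW v)⟩⟩
  refine HM Γ (dual hW).Cub (dual hW).sbd hI.actSub N hN'.sbd fun c => ?_
  rw [hI.stab_cube c]
  obtain ⟨n, hn⟩ := bounded_of_stab hW hA' v c.2.finite c.2.nonempty
  refine hP _ ⟨v, n, fun d hd => ?_⟩
  have h1 : {h | h ∈ H ∧ v ∉ h ∧ d • v ∈ h} = {h | h ∈ H' ∧ v ∉ h ∧ d • v ∈ h} := by
    ext h
    constructor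
    · rintro ⟨h1, h2, h3⟩
      exact ⟨⟨h1, ⟨_, h3⟩, ⟨_, h2⟩⟩, h2, h3⟩
    · rintro ⟨h1, h2, h3⟩
      exact ⟨h1.1, h2, h3⟩
  rw [h1]
  exact hn d hd

end Pool.Agent.CC
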